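import Mathlib
import Pool.Agent.Helper112.LS

/-!
# Montgomery's inequality for absolutely convergent exponential sums

`Sf α θ = ∑ α n e(n θ)`. If the support of `α` meets only `ν p` residue classes modulo `p` for the
primes `p` dividing the squarefree number `q`, then
`∑ ‖Sf α (a / q + θ)‖² ≥ ‖Sf α θ‖² ∏_{p ∣ q} (p - ν p) / ν p` (sum over the reduced residues `a`).
-/

set_option autoImplicit false

open Finset

namespace Pool.Agent.TH314.ET

open Pool.Agent.Helper112

/-- the generating function of the weights `α` at the frequency `θ` -/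
noncomputable def Sf (α : ℕ → ℂ) (θ : ℝ) : ℂ := ∑' n, α n * ee (n * θ)

variable {α : ℕ → ℂ}

theorem summable_mul_ee (hα : Summable fun n => ‖α n‖) (θ : ℝ) :
    Summable fun n : ℕ => α n * ee (n * θ) := by
  apply Summable.of_norm
  refine hα.congr fun n => ?_
  rw [norm_mul, ls_norm_ee, mul_one]

/-- the part of the series on a residue class -/
noncomputable def part (α : ℕ → ℂ) (m : ℕ) (θ : ℝ) (c : ℕ) : ℂ :=
  ∑' n : ℕ, if n % m = c then α n * ee (n * θ) else 0

theorem summable_part (hα : Summable fun n => ‖α n‖) (m : ℕ) (θ : ℝ) (c : ℕ) :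
    Summable fun n : ℕ => if n % m = c then α n * ee (n * θ) else 0 := by
  apply Summable.of_norm
  refine Summable.of_nonneg_of_le (fun n => norm_nonneg _) (fun n => ?_) hα
  split_ifs with h
  · rw [norm_mul, ls_norm_ee, mul_one]
  · rw [norm_zero]; exact norm_nonneg _

theorem Sf_expand (hα : Summable fun n => ‖α n‖) (m : ℕ) (hm : 0 < m) (θ : ℝ) (a : ℕ) :
    Sf α (a / m + θ) = ∑ c ∈ range m, part α m θ c * ee (a * ((c : ℝ) / m)) := by
  have hm' : (m : ℝ) ≠ 0 := by positivity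
  have h1 : ∀ n : ℕ, α n * ee (n * (a / m + θ)) =
      ∑ c ∈ range m, (if n % m = c then α n * ee (n * θ) else 0) * ee (a * ((c : ℝ) / m)) := by
    intro n
    rw [Finset.sum_eq_single (n % m)]
    · rw [if_pos rfl, mul_assoc, ← ls_ee_add]
      congr 1
      have h2 : (n : ℝ) = (m : ℝ) * ((n / m : ℕ) : ℝ) + ((n % m : ℕ) : ℝ) := by
        exact_mod_cast (Nat.div_add_mod n m).symm
      have h3 : (n : ℝ) * (a / m + θ) =
          (n * θ + a * (((n % m : ℕ) : ℝ) / m)) + (((n / m * a : ℕ) : ℕ) : ℝ) := by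
        push_cast
        field_simp
        nlinarith [h2]
      rw [h3, ls_ee_add, ls_ee_nat, mul_one]
    · intro c _ hc
      rw [if_neg (fun h => hc h.symm), zero_mul]
    · intro h
      exact absurd (mem_range.2 (Nat.mod_lt n hm)) h
  unfold Sf part
  simp_rw [h1]
  rw [Summable.tsum_finsetSum]
  · refine Finset.sum_congr rfl fun c _ => ?_
    rw [tsum_mul_right]
  · intro c _
    exact (summable_part hα m θ c).mul_right _

theorem Sf_eq_sum_part (hα : Summable fun n => ‖α n‖) (m : ℕ) (hm : 0 < m) (θ : ℝ) :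
    Sf α θ = ∑ c ∈ range m, part α m θ c := by
  have h := Sf_expand hα m hm θ 0
  simpa [ls_ee_zero] using h

theorem geom_ee (m : ℕ) (c d : ℕ) (hc : c < m) (hd : d < m) :
    ∑ a ∈ range m, ee (a * ((c : ℝ) / m)) * (starRingEnd ℂ) (ee (a * ((d : ℝ) / m))) =
      if c = d then (m : ℂ) else 0 := by
  have hm : 0 < m := by omega
  have hm' : (m : ℝ) ≠ 0 := by positivity
  have h1 : ∀ a ∈ range m, ee (a * ((c : ℝ) / m)) * (starRingEnd ℂ) (ee (a * ((d : ℝ) / m))) =
      ee (((c : ℝ) - d) / m) ^ a := by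
    intro a _
    rw [ls_conj_ee, ← ls_ee_add, ← ls_ee_nat_mul]
    congr 1
    ring
  rw [Finset.sum_congr rfl h1]
  split_ifs with hcd
  · subst hcd
    simp [ls_ee_zero]
  · have hne : ee (((c : ℝ) - d) / m) ≠ 1 := by
      intro h
      obtain ⟨k, hk⟩ := ls_ee_eq_one h
      have h2 : ((c : ℝ) - d) = k * m := by
        field_simp at hk
        linarith
      have h3 : (c : ℤ) - d = k * m := by exact_mod_cast h2
      have h4 : (m : ℤ) ∣ (c : ℤ) - d := ⟨k, by rw [h3]; ring⟩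
      have h5 : |(c : ℤ) - d| < m := by
        rw [abs_lt]; omega
      have h6 := Int.eq_zero_of_abs_lt_dvd h4 h5
      omega
    have h2 : ee (((c : ℝ) - d) / m) ^ m = 1 := by
      rw [← ls_ee_nat_mul]
      have : (m : ℝ) * (((c : ℝ) - d) / m) = (((c : ℤ) - d : ℤ) : ℝ) := by
        push_cast
        field_simp
      rw [this, ls_ee_int]
    have h3 := geom_sum_mul (ee (((c : ℝ) - d) / m)) m
    rw [h2, sub_self] at h3
    rcases mul_eq_zero.1 h3 with h4 | h4
    · exact h4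
    · exact absurd (sub_eq_zero.1 h4) hne

/-- Parseval on the cyclic group of order `m` -/
theorem parseval_range (m : ℕ) (b : ℕ → ℂ) :
    ∑ a ∈ range m, ‖∑ c ∈ range m, b c * ee (a * ((c : ℝ) / m))‖ ^ 2 =
      m * ∑ c ∈ range m, ‖b c‖ ^ 2 := by
  have h1 : ∀ a ∈ range m, ((‖∑ c ∈ range m, b c * ee (a * ((c : ℝ) / m))‖ ^ 2 : ℝ) : ℂ) =
      ∑ c ∈ range m, ∑ d ∈ range m, b c * (starRingEnd ℂ) (b d) *
        (ee (a * ((c : ℝ) / m)) * (starRingEnd ℂ) (ee (a * ((d : ℝ) / m)))) := by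
    intro a _
    push_cast
    rw [← Complex.mul_conj', map_sum, Finset.sum_mul_sum]
    refine Finset.sum_congr rfl fun c _ => Finset.sum_congr rfl fun d _ => ?_
    rw [map_mul]
    ring
  have h2 : ((∑ a ∈ range m, ‖∑ c ∈ range m, b c * ee (a * ((c : ℝ) / m))‖ ^ 2 : ℝ) : ℂ) =
      ((m * ∑ c ∈ range m, ‖b c‖ ^ 2 : ℝ) : ℂ) := by
    rw [Complex.ofReal_sum, Finset.sum_congr rfl h1, Finset.sum_comm]
    push_cast
    rw [Finset.mul_sum]
    refine Finset.sum_congr rfl fun c hc => ?_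
    rw [Finset.sum_comm]
    have h3 : ∀ d ∈ range m, ∑ a ∈ range m, b c * (starRingEnd ℂ) (b d) *
        (ee (a * ((c : ℝ) / m)) * (starRingEnd ℂ) (ee (a * ((d : ℝ) / m)))) =
        if c = d then (m : ℂ) * (‖b c‖ : ℂ) ^ 2 else 0 := by
      intro d hd
      rw [← Finset.mul_sum, geom_ee m c d (mem_range.1 hc) (mem_range.1 hd)]
      split_ifs with h
      · subst h
        rw [← Complex.mul_conj']
        ring
      · rw [mul_zero]
    rw [Finset.sum_congr rfl h3, Finset.sum_ite_eq, if_pos hc]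
  exact_mod_cast h2

/-- the class sums vanish on the classes which do not meet the support -/
theorem part_eq_zero {m c : ℕ} {R : Finset ℕ} (hR : ∀ n, α n ≠ 0 → n % m ∈ R) (θ : ℝ)
    (hc : c ∉ R) : part α m θ c = 0 := by
  unfold part
  have : ∀ n : ℕ, (if n % m = c then α n * ee (n * θ) else 0) = 0 := by
    intro n
    split_ifs with h
    · by_cases h0 : α n = 0
      · rw [h0, zero_mul]
      · exact absurd (h ▸ hR n h0) hc
    · rfl
  simp [this]

/-- the shifted sums over all classes modulo `m` -/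
theorem sum_shift_ge (hα : Summable fun n => ‖α n‖) (m : ℕ) (hm : 0 < m) (R : Finset ℕ)
    (hR : ∀ n, α n ≠ 0 → n % m ∈ R) (θ : ℝ) :
    (m : ℝ) * ‖Sf α θ‖ ^ 2 ≤ R.card * ∑ a ∈ range m, ‖Sf α (a / m + θ)‖ ^ 2 := by
  have h1 : ∑ a ∈ range m, ‖Sf α (a / m + θ)‖ ^ 2 = m * ∑ c ∈ range m, ‖part α m θ c‖ ^ 2 := by
    rw [← parseval_range m (part α m θ)]
    exact Finset.sum_congr rfl fun a _ => by rw [Sf_expand hα m hm θ a]
  have h2 : ‖Sf α θ‖ ^ 2 ≤ R.card * ∑ c ∈ range m, ‖part α m θ c‖ ^ 2 := by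
    rw [Sf_eq_sum_part hα m hm θ]
    have h3 : ∑ c ∈ range m, part α m θ c = ∑ c ∈ (range m).filter (· ∈ R), part α m θ c := by
      rw [Finset.sum_filter]
      refine Finset.sum_congr rfl fun c _ => ?_
      split_ifs with h
      · rfl
      · exact part_eq_zero hR θ h
    rw [h3]
    have h4 : ‖∑ c ∈ (range m).filter (· ∈ R), part α m θ c‖ ^ 2 ≤
        ((range m).filter (· ∈ R)).card * ∑ c ∈ (range m).filter (· ∈ R), ‖part α m θ c‖ ^ 2 := by
      refine le_trans ?_ (sq_sum_le_card_mul_sum_sq)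
      exact pow_le_pow_left₀ (norm_nonneg _) (norm_sum_le _ _) 2
    refine h4.trans ?_
    have h5 : ((range m).filter (· ∈ R)).card ≤ R.card := by
      apply Finset.card_le_card
      intro c hc
      exact (Finset.mem_filter.1 hc).2
    have h6 : ∑ c ∈ (range m).filter (· ∈ R), ‖part α m θ c‖ ^ 2 ≤
        ∑ c ∈ range m, ‖part α m θ c‖ ^ 2 :=
      Finset.sum_le_sum_of_subset_of_nonneg (Finset.filter_subset _ _) fun _ _ _ => by positivity
    gcongr
  rw [h1]
  have hm' : (0 : ℝ) ≤ m := by positivity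
  nlinarith [mul_le_mul_of_nonneg_left h2 hm']

theorem Sf_add_nat (x : ℝ) (k : ℕ) : Sf α (x + k) = Sf α x := by
  unfold Sf
  congr 1
  funext n
  have : (n : ℝ) * (x + k) = n * x + ((n * k : ℕ) : ℝ) := by push_cast; ring
  rw [this, ls_ee_add, ls_ee_nat, mul_one]

/-- the reduced fractions with prime denominator -/
theorem mont_prime (hα : Summable fun n => ‖α n‖) {p : ℕ} (hp : p.Prime) (R : Finset ℕ)
    (hR : ∀ n, α n ≠ 0 → n % p ∈ R) (hR0 : 0 < R.card) (θ : ℝ) :
    ((p : ℝ) - R.card) / R.card * ‖Sf α θ‖ ^ 2 ≤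
      ∑ a ∈ (range p).filter (fun a => a.Coprime p), ‖Sf α (a / p + θ)‖ ^ 2 := by
  have h1 := sum_shift_ge hα p hp.pos R hR θ
  have h2 : (range p).filter (fun a => a.Coprime p) = (range p).erase 0 := by
    ext a
    simp only [mem_filter, mem_range, mem_erase]
    constructor
    · rintro ⟨h3, h4⟩
      refine ⟨?_, h3⟩
      rintro rfl
      rw [Nat.coprime_zero_left] at h4
      exact hp.one_lt.ne' h4
    · rintro ⟨h3, h4⟩
      refine ⟨h4, ?_⟩
      rw [Nat.coprime_comm, hp.coprime_iff_not_dvd]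
      intro h5
      exact absurd (Nat.le_of_dvd (by omega) h5) (by omega)
  have h3 : ∑ a ∈ range p, ‖Sf α (a / p + θ)‖ ^ 2 =
      ‖Sf α θ‖ ^ 2 + ∑ a ∈ (range p).erase 0, ‖Sf α (a / p + θ)‖ ^ 2 := by
    rw [← Finset.add_sum_erase _ _ (mem_range.2 hp.pos)]
    simp
  rw [h2]
  have hc : (0 : ℝ) < R.card := by exact_mod_cast hR0
  rw [h3] at h1
  rw [div_mul_eq_mul_div, div_le_iff₀ hc]
  nlinarith


/-- splitting of the reduced fractions with denominator `p q` -/
theorem split_coprime {p q : ℕ} (hpq : p.Coprime q) (hp : 0 < p) (hq : 0 < q) (θ : ℝ) :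
    ∑ b ∈ (range q).filter (fun b => b.Coprime q), ∑ c ∈ (range p).filter (fun c => c.Coprime p),
      ‖Sf α (c / p + (b / q + θ))‖ ^ 2 ≤
    ∑ a ∈ (range (p * q)).filter (fun a => a.Coprime (p * q)), ‖Sf α (a / (p * q : ℕ) + θ)‖ ^ 2 := by
  classical
  have hpq0 : 0 < p * q := Nat.mul_pos hp hq
  have hp' : (p : ℝ) ≠ 0 := by positivity
  have hq' : (q : ℝ) ≠ 0 := by positivity
  rw [← Finset.sum_product']
  set S := ((range q).filter (fun b => b.Coprime q)) ×ˢ ((range p).filter (fun c => c.Coprime p))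
    with hS
  set f : ℕ × ℕ → ℕ := fun x => (x.1 * p + x.2 * q) % (p * q) with hf
  have hval : ∀ x : ℕ × ℕ, ‖Sf α (x.2 / p + (x.1 / q + θ))‖ ^ 2 =
      ‖Sf α (((f x : ℕ) : ℝ) / (p * q : ℕ) + θ)‖ ^ 2 := by
    intro x
    have h1 : ((x.1 * p + x.2 * q : ℕ) : ℝ) =
        ((p * q : ℕ) : ℝ) * (((x.1 * p + x.2 * q) / (p * q) : ℕ) : ℝ) + ((f x : ℕ) : ℝ) := by
      rw [hf]
      exact_mod_cast (Nat.div_add_mod (x.1 * p + x.2 * q) (p * q)).symm
    have h2 : (x.2 : ℝ) / p + (x.1 / q + θ) =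
        (((f x : ℕ) : ℝ) / (p * q : ℕ) + θ) + (((x.1 * p + x.2 * q) / (p * q) : ℕ) : ℝ) := by
      push_cast at h1 ⊢
      field_simp
      nlinarith [h1]
    rw [h2, Sf_add_nat]
  have hinj : Set.InjOn f S := by
    rintro ⟨b, c⟩ hx ⟨b', c'⟩ hy hxy
    simp only [hS, Finset.coe_product, Set.mem_prod, Finset.mem_coe, mem_filter, mem_range] at hx hy
    have h1 : b * p + c * q ≡ b' * p + c' * q [MOD p * q] := hxy
    have h2 : b * p ≡ b' * p [MOD q] := by
      have h3 := h1.of_dvd (Dvd.intro_left p rfl : q ∣ p * q)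
      have h4 : b * p + c * q ≡ b * p [MOD q] := by simp [Nat.ModEq]
      have h5 : b' * p + c' * q ≡ b' * p [MOD q] := by simp [Nat.ModEq]
      exact h4.symm.trans (h3.trans h5)
    have h3 : b ≡ b' [MOD q] := Nat.ModEq.cancel_right_of_coprime (by
      rw [Nat.gcd_comm]; exact hpq) h2
    have h4 : c * q ≡ c' * q [MOD p] := by
      have h3 := h1.of_dvd (Dvd.intro q rfl : p ∣ p * q)
      have h4 : b * p + c * q ≡ c * q [MOD p] := by simp [Nat.ModEq]
      have h5 : b' * p + c' * q ≡ c' * q [MOD p] := by simp [Nat.ModEq]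
      exact h4.symm.trans (h3.trans h5)
    have h5 : c ≡ c' [MOD p] := Nat.ModEq.cancel_right_of_coprime hpq h4
    have h6 : b = b' := Nat.ModEq.eq_of_lt_of_lt h3 hx.1.1 hy.1.1
    have h7 : c = c' := Nat.ModEq.eq_of_lt_of_lt h5 hx.2.1 hy.2.1
    rw [h6, h7]
  have hmaps : S.image f ⊆ (range (p * q)).filter (fun a => a.Coprime (p * q)) := by
    intro a ha
    obtain ⟨⟨b, c⟩, hx, rfl⟩ := Finset.mem_image.1 ha
    simp only [hS, Finset.mem_product, mem_filter, mem_range] at hx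
    rw [mem_filter, mem_range]
    refine ⟨Nat.mod_lt _ hpq0, ?_⟩
    have h1 : Nat.Coprime (b * p + c * q) (p * q) := by
      apply Nat.Coprime.mul_right
      · rw [Nat.coprime_mul_right_add_left]
        exact Nat.Coprime.mul_left hx.2.2 hpq.symm
      · rw [Nat.coprime_add_mul_right_left]
        exact Nat.Coprime.mul_left hx.1.2 hpq
    show Nat.Coprime ((b * p + c * q) % (p * q)) (p * q)
    unfold Nat.Coprime at h1 ⊢
    rw [← Nat.gcd_rec, Nat.gcd_comm]
    exact h1
  calc ∑ x ∈ S, ‖Sf α (x.2 / p + (x.1 / q + θ))‖ ^ 2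
      = ∑ x ∈ S, ‖Sf α (((f x : ℕ) : ℝ) / (p * q : ℕ) + θ)‖ ^ 2 :=
        Finset.sum_congr rfl fun x _ => hval x
    _ = ∑ a ∈ S.image f, ‖Sf α ((a : ℝ) / (p * q : ℕ) + θ)‖ ^ 2 := by
        rw [Finset.sum_image (f := fun a : ℕ => ‖Sf α ((a : ℝ) / (p * q : ℕ) + θ)‖ ^ 2) hinj]
    _ ≤ _ := Finset.sum_le_sum_of_subset_of_nonneg hmaps fun _ _ _ => by positivity

/-- Montgomery's inequality -/
theorem mont_sqf (hα : Summable fun n => ‖α n‖) (R : ℕ → Finset ℕ) :
    ∀ q : ℕ, Squarefree q → (∀ p ∈ q.primeFactors, (∀ n, α n ≠ 0 → n % p ∈ R p) ∧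
      0 < (R p).card ∧ (R p).card ≤ p) → ∀ θ : ℝ,
    (∏ p ∈ q.primeFactors, ((p : ℝ) - (R p).card) / (R p).card) * ‖Sf α θ‖ ^ 2 ≤
      ∑ a ∈ (range q).filter (fun a => a.Coprime q), ‖Sf α (a / q + θ)‖ ^ 2 := by
  intro q
  induction q using Nat.strong_induction_on with
  | _ q ih =>
    intro hq hR θ
    have hq0 : q ≠ 0 := hq.ne_zero
    rcases Nat.eq_or_lt_of_le (Nat.one_le_iff_ne_zero.2 hq0) with h1 | h1
    · subst h1
      have h2 : (range 1).filter (fun a => a.Coprime 1) = {0} := by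
        ext a
        simp
      rw [h2, Finset.sum_singleton]
      simp
    · obtain ⟨p, hpp, r, hr⟩ := Nat.exists_prime_and_dvd (by omega : q ≠ 1)
      have hr0 : r ≠ 0 := by
        rintro rfl
        rw [mul_zero] at hr
        exact hq0 hr
      have hrq : r < q := by
        rw [hr]
        have := hpp.two_le
        nlinarith [Nat.pos_of_ne_zero hr0]
      rw [hr] at hq
      have hcop : p.Coprime r := Nat.coprime_of_squarefree_mul hq
      have hsr : Squarefree r := hq.of_mul_right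
      have hpf : (p * r).primeFactors = insert p r.primeFactors := by
        rw [Nat.primeFactors_mul hpp.ne_zero hr0, hpp.primeFactors]
        rfl
      have hpn : p ∉ r.primeFactors := by
        intro h
        have := Nat.dvd_of_mem_primeFactors h
        rw [hpp.coprime_iff_not_dvd] at hcop
        exact hcop this
      have hRr : ∀ l ∈ r.primeFactors, (∀ n, α n ≠ 0 → n % l ∈ R l) ∧
          0 < (R l).card ∧ (R l).card ≤ l := fun l hl => hR l (by
        rw [hr, hpf]; exact mem_insert_of_mem hl)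
      have hRp := hR p (by rw [hr, hpf]; exact mem_insert_self _ _)
      have hg : (0 : ℝ) ≤ ((p : ℝ) - (R p).card) / (R p).card := by
        have h2 : ((R p).card : ℝ) ≤ p := by exact_mod_cast hRp.2.2
        exact div_nonneg (by linarith) (Nat.cast_nonneg _)
      rw [hr]
      refine le_trans ?_ (split_coprime hcop hpp.pos (Nat.pos_of_ne_zero hr0) θ)
      rw [hpf, Finset.prod_insert hpn, mul_assoc]
      refine (mul_le_mul_of_nonneg_left (ih r hrq hsr hRr θ) hg).trans ?_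
      rw [Finset.mul_sum]
      exact Finset.sum_le_sum fun b _ => mont_prime hα hpp (R p) hRp.1 hRp.2.1 _

end Pool.Agent.TH314.ET
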