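import Mathlib
import Pool.Agent.TH314.ET.Mont

/-!
# The large sieve for representation functions

For a finite set `F ⊆ [1, N]` which meets `ν p` residue classes modulo `p`, the additive energy
satisfies `|F|⁴ ∑_{q ≤ Q} μ²(q) ∏_{p ∣ q} ((p - ν p) / ν p)² / φ(q) ≤ 6 (2 N + Q²) ∑ r_F(n)²`.
-/

set_option autoImplicit false

open Finset

namespace Pool.Agent.TH314.ET

open Pool.Agent.Helper112

/-- indicator weights -/
noncomputable def ind (F : Finset ℕ) (n : ℕ) : ℂ := if n ∈ F then 1 else 0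

/-- the number of representations of `n` as an ordered sum of two elements of `F` -/
def rF (F : Finset ℕ) (n : ℕ) : ℕ := ((F ×ˢ F).filter (fun x => x.1 + x.2 = n)).card

theorem ind_summable (F : Finset ℕ) : Summable fun n => ‖ind F n‖ := by
  apply summable_of_ne_finset_zero (s := F)
  intro n hn
  simp [ind, hn]

theorem Sf_ind (F : Finset ℕ) (θ : ℝ) : Sf (ind F) θ = ∑ a ∈ F, ee (a * θ) := by
  unfold Sf
  rw [tsum_eq_sum (s := F)]
  · refine Finset.sum_congr rfl fun a ha => ?_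
    simp [ind, ha]
  · intro a ha
    simp [ind, ha]

theorem Sf_ind_zero (F : Finset ℕ) : Sf (ind F) 0 = (F.card : ℂ) := by
  rw [Sf_ind]
  simp [ls_ee_zero]

theorem Sf_ind_sq {F : Finset ℕ} {N : ℕ} (hF : F ⊆ Icc 1 N) (θ : ℝ) :
    Sf (ind F) θ ^ 2 = ∑ n ∈ Icc 1 (2 * N), (rF F n : ℂ) * ee (n * θ) := by
  rw [Sf_ind, sq, Finset.sum_mul_sum, ← Finset.sum_product']
  rw [← Finset.sum_fiberwise_of_maps_to (t := Icc 1 (2 * N)) (g := fun x : ℕ × ℕ => x.1 + x.2)]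
  · refine Finset.sum_congr rfl fun n _ => ?_
    have h1 : ∀ x ∈ (F ×ˢ F).filter (fun x : ℕ × ℕ => x.1 + x.2 = n),
        ee (x.1 * θ) * ee (x.2 * θ) = ee (n * θ) := by
      intro x hx
      rw [← ls_ee_add, ← add_mul]
      have := (mem_filter.1 hx).2
      rw [← this]
      push_cast
      rfl
    rw [Finset.sum_congr rfl h1, Finset.sum_const, nsmul_eq_mul]
    rfl
  · intro x hx
    rw [mem_product] at hx
    have h1 := mem_Icc.1 (hF hx.1)
    have h2 := mem_Icc.1 (hF hx.2)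
    rw [mem_Icc]
    show 1 ≤ x.1 + x.2 ∧ x.1 + x.2 ≤ 2 * N
    omega

/-- the fourth moment over the reduced fractions -/
theorem fourth_moment {F : Finset ℕ} {N : ℕ} (hF : F ⊆ Icc 1 N) (Q : ℕ) :
    ∑ q ∈ Icc 1 Q, ∑ a ∈ (range q).filter (fun a => a.Coprime q), ‖Sf (ind F) (a / q)‖ ^ 4 ≤
      6 * (2 * N + (Q : ℝ) ^ 2) * ∑ n ∈ Icc 1 (2 * N), (rF F n : ℝ) ^ 2 := by
  have h := additive_large_sieve (2 * N) Q (fun n => (rF F n : ℂ))
  push_cast at h
  have h1 : ∑ n ∈ Icc 1 (2 * N), ‖(rF F n : ℂ)‖ ^ 2 = ∑ n ∈ Icc 1 (2 * N), (rF F n : ℝ) ^ 2 := by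
    refine Finset.sum_congr rfl fun n _ => ?_
    rw [Complex.norm_natCast]
  rw [h1] at h
  refine le_trans (le_of_eq ?_) h
  refine Finset.sum_congr rfl fun q _ => Finset.sum_congr rfl fun a _ => ?_
  have h2 : ‖Sf (ind F) (a / q)‖ ^ 4 = ‖Sf (ind F) (a / q) ^ 2‖ ^ 2 := by
    rw [norm_pow, ← pow_mul]
  rw [h2, Sf_ind_sq hF]
  congr 2
  refine Finset.sum_congr rfl fun n _ => ?_
  rw [mul_div_assoc]

/-- number of occupied classes -/
def occ (F : Finset ℕ) (p : ℕ) : ℕ := (F.image (· % p)).card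

theorem occ_pos {F : Finset ℕ} (hF : F.Nonempty) (p : ℕ) : 0 < occ F p :=
  Finset.card_pos.2 (hF.image _)

theorem occ_le (F : Finset ℕ) {p : ℕ} (hp : 0 < p) : occ F p ≤ p := by
  have h : F.image (· % p) ⊆ range p := by
    intro x hx
    obtain ⟨a, _, rfl⟩ := mem_image.1 hx
    exact mem_range.2 (Nat.mod_lt _ hp)
  calc occ F p ≤ (range p).card := Finset.card_le_card h
    _ = p := card_range p

/-- the weight of the squarefree number `q` -/
noncomputable def wt (ν : ℕ → ℕ) (q : ℕ) : ℝ :=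
  (∏ p ∈ q.primeFactors, (((p : ℝ) - ν p) / ν p) ^ 2) / (Nat.totient q : ℝ)

theorem ne_zero_mem {F : Finset ℕ} {n : ℕ} (h : ind F n ≠ 0) : n ∈ F := by
  by_contra h1
  simp [ind, h1] at h

theorem card_coprime (q : ℕ) :
    ((range q).filter (fun a => a.Coprime q)).card = Nat.totient q := by
  rw [Nat.totient]
  congr 1
  ext a
  simp only [mem_filter, mem_range, Nat.coprime_comm]

/-- general weights: the fourth moment over the reduced fractions with squarefree denominator -/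
theorem fourth_lower {α : ℕ → ℂ} (hα : Summable fun n => ‖α n‖) (R : ℕ → Finset ℕ) {q : ℕ}
    (hq : Squarefree q) (hR : ∀ p ∈ q.primeFactors, (∀ n, α n ≠ 0 → n % p ∈ R p) ∧
      0 < (R p).card ∧ (R p).card ≤ p) :
    wt (fun p => (R p).card) q * ‖Sf α 0‖ ^ 4 ≤
      ∑ a ∈ (range q).filter (fun a => a.Coprime q), ‖Sf α (a / q)‖ ^ 4 := by
  have hq0 : 0 < q := Nat.pos_of_ne_zero hq.ne_zero
  have h1 := mont_sqf hα R q hq hR 0
  have h1' : (∏ p ∈ q.primeFactors, ((p : ℝ) - (R p).card) / (R p).card) * ‖Sf α 0‖ ^ 2 ≤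
      ∑ a ∈ (range q).filter (fun a => a.Coprime q), ‖Sf α (a / q)‖ ^ 2 := by
    refine h1.trans (le_of_eq (Finset.sum_congr rfl fun a _ => by rw [add_zero]))
  have h2 : (∑ a ∈ (range q).filter (fun a => a.Coprime q), ‖Sf α (a / q)‖ ^ 2) ^ 2 ≤
      (Nat.totient q : ℝ) *
        ∑ a ∈ (range q).filter (fun a => a.Coprime q), ‖Sf α (a / q)‖ ^ 4 := by
    have h3 := sq_sum_le_card_mul_sum_sq (s := (range q).filter (fun a => a.Coprime q))
      (f := fun a : ℕ => ‖Sf α (a / q)‖ ^ 2)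
    rw [card_coprime] at h3
    refine h3.trans (le_of_eq ?_)
    congr 1
    refine Finset.sum_congr rfl fun a _ => ?_
    rw [← pow_mul]
  have hφ : (0 : ℝ) < Nat.totient q := by exact_mod_cast Nat.totient_pos.2 hq0
  have hg : 0 ≤ ∏ p ∈ q.primeFactors, ((p : ℝ) - (R p).card) / (R p).card := by
    apply Finset.prod_nonneg
    intro p hp
    have h3 : ((R p).card : ℝ) ≤ p := by exact_mod_cast (hR p hp).2.2
    exact div_nonneg (by linarith) (Nat.cast_nonneg _)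
  have h4 : ((∏ p ∈ q.primeFactors, ((p : ℝ) - (R p).card) / (R p).card) * ‖Sf α 0‖ ^ 2) ^ 2 ≤
      (Nat.totient q : ℝ) *
        ∑ a ∈ (range q).filter (fun a => a.Coprime q), ‖Sf α (a / q)‖ ^ 4 :=
    (pow_le_pow_left₀ (by positivity) h1' 2).trans h2
  unfold wt
  rw [div_mul_eq_mul_div, div_le_iff₀ hφ, Finset.prod_pow]
  calc (∏ p ∈ q.primeFactors, ((p : ℝ) - (R p).card) / (R p).card) ^ 2 * ‖Sf α 0‖ ^ 4
      = ((∏ p ∈ q.primeFactors, ((p : ℝ) - (R p).card) / (R p).card) * ‖Sf α 0‖ ^ 2) ^ 2 := by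
        rw [mul_pow, ← pow_mul]
    _ ≤ _ := h4
    _ = _ := by ring

/-- **Additive energy of sets in few residue classes.** -/
theorem energy_lower {F : Finset ℕ} {N : ℕ} (hF : F ⊆ Icc 1 N) (Q : ℕ) :
    (F.card : ℝ) ^ 4 * ∑ q ∈ (Icc 1 Q).filter Squarefree, wt (occ F) q ≤
      6 * (2 * N + (Q : ℝ) ^ 2) * ∑ n ∈ Icc 1 (2 * N), (rF F n : ℝ) ^ 2 := by
  rcases F.eq_empty_or_nonempty with h0 | h0
  · subst h0
    simp only [Finset.card_empty, Nat.cast_zero, ne_eq, OfNat.ofNat_ne_zero, not_false_eq_true,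
      zero_pow, zero_mul]
    positivity
  refine le_trans ?_ (fourth_moment hF Q)
  rw [Finset.mul_sum]
  have h1 : ∑ q ∈ (Icc 1 Q).filter Squarefree,
      ∑ a ∈ (range q).filter (fun a => a.Coprime q), ‖Sf (ind F) (a / q)‖ ^ 4 ≤
      ∑ q ∈ Icc 1 Q, ∑ a ∈ (range q).filter (fun a => a.Coprime q), ‖Sf (ind F) (a / q)‖ ^ 4 :=
    Finset.sum_le_sum_of_subset_of_nonneg (Finset.filter_subset _ _) fun _ _ _ => by positivity
  refine le_trans (Finset.sum_le_sum fun q hq => ?_) h1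
  have hq' := (mem_filter.1 hq).2
  have h2 := fourth_lower (ind_summable F) (fun p => F.image (· % p)) hq' (by
    intro p hp
    have hp0 : 0 < p := (Nat.prime_of_mem_primeFactors hp).pos
    exact ⟨fun n hn => mem_image_of_mem _ (ne_zero_mem hn), occ_pos h0 p, occ_le F hp0⟩)
  rw [Sf_ind_zero, Complex.norm_natCast, mul_comm] at h2
  exact h2

theorem sum_rF {F : Finset ℕ} {N : ℕ} (hF : F ⊆ Icc 1 N) :
    ∑ n ∈ Icc 1 (2 * N), (rF F n : ℝ) = (F.card : ℝ) ^ 2 := by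
  have h : ∑ n ∈ Icc 1 (2 * N), rF F n = (F ×ˢ F).card := by
    unfold rF
    rw [Finset.card_eq_sum_card_fiberwise (f := fun x : ℕ × ℕ => x.1 + x.2) (t := Icc 1 (2 * N))]
    intro x hx
    rw [Finset.mem_coe, mem_product] at hx
    have h1 := mem_Icc.1 (hF hx.1)
    have h2 := mem_Icc.1 (hF hx.2)
    rw [Finset.mem_coe, mem_Icc]
    show 1 ≤ x.1 + x.2 ∧ x.1 + x.2 ≤ 2 * N
    omega
  rw [card_product] at h
  rw [sq]
  exact_mod_cast h

/-- if all representation numbers are at most `K` -/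
theorem bounded_upper {F : Finset ℕ} {N K : ℕ} (hF : F ⊆ Icc 1 N) (hK : ∀ n, rF F n ≤ K) (Q : ℕ) :
    (F.card : ℝ) ^ 2 * ∑ q ∈ (Icc 1 Q).filter Squarefree, wt (occ F) q ≤
      6 * (2 * N + (Q : ℝ) ^ 2) * K := by
  rcases F.eq_empty_or_nonempty with h0 | h0
  · subst h0
    simp only [Finset.card_empty, Nat.cast_zero, ne_eq, OfNat.ofNat_ne_zero, not_false_eq_true,
      zero_pow, zero_mul]
    positivity
  have h1 := energy_lower hF Q
  have h2 : ∑ n ∈ Icc 1 (2 * N), (rF F n : ℝ) ^ 2 ≤ K * (F.card : ℝ) ^ 2 := by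
    rw [← sum_rF hF, Finset.mul_sum]
    refine Finset.sum_le_sum fun n _ => ?_
    have : (rF F n : ℝ) ≤ K := by exact_mod_cast hK n
    rw [sq]
    exact mul_le_mul_of_nonneg_right this (Nat.cast_nonneg _)
  have hc : (0 : ℝ) < (F.card : ℝ) ^ 2 := by
    have : (0 : ℝ) < F.card := by exact_mod_cast Finset.card_pos.2 h0
    positivity
  have h3 : (F.card : ℝ) ^ 2 * ((F.card : ℝ) ^ 2 * ∑ q ∈ (Icc 1 Q).filter Squarefree, wt (occ F) q)
      ≤ (F.card : ℝ) ^ 2 * (6 * (2 * N + (Q : ℝ) ^ 2) * K) := by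
    calc (F.card : ℝ) ^ 2 * ((F.card : ℝ) ^ 2 * ∑ q ∈ (Icc 1 Q).filter Squarefree, wt (occ F) q)
        = (F.card : ℝ) ^ 4 * ∑ q ∈ (Icc 1 Q).filter Squarefree, wt (occ F) q := by ring
      _ ≤ _ := h1
      _ ≤ 6 * (2 * N + (Q : ℝ) ^ 2) * (K * (F.card : ℝ) ^ 2) :=
          mul_le_mul_of_nonneg_left h2 (by positivity)
      _ = _ := by ring
  exact le_of_mul_le_mul_left h3 hc

end Pool.Agent.TH314.ET
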