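import Mathlib
import Pool.Agent.TH314.ET.Energy

/-!
# Thin residue systems

If infinitely many moduli `q` are such that `A` meets at most `T √q` residue classes modulo `q`,
then the normalised fourth moments of the exponential sums of the finite parts of `A` over suitable
finite sets of frequencies are as large as we like.
-/

set_option autoImplicit false

open Finset

namespace Pool.Agent.TH314.ET

open Pool.Agent.Helper112

/-- the large sieve for a fixed finite set of frequencies in `[0, 1)` -/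
theorem fourth_moment_fixed (R : Finset ℝ) (hR : ∀ x ∈ R, 0 ≤ x ∧ x < 1) :
    ∃ D : ℕ, ∀ (N : ℕ) (F : Finset ℕ), F ⊆ Icc 1 N →
      ∑ x ∈ R, ‖Sf (ind F) x‖ ^ 4 ≤
        6 * (2 * N + (D : ℝ)) * ∑ n ∈ Icc 1 (2 * N), (rF F n : ℝ) ^ 2 := by
  classical
  -- a separation constant
  have hsep : ∃ D : ℕ, 1 ≤ D ∧ ∀ r ∈ R, ∀ s ∈ R, r ≠ s → lsSep D (s - r) := by
    have h1 : ∀ x : ℝ × ℝ, ∃ D : ℕ, 1 ≤ D ∧ (x.1 ∈ R → x.2 ∈ R → x.1 ≠ x.2 →
        ∀ E : ℕ, D ≤ E → lsSep E (x.2 - x.1)) := by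
      rintro ⟨r, s⟩
      by_cases h : r ∈ R ∧ s ∈ R ∧ r ≠ s
      · obtain ⟨hr, hs, hne⟩ := h
        have hf0 : 0 < Int.fract (s - r) := by
          rw [Int.fract_pos]
          intro h2
          obtain ⟨h3, h4⟩ := hR r hr
          obtain ⟨h5, h6⟩ := hR s hs
          have h7 : |s - r| < 1 := by rw [abs_lt]; constructor <;> linarith
          rw [h2] at h7
          have h8 : |⌊s - r⌋| < 1 := by exact_mod_cast h7
          rw [Int.abs_lt_one_iff] at h8
          rw [h8, Int.cast_zero] at h2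
          exact hne (by linarith)
        have hf1 : Int.fract (s - r) < 1 := Int.fract_lt_one _
        set δ := min (Int.fract (s - r)) (1 - Int.fract (s - r)) with hδ
        have hδ0 : 0 < δ := lt_min hf0 (by linarith)
        obtain ⟨D, hD⟩ := exists_nat_gt (1 / δ)
        refine ⟨D + 1, by omega, fun _ _ _ E hE => ?_⟩
        have hE' : (D : ℝ) + 1 ≤ E := by exact_mod_cast hE
        have hE0 : (0 : ℝ) < E := by
          have : (0 : ℝ) ≤ D := Nat.cast_nonneg _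
          linarith
        have h2 : 1 / (E : ℝ) ≤ δ := by
          rw [div_le_iff₀ hE0]
          rw [div_lt_iff₀ hδ0] at hD
          nlinarith
        unfold lsSep
        constructor
        · exact h2.trans (min_le_left _ _)
        · have := h2.trans (min_le_right (Int.fract (s - r)) (1 - Int.fract (s - r)))
          linarith
      · refine ⟨1, le_refl _, fun hr hs hne => ?_⟩
        exact absurd ⟨hr, hs, hne⟩ h
    choose D hD using h1
    refine ⟨(∑ x ∈ R ×ˢ R, D x) + 1, by omega, fun r hr s hs hne => ?_⟩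
    refine (hD (r, s)).2 hr hs hne _ ?_
    have h2 : D (r, s) ≤ ∑ x ∈ R ×ˢ R, D x :=
      Finset.single_le_sum (f := D) (fun _ _ => Nat.zero_le _) (mem_product.2 ⟨hr, hs⟩)
    omega
  obtain ⟨D, hD1, hD⟩ := hsep
  refine ⟨D, fun N F hF => ?_⟩
  have h := ls_general R (fun x : ℝ => x) D (2 * N) hD1 hD (fun n => (rF F n : ℂ))
  push_cast at h
  have h1 : ∑ n ∈ Icc 1 (2 * N), ‖(rF F n : ℂ)‖ ^ 2 = ∑ n ∈ Icc 1 (2 * N), (rF F n : ℝ) ^ 2 := by
    refine Finset.sum_congr rfl fun n _ => ?_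
    rw [Complex.norm_natCast]
  rw [h1] at h
  refine le_trans (le_of_eq ?_) h
  refine Finset.sum_congr rfl fun x _ => ?_
  have h2 : ‖Sf (ind F) x‖ ^ 4 = ‖Sf (ind F) x ^ 2‖ ^ 2 := by
    rw [norm_pow, ← pow_mul]
  rw [h2, Sf_ind_sq hF]

theorem norm_Sf_ind_le (F : Finset ℕ) (x : ℝ) : ‖Sf (ind F) x‖ ≤ F.card := by
  rw [Sf_ind]
  refine (norm_sum_le _ _).trans ?_
  simp [ls_norm_ee]

/-- one step: a thin modulus which is large compared with the number of old frequencies -/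
theorem thin_step (A : Set ℕ) (T : ℝ) (hT : 0 < T) (R : Finset ℝ) {q : ℕ} (hq : 0 < q)
    (C : Finset ℕ) (hC : ∀ a ∈ A, a % q ∈ C) (hC0 : 0 < C.card)
    (hthin : (C.card : ℝ) ≤ T * Real.sqrt q) (hlarge : 2 * T * R.card ≤ Real.sqrt q)
    (F : Finset ℕ) (hF : ∀ a ∈ F, a ∈ A) :
    (F.card : ℝ) ^ 4 / (4 * T ^ 2) ≤
      ∑ x ∈ ((range q).image (fun a : ℕ => (a : ℝ) / q)) \ R, ‖Sf (ind F) x‖ ^ 4 := by
  classical
  set P := (range q).image (fun a : ℕ => (a : ℝ) / q) with hP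
  have hq' : (0 : ℝ) < q := by exact_mod_cast hq
  have hsq : 0 < Real.sqrt q := Real.sqrt_pos.2 hq'
  have hsq2 : Real.sqrt q * Real.sqrt q = q := Real.mul_self_sqrt hq'.le
  have hinj : Set.InjOn (fun a : ℕ => (a : ℝ) / q) (range q : Finset ℕ) := by
    intro a _ b _ hab
    have : (a : ℝ) = b := by
      have h := hab
      simp only at h
      field_simp at h
      exact h
    exact_mod_cast this
  have hPc : (P.card : ℝ) ≤ q := by
    have : P.card ≤ (range q).card := Finset.card_image_le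
    rw [card_range] at this
    exact_mod_cast this
  have h1 := sum_shift_ge (ind_summable F) q hq C
    (fun n hn => hC n (hF n (ne_zero_mem hn))) 0
  rw [Sf_ind_zero, Complex.norm_natCast] at h1
  have h2 : ∑ a ∈ range q, ‖Sf (ind F) (a / q + 0)‖ ^ 2 = ∑ x ∈ P, ‖Sf (ind F) x‖ ^ 2 := by
    rw [hP, Finset.sum_image hinj]
    exact Finset.sum_congr rfl fun a _ => by rw [add_zero]
  rw [h2] at h1
  set f : ℝ := (F.card : ℝ) with hf
  have hf0 : 0 ≤ f := Nat.cast_nonneg _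
  have hCr : (0 : ℝ) < C.card := by exact_mod_cast hC0
  -- the whole sum
  have h3 : Real.sqrt q / T * f ^ 2 ≤ ∑ x ∈ P, ‖Sf (ind F) x‖ ^ 2 := by
    have h4 : (q : ℝ) * f ^ 2 ≤ (T * Real.sqrt q) * ∑ x ∈ P, ‖Sf (ind F) x‖ ^ 2 :=
      h1.trans (mul_le_mul_of_nonneg_right hthin (Finset.sum_nonneg fun _ _ => by positivity))
    rw [div_mul_eq_mul_div, div_le_iff₀ hT]
    have h5 : Real.sqrt q * (Real.sqrt q * f ^ 2) ≤
        Real.sqrt q * ((∑ x ∈ P, ‖Sf (ind F) x‖ ^ 2) * T) := by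
      calc Real.sqrt q * (Real.sqrt q * f ^ 2) = (Real.sqrt q * Real.sqrt q) * f ^ 2 := by ring
        _ = q * f ^ 2 := by rw [hsq2]
        _ ≤ _ := h4
        _ = _ := by ring
    exact le_of_mul_le_mul_left h5 hsq
  -- the old frequencies
  have h4 : ∑ x ∈ P ∩ R, ‖Sf (ind F) x‖ ^ 2 ≤ R.card * f ^ 2 := by
    calc ∑ x ∈ P ∩ R, ‖Sf (ind F) x‖ ^ 2 ≤ ∑ x ∈ P ∩ R, f ^ 2 :=
          Finset.sum_le_sum fun x _ => pow_le_pow_left₀ (norm_nonneg _) (norm_Sf_ind_le F x) 2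
      _ = ((P ∩ R).card : ℝ) * f ^ 2 := by rw [Finset.sum_const, nsmul_eq_mul]
      _ ≤ _ := by
          have : ((P ∩ R).card : ℝ) ≤ R.card := by
            exact_mod_cast Finset.card_le_card Finset.inter_subset_right
          exact mul_le_mul_of_nonneg_right this (by positivity)
  have h5 : ∑ x ∈ P, ‖Sf (ind F) x‖ ^ 2 =
      ∑ x ∈ P ∩ R, ‖Sf (ind F) x‖ ^ 2 + ∑ x ∈ P \ R, ‖Sf (ind F) x‖ ^ 2 :=
    (Finset.sum_inter_add_sum_sdiff P R _).symm
  have h6 : Real.sqrt q / (2 * T) * f ^ 2 ≤ ∑ x ∈ P \ R, ‖Sf (ind F) x‖ ^ 2 := by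
    have h7 : (R.card : ℝ) ≤ Real.sqrt q / (2 * T) := by
      rw [le_div_iff₀ (by positivity)]
      linarith
    have h8 : Real.sqrt q / T = Real.sqrt q / (2 * T) + Real.sqrt q / (2 * T) := by
      field_simp
      norm_num
    have h9 : (R.card : ℝ) * f ^ 2 ≤ Real.sqrt q / (2 * T) * f ^ 2 :=
      mul_le_mul_of_nonneg_right h7 (by positivity)
    rw [h8, add_mul] at h3
    linarith
  have h7 : (∑ x ∈ P \ R, ‖Sf (ind F) x‖ ^ 2) ^ 2 ≤ q * ∑ x ∈ P \ R, ‖Sf (ind F) x‖ ^ 4 := by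
    have h8 := sq_sum_le_card_mul_sum_sq (s := P \ R) (f := fun x : ℝ => ‖Sf (ind F) x‖ ^ 2)
    have h9 : ((P \ R).card : ℝ) ≤ q := by
      have : ((P \ R).card : ℝ) ≤ P.card := by
        exact_mod_cast Finset.card_le_card Finset.sdiff_subset
      linarith
    have h10 : ∑ x ∈ P \ R, (‖Sf (ind F) x‖ ^ 2) ^ 2 = ∑ x ∈ P \ R, ‖Sf (ind F) x‖ ^ 4 :=
      Finset.sum_congr rfl fun x _ => by rw [← pow_mul]
    rw [h10] at h8
    exact h8.trans (mul_le_mul_of_nonneg_right h9 (Finset.sum_nonneg fun _ _ => by positivity))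
  have h8 : (Real.sqrt q / (2 * T) * f ^ 2) ^ 2 ≤ (∑ x ∈ P \ R, ‖Sf (ind F) x‖ ^ 2) ^ 2 :=
    pow_le_pow_left₀ (by positivity) h6 2
  have h9 : (Real.sqrt q / (2 * T) * f ^ 2) ^ 2 = q * (f ^ 4 / (4 * T ^ 2)) := by
    have : Real.sqrt q ^ 2 = q := Real.sq_sqrt hq'.le
    calc (Real.sqrt q / (2 * T) * f ^ 2) ^ 2 = Real.sqrt q ^ 2 * (f ^ 4 / (4 * T ^ 2)) := by
          field_simp
          ring
      _ = _ := by rw [this]
  rw [h9] at h8
  exact le_of_mul_le_mul_left (h8.trans h7) hq'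

/-- the number of residue classes modulo `q` which meet `A` -/
noncomputable def res (A : Set ℕ) (q : ℕ) : ℕ := ((fun a => a % q) '' A).ncard

theorem res_finite (A : Set ℕ) {q : ℕ} (hq : 0 < q) : ((fun a => a % q) '' A).Finite := by
  refine (Set.finite_Iio q).subset ?_
  rintro _ ⟨a, _, rfl⟩
  exact Nat.mod_lt a hq

/-- infinitely many thin moduli: the fourth moments are large -/
theorem thin_moment (A : Set ℕ) (hA : A.Nonempty) (T : ℝ) (hT : 0 < T)
    (hthin : ∀ Q : ℕ, ∃ q, Q ≤ q ∧ (res A q : ℝ) ≤ T * Real.sqrt q) (m : ℕ) :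
    ∃ R : Finset ℝ, (∀ x ∈ R, 0 ≤ x ∧ x < 1) ∧ ∀ F : Finset ℕ, (∀ a ∈ F, a ∈ A) →
      m * ((F.card : ℝ) ^ 4 / (4 * T ^ 2)) ≤ ∑ x ∈ R, ‖Sf (ind F) x‖ ^ 4 := by
  classical
  induction m with
  | zero => exact ⟨∅, by simp, fun F _ => by simp⟩
  | succ m ih =>
    obtain ⟨R, hR, hRF⟩ := ih
    obtain ⟨Q, hQ⟩ := exists_nat_gt ((2 * T * R.card) ^ 2)
    obtain ⟨q, hqQ, hq⟩ := hthin (Q + 1)
    have hq0 : 0 < q := by omega
    have hq' : (0 : ℝ) < q := by exact_mod_cast hq0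
    have hlarge : 2 * T * R.card ≤ Real.sqrt q := by
      apply Real.le_sqrt_of_sq_le
      have : (Q : ℝ) ≤ q := by exact_mod_cast (by omega : Q ≤ q)
      linarith
    have hfin := res_finite A hq0
    have hcard : hfin.toFinset.card = res A q := (Set.ncard_eq_toFinset_card _ hfin).symm
    have hpos : 0 < hfin.toFinset.card := by
      rw [Finset.card_pos]
      obtain ⟨a, ha⟩ := hA
      exact ⟨a % q, hfin.mem_toFinset.2 ⟨a, ha, rfl⟩⟩
    refine ⟨R ∪ (((range q).image (fun a : ℕ => (a : ℝ) / q)) \ R), ?_, fun F hF => ?_⟩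
    · intro x hx
      rcases Finset.mem_union.1 hx with h | h
      · exact hR x h
      · obtain ⟨a, ha, rfl⟩ := Finset.mem_image.1 (Finset.mem_sdiff.1 h).1
        have ha' : (a : ℝ) < q := by exact_mod_cast mem_range.1 ha
        exact ⟨by positivity, by rw [div_lt_one hq']; exact ha'⟩
    · rw [Finset.sum_union Finset.disjoint_sdiff]
      have h1 := thin_step A T hT R hq0 hfin.toFinset
        (fun a ha => hfin.mem_toFinset.2 ⟨a, ha, rfl⟩) hpos (by rw [hcard]; exact hq) hlarge F hF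
      have h2 := hRF F hF
      push_cast
      linarith

end Pool.Agent.TH314.ET
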