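import Mathlib
import Pool.Agent.TH314.ET.Thin

/-!
# The product formula

For a set `A` of natural numbers with `r_A(n) ≤ K` for all large `n`, with Abel mean of `r_A` at
least `m` along a sequence, and occupying `ν p` residue classes modulo `p`:
`m ∏_{p ∈ P} (1 + ((p - ν p) / ν p)² / (p - 1)) ≤ K` for every finite set `P` of primes.
-/

set_option autoImplicit false

open Finset Filter Topology

namespace Pool.Agent.TH314.ET

open Pool.Agent.Helper112

variable {α : ℕ → ℂ}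

/-- splitting of all fractions with denominator `p q` -/
theorem split_all {p q : ℕ} (hpq : p.Coprime q) (hp : 0 < p) (hq : 0 < q) (θ : ℝ) :
    ∑ b ∈ range q, ∑ c ∈ range p, ‖Sf α (c / p + (b / q + θ))‖ ^ 4 ≤
    ∑ a ∈ range (p * q), ‖Sf α (a / (p * q : ℕ) + θ)‖ ^ 4 := by
  classical
  have hpq0 : 0 < p * q := Nat.mul_pos hp hq
  have hp' : (p : ℝ) ≠ 0 := by positivity
  have hq' : (q : ℝ) ≠ 0 := by positivity
  rw [← Finset.sum_product']
  set S := (range q) ×ˢ (range p) with hS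
  set f : ℕ × ℕ → ℕ := fun x => (x.1 * p + x.2 * q) % (p * q) with hf
  have hval : ∀ x : ℕ × ℕ, ‖Sf α (x.2 / p + (x.1 / q + θ))‖ ^ 4 =
      ‖Sf α (((f x : ℕ) : ℝ) / (p * q : ℕ) + θ)‖ ^ 4 := by
    intro x
    have h1 : ((x.1 * p + x.2 * q : ℕ) : ℝ) =
        ((p * q : ℕ) : ℝ) * (((x.1 * p + x.2 * q) / (p * q) : ℕ) : ℝ) + ((f x : ℕ) : ℝ) := by
      rw [hf]
      exact_mod_cast (Nat.div_add_mod (x.1 * p + x.2 * q) (p * q)).symm
    have h2 : (x.2 : ℝ) / p + (x.1 / q + θ) =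
        (((f x : ℕ) : ℝ) / (p * q : ℕ) + θ) + (((x.1 * p + x.2 * q) / (p * q) : ℕ) : ℝ) := by
      push_cast at h1 ⊢
      field_simp
      nlinarith [h1]
    rw [h2, Sf_add_nat]
  have hinj : Set.InjOn f S := by
    rintro ⟨b, c⟩ hx ⟨b', c'⟩ hy hxy
    simp only [hS, Finset.coe_product, Set.mem_prod, Finset.mem_coe, mem_range] at hx hy
    have h1 : b * p + c * q ≡ b' * p + c' * q [MOD p * q] := hxy
    have h2 : b * p ≡ b' * p [MOD q] := by
      have h3 := h1.of_dvd (Dvd.intro_left p rfl : q ∣ p * q)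
      have h4 : b * p + c * q ≡ b * p [MOD q] := by simp [Nat.ModEq]
      have h5 : b' * p + c' * q ≡ b' * p [MOD q] := by simp [Nat.ModEq]
      exact h4.symm.trans (h3.trans h5)
    have h3 : b ≡ b' [MOD q] := Nat.ModEq.cancel_right_of_coprime (by
      rw [Nat.gcd_comm]; exact hpq) h2
    have h4 : c * q ≡ c' * q [MOD p] := by
      have h3 := h1.of_dvd (Dvd.intro q rfl : p ∣ p * q)
      have h4 : b * p + c * q ≡ c * q [MOD p] := by simp [Nat.ModEq]
      have h5 : b' * p + c' * q ≡ c' * q [MOD p] := by simp [Nat.ModEq]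
      exact h4.symm.trans (h3.trans h5)
    have h5 : c ≡ c' [MOD p] := Nat.ModEq.cancel_right_of_coprime hpq h4
    have h6 : b = b' := Nat.ModEq.eq_of_lt_of_lt h3 hx.1 hy.1
    have h7 : c = c' := Nat.ModEq.eq_of_lt_of_lt h5 hx.2 hy.2
    rw [h6, h7]
  have hmaps : S.image f ⊆ range (p * q) := by
    intro a ha
    obtain ⟨⟨b, c⟩, hx, rfl⟩ := Finset.mem_image.1 ha
    rw [mem_range]
    exact Nat.mod_lt _ hpq0
  calc ∑ x ∈ S, ‖Sf α (x.2 / p + (x.1 / q + θ))‖ ^ 4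
      = ∑ x ∈ S, ‖Sf α (((f x : ℕ) : ℝ) / (p * q : ℕ) + θ)‖ ^ 4 :=
        Finset.sum_congr rfl fun x _ => hval x
    _ = ∑ a ∈ S.image f, ‖Sf α ((a : ℝ) / (p * q : ℕ) + θ)‖ ^ 4 := by
        rw [Finset.sum_image (f := fun a : ℕ => ‖Sf α ((a : ℝ) / (p * q : ℕ) + θ)‖ ^ 4) hinj]
    _ ≤ _ := Finset.sum_le_sum_of_subset_of_nonneg hmaps fun _ _ _ => by positivity

/-- one prime -/
theorem four_prime (hα : Summable fun n => ‖α n‖) {p : ℕ} (hp : p.Prime) (R : Finset ℕ)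
    (hR : ∀ n, α n ≠ 0 → n % p ∈ R) (hR0 : 0 < R.card) (hRp : R.card ≤ p) (θ : ℝ) :
    (1 + (((p : ℝ) - R.card) / R.card) ^ 2 / (p - 1)) * ‖Sf α θ‖ ^ 4 ≤
      ∑ a ∈ range p, ‖Sf α (a / p + θ)‖ ^ 4 := by
  have h1 := mont_prime hα hp R hR hR0 θ
  have h2 : (range p).filter (fun a => a.Coprime p) = (range p).erase 0 := by
    ext a
    simp only [mem_filter, mem_range, mem_erase]
    constructor
    · rintro ⟨h3, h4⟩
      refine ⟨?_, h3⟩
      rintro rfl
      rw [Nat.coprime_zero_left] at h4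
      exact hp.one_lt.ne' h4
    · rintro ⟨h3, h4⟩
      refine ⟨h4, ?_⟩
      rw [Nat.coprime_comm, hp.coprime_iff_not_dvd]
      intro h5
      exact absurd (Nat.le_of_dvd (by omega) h5) (by omega)
  rw [h2] at h1
  have h3 : ∑ a ∈ range p, ‖Sf α (a / p + θ)‖ ^ 4 =
      ‖Sf α θ‖ ^ 4 + ∑ a ∈ (range p).erase 0, ‖Sf α (a / p + θ)‖ ^ 4 := by
    rw [← Finset.add_sum_erase _ _ (mem_range.2 hp.pos)]
    simp
  have hp1 : (0 : ℝ) < (p : ℝ) - 1 := by
    have : (1 : ℝ) < p := by exact_mod_cast hp.one_lt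
    linarith
  have hg : 0 ≤ ((p : ℝ) - R.card) / R.card := by
    have : ((R.card : ℕ) : ℝ) ≤ p := by exact_mod_cast hRp
    exact div_nonneg (by linarith) (Nat.cast_nonneg _)
  have h4 : (∑ a ∈ (range p).erase 0, ‖Sf α (a / p + θ)‖ ^ 2) ^ 2 ≤
      ((p : ℝ) - 1) * ∑ a ∈ (range p).erase 0, ‖Sf α (a / p + θ)‖ ^ 4 := by
    have h5 := sq_sum_le_card_mul_sum_sq (s := (range p).erase 0)
      (f := fun a : ℕ => ‖Sf α (a / p + θ)‖ ^ 2)
    have h6 : (((range p).erase 0).card : ℝ) = (p : ℝ) - 1 := by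
      rw [Finset.card_erase_of_mem (mem_range.2 hp.pos), card_range,
        Nat.cast_sub hp.one_lt.le, Nat.cast_one]
    rw [h6] at h5
    refine h5.trans (le_of_eq ?_)
    congr 1
    exact Finset.sum_congr rfl fun a _ => by rw [← pow_mul]
  have h5 : ((((p : ℝ) - R.card) / R.card) * ‖Sf α θ‖ ^ 2) ^ 2 ≤
      ((p : ℝ) - 1) * ∑ a ∈ (range p).erase 0, ‖Sf α (a / p + θ)‖ ^ 4 :=
    (pow_le_pow_left₀ (by positivity) h1 2).trans h4
  rw [h3, add_mul, one_mul]
  have h6 : (((p : ℝ) - R.card) / R.card) ^ 2 / (p - 1) * ‖Sf α θ‖ ^ 4 ≤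
      ∑ a ∈ (range p).erase 0, ‖Sf α (a / p + θ)‖ ^ 4 := by
    rw [div_mul_eq_mul_div, div_le_iff₀ hp1]
    calc (((p : ℝ) - R.card) / R.card) ^ 2 * ‖Sf α θ‖ ^ 4 =
        ((((p : ℝ) - R.card) / R.card) * ‖Sf α θ‖ ^ 2) ^ 2 := by rw [mul_pow, ← pow_mul]
      _ ≤ _ := h5
      _ = _ := by ring
  linarith

/-- all fractions with denominator a product of distinct primes -/
theorem four_prod (hα : Summable fun n => ‖α n‖) (R : ℕ → Finset ℕ) (P : Finset ℕ) :
    (∀ p ∈ P, p.Prime ∧ (∀ n, α n ≠ 0 → n % p ∈ R p) ∧ 0 < (R p).card ∧ (R p).card ≤ p) →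
    ∀ θ : ℝ, (∏ p ∈ P, (1 + (((p : ℝ) - (R p).card) / (R p).card) ^ 2 / (p - 1))) *
      ‖Sf α θ‖ ^ 4 ≤ ∑ a ∈ range (∏ p ∈ P, p), ‖Sf α (a / (∏ p ∈ P, p : ℕ) + θ)‖ ^ 4 := by
  classical
  induction P using Finset.induction_on with
  | empty =>
    intro _ θ
    simp
  | insert p P hp ih =>
    intro hR θ
    have hRP : ∀ l ∈ P, l.Prime ∧ (∀ n, α n ≠ 0 → n % l ∈ R l) ∧ 0 < (R l).card ∧
        (R l).card ≤ l := fun l hl => hR l (mem_insert_of_mem hl)
    obtain ⟨hpp, hRp, hRp0, hRpp⟩ := hR p (mem_insert_self _ _)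
    set q := ∏ l ∈ P, l with hq
    have hq0 : 0 < q := Finset.prod_pos fun l hl => (hRP l hl).1.pos
    have hcop : p.Coprime q := by
      apply Nat.Coprime.prod_right
      intro l hl
      rw [Nat.coprime_primes hpp (hRP l hl).1]
      rintro rfl
      exact hp hl
    rw [Finset.prod_insert hp, Finset.prod_insert hp, mul_assoc]
    have hg : 0 ≤ 1 + (((p : ℝ) - (R p).card) / (R p).card) ^ 2 / (p - 1) := by
      have : (1 : ℝ) < p := by exact_mod_cast hpp.one_lt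
      have h2 : 0 ≤ (((p : ℝ) - (R p).card) / (R p).card) ^ 2 / (p - 1) :=
        div_nonneg (by positivity) (by linarith)
      linarith
    refine le_trans ?_ (split_all hcop hpp.pos hq0 θ)
    refine (mul_le_mul_of_nonneg_left (ih hRP θ) hg).trans ?_
    rw [Finset.mul_sum]
    exact Finset.sum_le_sum fun b _ => four_prime hα hpp (R p) hRp hRp0 hRpp _

/-! ### The generating function of a set -/

/-- the number of ordered representations -/
noncomputable def rep (A : Set ℕ) (n : ℕ) : ℕ :=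
  Set.ncard {p : ℕ × ℕ | p.1 ∈ A ∧ p.2 ∈ A ∧ p.1 + p.2 = n}

open Classical in
theorem rep_eq (A : Set ℕ) (n : ℕ) :
    rep A n = ((antidiagonal n).filter (fun p => p.1 ∈ A ∧ p.2 ∈ A)).card := by
  rw [rep, ← Set.ncard_coe_finset]
  congr 1
  ext p
  simp only [Set.mem_ofPred_eq, coe_filter, HasAntidiagonal.mem_antidiagonal]
  tauto

open Classical in
/-- Abel weights -/
noncomputable def abw (A : Set ℕ) (ρ : ℝ) (n : ℕ) : ℂ := if n ∈ A then ((ρ ^ n : ℝ) : ℂ) else 0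

open Classical in
/-- the generating function at a real argument -/
noncomputable def gf (A : Set ℕ) (ρ : ℝ) : ℝ := ∑' n : ℕ, if n ∈ A then ρ ^ n else 0

theorem abw_norm_le (A : Set ℕ) {ρ : ℝ} (h0 : 0 ≤ ρ) (n : ℕ) : ‖abw A ρ n‖ ≤ ρ ^ n := by
  unfold abw
  split_ifs
  · rw [Complex.norm_real, Real.norm_eq_abs, abs_of_nonneg (by positivity)]
  · rw [norm_zero]; positivity

theorem abw_summable (A : Set ℕ) {ρ : ℝ} (h0 : 0 ≤ ρ) (h1 : ρ < 1) :
    Summable fun n => ‖abw A ρ n‖ :=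
  Summable.of_nonneg_of_le (fun _ => norm_nonneg _) (abw_norm_le A h0)
    (summable_geometric_of_lt_one h0 h1)

theorem Sf_abw_zero (A : Set ℕ) {ρ : ℝ} : Sf (abw A ρ) 0 = (gf A ρ : ℂ) := by
  unfold Sf gf
  rw [Complex.ofReal_tsum]
  congr 1
  funext n
  rw [mul_zero, ls_ee_zero, mul_one]
  unfold abw
  split_ifs <;> simp

theorem gf_nonneg (A : Set ℕ) {ρ : ℝ} (h0 : 0 ≤ ρ) : 0 ≤ gf A ρ := by
  unfold gf
  apply tsum_nonneg
  intro n
  split_ifs
  · positivity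
  · exact le_refl _

/-- representation weights -/
noncomputable def rw' (A : Set ℕ) (ρ : ℝ) (n : ℕ) : ℂ := ((rep A n * ρ ^ n : ℝ) : ℂ)

theorem rep_le (A : Set ℕ) (n : ℕ) : rep A n ≤ n + 1 := by
  classical
  rw [rep_eq]
  exact (Finset.card_filter_le _ _).trans (by rw [Nat.card_antidiagonal])

theorem rw_summable_real (A : Set ℕ) {ρ : ℝ} (h0 : 0 ≤ ρ) (h1 : ρ < 1) :
    Summable fun n => (rep A n : ℝ) * ρ ^ n := by
  have h2 : Summable fun n : ℕ => ((n : ℝ) * ρ ^ n + ρ ^ n) := by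
    apply Summable.add
    · have := summable_pow_mul_geometric_of_norm_lt_one 1 (r := ρ) (by
        rw [Real.norm_eq_abs, abs_of_nonneg h0]; exact h1)
      simpa using this
    · exact summable_geometric_of_lt_one h0 h1
  refine Summable.of_nonneg_of_le (fun n => by positivity) (fun n => ?_) h2
  have h3 : (rep A n : ℝ) ≤ n + 1 := by exact_mod_cast rep_le A n
  have h4 : (0 : ℝ) ≤ ρ ^ n := by positivity
  nlinarith

theorem rw_summable (A : Set ℕ) {ρ : ℝ} (h0 : 0 ≤ ρ) (h1 : ρ < 1) :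
    Summable fun n => ‖rw' A ρ n‖ := by
  refine (rw_summable_real A h0 h1).congr fun n => ?_
  unfold rw'
  rw [Complex.norm_real, Real.norm_eq_abs, abs_of_nonneg (by positivity)]

theorem Sf_abw_sq (A : Set ℕ) {ρ : ℝ} (h0 : 0 ≤ ρ) (h1 : ρ < 1) (θ : ℝ) :
    Sf (abw A ρ) θ ^ 2 = Sf (rw' A ρ) θ := by
  classical
  have hs : Summable fun n : ℕ => ‖abw A ρ n * ee (n * θ)‖ := by
    refine (abw_summable A h0 h1).congr fun n => ?_
    rw [norm_mul, ls_norm_ee, mul_one]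
  unfold Sf
  rw [sq, tsum_mul_tsum_eq_tsum_sum_antidiagonal_of_summable_norm hs hs]
  congr 1
  funext n
  have h2 : ∀ x ∈ antidiagonal n, abw A ρ x.1 * ee (x.1 * θ) * (abw A ρ x.2 * ee (x.2 * θ)) =
      if x.1 ∈ A ∧ x.2 ∈ A then ((ρ ^ n : ℝ) : ℂ) * ee (n * θ) else 0 := by
    intro x hx
    rw [HasAntidiagonal.mem_antidiagonal] at hx
    have h3 : ee (x.1 * θ) * ee (x.2 * θ) = ee (n * θ) := by
      rw [← ls_ee_add, ← hx]
      congr 1
      push_cast
      ring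
    unfold abw
    by_cases h4 : x.1 ∈ A
    · by_cases h5 : x.2 ∈ A
      · rw [if_pos h4, if_pos h5, if_pos ⟨h4, h5⟩, ← h3, ← hx, pow_add]
        push_cast
        ring
      · have h6 : ¬ (x.1 ∈ A ∧ x.2 ∈ A) := fun h => h5 h.2
        rw [if_neg h6, if_neg h5]
        ring
    · have h6 : ¬ (x.1 ∈ A ∧ x.2 ∈ A) := fun h => h4 h.1
      rw [if_neg h6, if_neg h4]
      ring
  rw [Finset.sum_congr rfl h2, ← Finset.sum_filter, Finset.sum_const, nsmul_eq_mul, ← rep_eq]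
  unfold rw'
  push_cast
  ring

/-- the weight of a residue class in the representation function -/
noncomputable def cw (A : Set ℕ) (ρ : ℝ) (M c : ℕ) : ℝ :=
  ∑' n : ℕ, if n % M = c then (rep A n : ℝ) * ρ ^ n else 0

theorem part_rw (A : Set ℕ) (ρ : ℝ) (M c : ℕ) :
    part (rw' A ρ) M 0 c = (cw A ρ M c : ℂ) := by
  unfold part cw
  rw [Complex.ofReal_tsum]
  congr 1
  funext n
  rw [mul_zero, ls_ee_zero, mul_one]
  unfold rw'
  split_ifs <;> simp

theorem class_geom {ρ : ℝ} (h0 : 0 < ρ) (h1 : ρ < 1) {M : ℕ} (hM : 0 < M) (c : ℕ) (hc : c < M) :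
    ∑' n : ℕ, (if n % M = c then ρ ^ n else 0) ≤ 1 / (1 - ρ ^ M) := by
  have hinj : Function.Injective (fun j : ℕ => c + M * j) := by
    intro a b hab
    simp only at hab
    exact Nat.eq_of_mul_eq_mul_left hM (by omega)
  have hsupp : Function.support (fun n : ℕ => if n % M = c then ρ ^ n else 0) ⊆
      Set.range (fun j : ℕ => c + M * j) := by
    intro n hn
    rw [Function.mem_support] at hn
    have h2 : n % M = c := by
      by_contra h
      simp [h] at hn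
    refine ⟨n / M, ?_⟩
    show c + M * (n / M) = n
    rw [← h2]
    exact Nat.mod_add_div n M
  rw [← hinj.tsum_eq hsupp]
  have h2 : ∀ j : ℕ, (if (c + M * j) % M = c then ρ ^ (c + M * j) else 0) =
      ρ ^ c * (ρ ^ M) ^ j := by
    intro j
    rw [if_pos (by rw [Nat.add_mul_mod_self_left, Nat.mod_eq_of_lt hc]), pow_add, pow_mul]
  simp_rw [h2]
  have h3 : ρ ^ M < 1 := pow_lt_one₀ h0.le h1 hM.ne'
  rw [tsum_mul_left, tsum_geometric_of_lt_one (by positivity) h3, div_eq_mul_inv]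
  have h4 : ρ ^ c ≤ 1 := pow_le_one₀ h0.le h1.le
  have h5 : 0 ≤ (1 - ρ ^ M)⁻¹ := inv_nonneg.2 (by linarith)
  exact mul_le_mul_of_nonneg_right h4 h5

theorem cw_nonneg (A : Set ℕ) {ρ : ℝ} (h0 : 0 ≤ ρ) (M c : ℕ) : 0 ≤ cw A ρ M c := by
  unfold cw
  apply tsum_nonneg
  intro n
  split_ifs
  · positivity
  · exact le_refl _

/-- upper bound for the weight of a class -/
theorem cw_le (A : Set ℕ) (K : ℝ) (hK0 : 0 ≤ K) (n₁ : ℕ) (hK : ∀ n, n₁ ≤ n → (rep A n : ℝ) ≤ K)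
    {ρ : ℝ} (h0 : 0 < ρ) (h1 : ρ < 1) {M : ℕ} (hM : 0 < M) (c : ℕ) (hc : c < M) :
    cw A ρ M c ≤ K / (1 - ρ ^ M) + ∑ n ∈ range n₁, (rep A n : ℝ) := by
  classical
  set u : ℕ → ℝ := fun n => if n ∈ range n₁ then (rep A n : ℝ) else 0 with hu
  set v : ℕ → ℝ := fun n => K * (if n % M = c then ρ ^ n else 0) with hv
  have hsv : Summable v := by
    apply Summable.mul_left
    refine Summable.of_nonneg_of_le (fun n => ?_) (fun n => ?_)
      (summable_geometric_of_lt_one h0.le h1)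
    · split_ifs
      · positivity
      · exact le_refl _
    · split_ifs
      · exact le_refl _
      · positivity
  have hsu : Summable u := summable_of_ne_finset_zero (s := range n₁) (fun n hn => if_neg hn)
  have hle : ∀ n, (if n % M = c then (rep A n : ℝ) * ρ ^ n else 0) ≤ v n + u n := by
    intro n
    have hρ : ρ ^ n ≤ 1 := pow_le_one₀ h0.le h1.le
    have hρ0 : 0 ≤ ρ ^ n := by positivity
    have hr0 : (0 : ℝ) ≤ rep A n := Nat.cast_nonneg _
    simp only [hu, hv]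
    by_cases h2 : n < n₁
    · rw [if_pos (mem_range.2 h2)]
      split_ifs
      · nlinarith [mul_nonneg hK0 hρ0]
      · linarith
    · rw [if_neg (fun h => h2 (mem_range.1 h))]
      have h3 := hK n (by omega)
      split_ifs
      · nlinarith
      · linarith
  have hs : Summable fun n => (if n % M = c then (rep A n : ℝ) * ρ ^ n else 0) := by
    refine Summable.of_nonneg_of_le (fun n => ?_) hle (hsv.add hsu)
    split_ifs
    · positivity
    · exact le_refl _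
  unfold cw
  refine (Summable.tsum_le_tsum hle hs (hsv.add hsu)).trans ?_
  rw [hsv.tsum_add hsu]
  have h2 : ∑' n, u n = ∑ n ∈ range n₁, (rep A n : ℝ) := by
    rw [tsum_eq_sum (s := range n₁) (fun n hn => if_neg hn)]
    exact Finset.sum_congr rfl fun n hn => if_pos hn
  rw [h2]
  have h3 : ∑' n, v n ≤ K / (1 - ρ ^ M) := by
    rw [hv, tsum_mul_left, div_eq_mul_one_div]
    exact mul_le_mul_of_nonneg_left (class_geom h0 h1 hM c hc) hK0
  linarith

theorem cw_sum (A : Set ℕ) {ρ : ℝ} (h0 : 0 ≤ ρ) (h1 : ρ < 1) {M : ℕ} (hM : 0 < M) :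
    ∑ c ∈ range M, cw A ρ M c = gf A ρ ^ 2 := by
  have h := Sf_eq_sum_part (rw_summable A h0 h1) M hM 0
  rw [← Sf_abw_sq A h0 h1, Sf_abw_zero] at h
  simp_rw [part_rw] at h
  exact_mod_cast h.symm

/-- the main inequality at a fixed `ρ` -/
theorem main_rho (A : Set ℕ) (K : ℝ) (hK0 : 0 ≤ K) (n₁ : ℕ)
    (hK : ∀ n, n₁ ≤ n → (rep A n : ℝ) ≤ K) (hA : A.Nonempty)
    (P : Finset ℕ) (hP : ∀ p ∈ P, p.Prime) {ρ : ℝ} (h0 : 0 < ρ) (h1 : ρ < 1) :
    (∏ p ∈ P, (1 + (((p : ℝ) - res A p) / res A p) ^ 2 / (p - 1))) * ((1 - ρ) * gf A ρ ^ 2) ≤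
      ((∏ p ∈ P, p : ℕ) : ℝ) * (1 - ρ) *
        (K / (1 - ρ ^ (∏ p ∈ P, p)) + ∑ n ∈ range n₁, (rep A n : ℝ)) := by
  classical
  set M := ∏ p ∈ P, p with hM
  have hM0 : 0 < M := Finset.prod_pos fun p hp => (hP p hp).pos
  set R : ℕ → Finset ℕ := fun p => if h : 0 < p then (res_finite A h).toFinset else ∅ with hR
  have hRc : ∀ p ∈ P, ((R p).card : ℝ) = res A p := by
    intro p hp
    have hp0 : 0 < p := (hP p hp).pos
    simp only [hR, dif_pos hp0]
    rw [res, Set.ncard_eq_toFinset_card _ (res_finite A hp0)]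
  have hR1 : ∀ p ∈ P, p.Prime ∧ (∀ n, abw A ρ n ≠ 0 → n % p ∈ R p) ∧ 0 < (R p).card ∧
      (R p).card ≤ p := by
    intro p hp
    have hp0 : 0 < p := (hP p hp).pos
    refine ⟨hP p hp, ?_, ?_, ?_⟩
    · intro n hn
      simp only [hR, dif_pos hp0]
      rw [Set.Finite.mem_toFinset]
      refine ⟨n, ?_, rfl⟩
      by_contra h
      exact hn (by unfold abw; rw [if_neg h])
    · simp only [hR, dif_pos hp0]
      rw [Finset.card_pos]
      obtain ⟨a, ha⟩ := hA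
      exact ⟨a % p, (res_finite A hp0).mem_toFinset.2 ⟨a, ha, rfl⟩⟩
    · simp only [hR, dif_pos hp0]
      have : (res_finite A hp0).toFinset ⊆ range p := by
        intro x hx
        obtain ⟨a, _, rfl⟩ := (Set.Finite.mem_toFinset _).1 hx
        exact mem_range.2 (Nat.mod_lt a hp0)
      exact (Finset.card_le_card this).trans (card_range p).le
  have h2 := four_prod (abw_summable A h0.le h1) R P hR1 0
  rw [Sf_abw_zero, Complex.norm_real, Real.norm_eq_abs, abs_of_nonneg (gf_nonneg A h0.le)] at h2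
  have h3 : ∏ p ∈ P, (1 + (((p : ℝ) - (R p).card) / (R p).card) ^ 2 / (p - 1)) =
      ∏ p ∈ P, (1 + (((p : ℝ) - res A p) / res A p) ^ 2 / (p - 1)) :=
    Finset.prod_congr rfl fun p hp => by rw [hRc p hp]
  rw [h3, ← hM] at h2
  set G := ∏ p ∈ P, (1 + (((p : ℝ) - res A p) / res A p) ^ 2 / (p - 1)) with hG
  have h4 : ∑ a ∈ range M, ‖Sf (abw A ρ) (a / M + 0)‖ ^ 4 =
      M * ∑ c ∈ range M, cw A ρ M c ^ 2 := by
    have h5 : ∀ a ∈ range M, ‖Sf (abw A ρ) (a / M + 0)‖ ^ 4 =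
        ‖∑ c ∈ range M, part (rw' A ρ) M 0 c * ee (a * ((c : ℝ) / M))‖ ^ 2 := by
      intro a _
      rw [← Sf_expand (rw_summable A h0.le h1) M hM0 0 a, ← Sf_abw_sq A h0.le h1, norm_pow,
        ← pow_mul]
    rw [Finset.sum_congr rfl h5, parseval_range]
    congr 1
    refine Finset.sum_congr rfl fun c _ => ?_
    rw [part_rw, Complex.norm_real, Real.norm_eq_abs, sq_abs]
  rw [h4] at h2
  set B := K / (1 - ρ ^ M) + ∑ n ∈ range n₁, (rep A n : ℝ) with hB
  have h5 : ∑ c ∈ range M, cw A ρ M c ^ 2 ≤ B * gf A ρ ^ 2 := by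
    rw [← cw_sum A h0.le h1 hM0, Finset.mul_sum]
    refine Finset.sum_le_sum fun c hc => ?_
    rw [sq]
    exact mul_le_mul_of_nonneg_right (cw_le A K hK0 n₁ hK h0 h1 hM0 c (mem_range.1 hc))
      (cw_nonneg A h0.le M c)
  have hMr : (0 : ℝ) ≤ M := Nat.cast_nonneg _
  have h6 : G * gf A ρ ^ 4 ≤ M * (B * gf A ρ ^ 2) :=
    h2.trans (mul_le_mul_of_nonneg_left h5 hMr)
  have hρ1 : 0 < 1 - ρ := by linarith
  have hB0 : 0 ≤ B := by
    have h3 : ρ ^ M < 1 := pow_lt_one₀ h0.le h1 hM0.ne'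
    have : 0 ≤ K / (1 - ρ ^ M) := div_nonneg hK0 (by linarith)
    have h7 : (0 : ℝ) ≤ ∑ n ∈ range n₁, (rep A n : ℝ) := Finset.sum_nonneg fun _ _ => by positivity
    linarith
  rcases (gf_nonneg A h0.le).eq_or_lt with hg | hg
  · rw [← hg]
    simp only [ne_eq, OfNat.ofNat_ne_zero, not_false_eq_true, zero_pow, mul_zero]
    positivity
  · have hg2 : 0 < gf A ρ ^ 2 := by positivity
    have h7 : gf A ρ ^ 2 * (G * gf A ρ ^ 2) ≤ gf A ρ ^ 2 * (M * B) := by
      calc gf A ρ ^ 2 * (G * gf A ρ ^ 2) = G * gf A ρ ^ 4 := by ring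
        _ ≤ M * (B * gf A ρ ^ 2) := h6
        _ = _ := by ring
    have h8 := le_of_mul_le_mul_left h7 hg2
    calc G * ((1 - ρ) * gf A ρ ^ 2) = (1 - ρ) * (G * gf A ρ ^ 2) := by ring
      _ ≤ (1 - ρ) * (M * B) := mul_le_mul_of_nonneg_left h8 hρ1.le
      _ = _ := by ring

end Pool.Agent.TH314.ET
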