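import Mathlib
import Pool.Agent.TH314.ET.Prod

set_option autoImplicit false

open Finset Filter Topology

namespace Pool.Agent.TH314.ET

open Pool.Agent.Helper112

theorem gf_sq (A : Set ℕ) {ρ : ℝ} (h0 : 0 ≤ ρ) (h1 : ρ < 1) :
    gf A ρ ^ 2 = ∑' n : ℕ, (rep A n : ℝ) * ρ ^ n := by
  rw [← cw_sum A h0 h1 one_pos]
  rw [Finset.sum_range_one]
  unfold cw
  congr 1
  funext n
  rw [if_pos (Nat.mod_one n)]

/-- the Abel mean of the representation function of a basis -/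
theorem basis_mean (A : Set ℕ) (n₀ : ℕ) (hA : ∀ n, n₀ ≤ n → 1 ≤ rep A n) {ρ : ℝ} (h0 : 0 ≤ ρ)
    (h1 : ρ < 1) : ρ ^ n₀ ≤ (1 - ρ) * gf A ρ ^ 2 := by
  rw [gf_sq A h0 h1]
  have hs := rw_summable_real A h0 h1
  have hs' : Summable fun j : ℕ => (rep A (j + n₀) : ℝ) * ρ ^ (j + n₀) :=
    (summable_nat_add_iff (f := fun n : ℕ => (rep A n : ℝ) * ρ ^ n) n₀).2 hs
  have h2 := hs.sum_add_tsum_nat_add n₀
  have h3 : 0 ≤ ∑ i ∈ range n₀, (rep A i : ℝ) * ρ ^ i := Finset.sum_nonneg fun _ _ => by positivity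
  have h4 : ρ ^ n₀ * (1 - ρ)⁻¹ ≤ ∑' j : ℕ, (rep A (j + n₀) : ℝ) * ρ ^ (j + n₀) := by
    rw [← tsum_geometric_of_lt_one h0 h1, ← tsum_mul_left]
    refine Summable.tsum_le_tsum (fun j => ?_) ((summable_geometric_of_lt_one h0 h1).mul_left _) hs'
    have h5 : (1 : ℝ) ≤ rep A (j + n₀) := by exact_mod_cast hA (j + n₀) (by omega)
    rw [pow_add]
    have h6 : 0 ≤ ρ ^ j * ρ ^ n₀ := by positivity
    nlinarith
  have h5 : ρ ^ n₀ * (1 - ρ)⁻¹ ≤ ∑' n : ℕ, (rep A n : ℝ) * ρ ^ n := by linarith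
  have h6 : (0 : ℝ) < 1 - ρ := by linarith
  calc ρ ^ n₀ = (1 - ρ) * (ρ ^ n₀ * (1 - ρ)⁻¹) := by field_simp
    _ ≤ _ := mul_le_mul_of_nonneg_left h5 h6.le

theorem lim_rhs (M : ℕ) (hM : 0 < M) (K C : ℝ) :
    Tendsto (fun ρ : ℝ => (M : ℝ) * (1 - ρ) * (K / (1 - ρ ^ M) + C)) (𝓝[<] 1) (𝓝 K) := by
  have h1 : Tendsto (fun ρ : ℝ => (M : ℝ) * K / (∑ i ∈ range M, ρ ^ i) + (M : ℝ) * (1 - ρ) * C)
      (𝓝[<] 1) (𝓝 ((M : ℝ) * K / (∑ i ∈ range M, (1 : ℝ) ^ i) + (M : ℝ) * (1 - 1) * C)) := by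
    apply Tendsto.mono_left _ nhdsWithin_le_nhds
    apply Tendsto.add
    · apply Tendsto.div tendsto_const_nhds
      · exact (continuous_finsetSum (range M) fun i _ => continuous_pow i).tendsto 1
      · simp only [one_pow, sum_const, card_range, nsmul_eq_mul, mul_one]
        have : (0 : ℝ) < M := by exact_mod_cast hM
        exact this.ne'
    · exact (by fun_prop : Continuous fun ρ : ℝ => (M : ℝ) * (1 - ρ) * C).tendsto 1
  have h2 : (M : ℝ) * K / (∑ i ∈ range M, (1 : ℝ) ^ i) + (M : ℝ) * (1 - 1) * C = K := by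
    have hM' : (M : ℝ) ≠ 0 := by positivity
    simp only [one_pow, sum_const, card_range, nsmul_eq_mul, mul_one, sub_self, mul_zero, zero_mul,
      add_zero]
    field_simp
  rw [h2] at h1
  refine h1.congr' ?_
  have h3 : ∀ᶠ ρ : ℝ in 𝓝[<] 1, ρ ∈ Set.Ioo (0 : ℝ) 1 := Ioo_mem_nhdsLT (by norm_num)
  filter_upwards [h3] with ρ hρ
  have h4 : ∑ i ∈ range M, ρ ^ i = (1 - ρ ^ M) / (1 - ρ) := by
    rw [geom_sum_eq hρ.2.ne]
    rw [← neg_sub, ← neg_sub 1 ρ, neg_div_neg_eq]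
  have h5 : (0 : ℝ) < 1 - ρ := by linarith [hρ.2]
  have h6 : (0 : ℝ) < 1 - ρ ^ M := by
    have := pow_lt_one₀ hρ.1.le hρ.2 hM.ne'
    linarith
  rw [h4]
  field_simp

theorem product_formula (A : Set ℕ) (K : ℝ) (n₁ : ℕ) (hK : ∀ n, n₁ ≤ n → (rep A n : ℝ) ≤ K)
    (P : Finset ℕ) (hP : ∀ p ∈ P, p.Prime) (m : ℝ)
    (hm : ∃ᶠ ρ in 𝓝[<] (1 : ℝ), m ≤ (1 - ρ) * gf A ρ ^ 2) :
    m * ∏ p ∈ P, (1 + (((p : ℝ) - res A p) / res A p) ^ 2 / (p - 1)) ≤ K := by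
  classical
  have hK0 : 0 ≤ K := (Nat.cast_nonneg _).trans (hK n₁ le_rfl)
  have h1 : ∀ᶠ ρ : ℝ in 𝓝[<] 1, ρ ∈ Set.Ioo (0 : ℝ) 1 := Ioo_mem_nhdsLT (by norm_num)
  have hfac : ∀ p ∈ P, (0 : ℝ) ≤ 1 + (((p : ℝ) - res A p) / res A p) ^ 2 / (p - 1) := by
    intro p hp
    have : (1 : ℝ) < p := by exact_mod_cast (hP p hp).one_lt
    have h2 : 0 ≤ (((p : ℝ) - res A p) / res A p) ^ 2 / (p - 1) :=
      div_nonneg (by positivity) (by linarith)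
    linarith
  set G := ∏ p ∈ P, (1 + (((p : ℝ) - res A p) / res A p) ^ 2 / (p - 1)) with hG
  have hG0 : 0 ≤ G := Finset.prod_nonneg hfac
  rcases A.eq_empty_or_nonempty with hA | hA
  · obtain ⟨ρ, h2, h3⟩ := (hm.and_eventually h1).exists
    have h4 : gf A ρ = 0 := by
      unfold gf
      subst hA
      simp
    rw [h4] at h2
    have h5 : m ≤ 0 := by simpa using h2
    exact (mul_nonpos_of_nonpos_of_nonneg h5 hG0).trans hK0
  set M := ∏ p ∈ P, p with hM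
  have hM0 : 0 < M := Finset.prod_pos fun p hp => (hP p hp).pos
  have hlim := lim_rhs M hM0 K (∑ n ∈ range n₁, (rep A n : ℝ))
  by_contra hcon
  push Not at hcon
  have h2 := (hlim.eventually_lt_const hcon).and h1
  obtain ⟨ρ, h3, h4, h5⟩ := (hm.and_eventually h2).exists
  have h6 := main_rho A K hK0 n₁ hK hA P hP h5.1 h5.2
  rw [← hM, ← hG] at h6
  have h7 : m * G ≤ G * ((1 - ρ) * gf A ρ ^ 2) := by
    rw [mul_comm]
    exact mul_le_mul_of_nonneg_left h3 hG0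
  linarith

/-- **Product formula for bases.** -/
theorem product_basis (A : Set ℕ) (n₀ : ℕ) (hA : ∀ n, n₀ ≤ n → 1 ≤ rep A n) (P : Finset ℕ)
    (hP : ∀ p ∈ P, p.Prime) :
    ∃ᶠ n : ℕ in atTop,
      ∏ p ∈ P, (1 + (((p : ℝ) - res A p) / res A p) ^ 2 / (p - 1)) ≤ (rep A n : ℝ) := by
  by_contra hcon
  rw [not_frequently] at hcon
  set G := ∏ p ∈ P, (1 + (((p : ℝ) - res A p) / res A p) ^ 2 / (p - 1)) with hG
  obtain ⟨n₁, hn₁⟩ := eventually_atTop.1 hcon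
  have hGpos : 0 < G := by
    have := hn₁ n₁ le_rfl
    push Not at this
    exact (Nat.cast_nonneg _).trans_lt this
  -- an integer bound below `G`
  set k : ℕ := ⌈G⌉₊ - 1 with hk
  have hc1 : 1 ≤ ⌈G⌉₊ := Nat.one_le_ceil_iff.2 hGpos
  have hkG : (k : ℝ) < G := by
    have h1 : k < ⌈G⌉₊ := by omega
    exact Nat.lt_ceil.1 h1
  have hK : ∀ n, n₁ ≤ n → (rep A n : ℝ) ≤ k := by
    intro n hn
    have h1 := hn₁ n hn
    push Not at h1
    have h2 : rep A n < ⌈G⌉₊ := Nat.lt_ceil.2 h1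
    exact_mod_cast (by omega : rep A n ≤ k)
  -- choose `m < 1` with `m G > k`
  have hkG' : (k : ℝ) / G < 1 := (div_lt_one hGpos).2 hkG
  obtain ⟨m, hm1, hm2⟩ := exists_between hkG'
  have h1 : ∀ᶠ ρ : ℝ in 𝓝[<] 1, m ≤ (1 - ρ) * gf A ρ ^ 2 := by
    have h2 : Tendsto (fun ρ : ℝ => ρ ^ n₀) (𝓝[<] 1) (𝓝 1) := by
      have := ((continuous_pow n₀).tendsto (1 : ℝ)).mono_left
        (nhdsWithin_le_nhds (s := Set.Iio (1 : ℝ)))
      simpa using this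
    have h3 : ∀ᶠ ρ : ℝ in 𝓝[<] 1, ρ ∈ Set.Ioo (0 : ℝ) 1 := Ioo_mem_nhdsLT (by norm_num)
    filter_upwards [h2.eventually_const_lt hm2, h3] with ρ h4 h5
    exact h4.le.trans (basis_mean A n₀ hA h5.1.le h5.2)
  have h2 := product_formula A k n₁ hK P hP m h1.frequently
  rw [← hG] at h2
  rw [div_lt_iff₀ hGpos] at hm1
  linarith

end Pool.Agent.TH314.ET
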