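import Mathlib
import Pool.Agent.TH314.ET.Energy
import Pool.Agent.Helper559.Mertens
import Pool.Agent.Helper601.JobB

/-!
# A lower bound for the weight sum

If `((p - ν p) / ν p)² ≥ β` for all primes `p ≥ p₀` then `∑_{q ≤ Q} wt ν q ≥ c (log Q)^β`
(Rankin's trick and Mertens' theorems).
-/

set_option autoImplicit false

open Finset Filter Topology

namespace Pool.Agent.TH314.ET

open Pool.Agent.Helper112

/-- primes in `[p₀, z]` -/
def TP (p₀ z : ℕ) : Finset ℕ := (Icc 1 z).filter (fun p => p.Prime ∧ p₀ ≤ p)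

theorem exp_le_aux {x : ℝ} (h0 : 0 ≤ x) (h1 : x ≤ 1) : Real.exp x ≤ 1 + 2 * x := by
  have h2 := Real.abs_exp_sub_one_sub_id_le (x := x) (by rw [abs_of_nonneg h0]; exact h1)
  have h3 := (abs_le.1 h2).2
  nlinarith

/-- Rankin's trick -/
theorem rankin (β : ℝ) (hβ : 0 ≤ β) (p₀ z s : ℕ) (hz : 3 ≤ z) :
    (1 - Real.exp (-(s : ℝ) + 6 * β)) * ∏ p ∈ TP p₀ z, (1 + β / p) ≤
      ∑ t ∈ (TP p₀ z).powerset.filter (fun t => ∏ p ∈ t, p ≤ z ^ s), ∏ p ∈ t, β / (p : ℝ) := by
  classical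
  set T := TP p₀ z with hT
  have hTp : ∀ p ∈ T, p.Prime ∧ p ≤ z := by
    intro p hp
    rw [hT, TP, mem_filter, mem_Icc] at hp
    exact ⟨hp.2.1, hp.1.2⟩
  set W := ∏ p ∈ T, (1 + β / (p : ℝ)) with hW
  have hW0 : 0 ≤ W := Finset.prod_nonneg fun p _ => by positivity
  have hz' : (3 : ℝ) ≤ z := by exact_mod_cast hz
  have hlz : 1 ≤ Real.log z := by
    rw [Real.le_log_iff_exp_le (by linarith)]
    have := Real.exp_one_lt_d9
    linarith
  have hlz0 : 0 < Real.log z := by linarith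
  set η := 1 / Real.log z with hη
  have hη0 : 0 < η := by positivity
  have hsplit := Finset.sum_filter_add_sum_filter_not T.powerset (fun t => ∏ p ∈ t, p ≤ z ^ s)
    (fun t => ∏ p ∈ t, β / (p : ℝ))
  rw [← Finset.prod_one_add] at hsplit
  -- the tail
  have htail : ∑ t ∈ T.powerset.filter (fun t => ¬ ∏ p ∈ t, p ≤ z ^ s), ∏ p ∈ t, β / (p : ℝ) ≤
      Real.exp (-(s : ℝ) + 6 * β) * W := by
    have h1 : ∀ t ∈ T.powerset.filter (fun t => ¬ ∏ p ∈ t, p ≤ z ^ s),
        ∏ p ∈ t, β / (p : ℝ) ≤ Real.exp (-(s : ℝ)) * ∏ p ∈ t, (β / p) * (p : ℝ) ^ η := by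
      intro t ht
      rw [mem_filter, mem_powerset, not_le] at ht
      rw [Finset.prod_mul_distrib]
      have h2 : Real.exp (s : ℝ) ≤ ∏ p ∈ t, (p : ℝ) ^ η := by
        have h3 : ∏ p ∈ t, (p : ℝ) ^ η = ((∏ p ∈ t, p : ℕ) : ℝ) ^ η := by
          rw [Real.finsetProd_rpow _ _ (fun p _ => Nat.cast_nonneg _)]
          push_cast
          rfl
        rw [h3]
        have h4 : (z : ℝ) ^ s ≤ ((∏ p ∈ t, p : ℕ) : ℝ) := by exact_mod_cast ht.2.le
        have h5 : ((z : ℝ) ^ s) ^ η = Real.exp (s : ℝ) := by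
          rw [← Real.rpow_natCast, ← Real.rpow_mul (by linarith),
            Real.rpow_def_of_pos (by linarith)]
          congr 1
          rw [hη]
          field_simp
        rw [← h5]
        exact Real.rpow_le_rpow (by positivity) h4 hη0.le
      have h3 : 0 ≤ ∏ p ∈ t, β / (p : ℝ) := Finset.prod_nonneg fun p _ => by positivity
      calc ∏ p ∈ t, β / (p : ℝ) = Real.exp (-(s : ℝ)) * ((∏ p ∈ t, β / (p : ℝ)) * Real.exp s) := by
            rw [mul_comm (∏ p ∈ t, β / (p : ℝ)), ← mul_assoc, ← Real.exp_add]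
            simp
        _ ≤ _ := by
            apply mul_le_mul_of_nonneg_left _ (Real.exp_pos _).le
            exact mul_le_mul_of_nonneg_left h2 h3
    have h2 : ∑ t ∈ T.powerset.filter (fun t => ¬ ∏ p ∈ t, p ≤ z ^ s), ∏ p ∈ t, β / (p : ℝ) ≤
        ∑ t ∈ T.powerset, Real.exp (-(s : ℝ)) * ∏ p ∈ t, (β / p) * (p : ℝ) ^ η := by
      refine (Finset.sum_le_sum h1).trans ?_
      refine Finset.sum_le_sum_of_subset_of_nonneg (Finset.filter_subset _ _) fun t _ _ => ?_
      exact mul_nonneg (Real.exp_pos _).le (Finset.prod_nonneg fun p _ => by positivity)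
    refine h2.trans ?_
    rw [← Finset.mul_sum, ← Finset.prod_one_add, Real.exp_add, mul_assoc]
    apply mul_le_mul_of_nonneg_left _ (Real.exp_pos _).le
    -- the product
    have h3 : ∀ p ∈ T, 1 + β / (p : ℝ) * (p : ℝ) ^ η ≤
        (1 + β / p) * Real.exp (2 * β * η * (Real.log p / p)) := by
      intro p hp
      obtain ⟨hpp, hpz⟩ := hTp p hp
      have hp1 : (1 : ℝ) < p := by exact_mod_cast hpp.one_lt
      have hp0 : (0 : ℝ) < p := by linarith
      have hlp : 0 ≤ Real.log p := Real.log_nonneg hp1.le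
      have hlpz : Real.log p ≤ Real.log z := Real.log_le_log hp0 (by exact_mod_cast hpz)
      have h4 : (p : ℝ) ^ η ≤ 1 + 2 * (Real.log p * η) := by
        rw [Real.rpow_def_of_pos hp0]
        apply exp_le_aux (by positivity)
        rw [hη, mul_one_div, div_le_one hlz0]
        exact hlpz
      have h5 : 1 + 2 * β * η * (Real.log p / p) ≤ Real.exp (2 * β * η * (Real.log p / p)) := by
        have := Real.add_one_le_exp (2 * β * η * (Real.log p / p))
        linarith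
      have h6 : 0 ≤ β / (p : ℝ) := by positivity
      have h7 : 0 ≤ 2 * β * η * (Real.log p / p) := by positivity
      calc 1 + β / (p : ℝ) * (p : ℝ) ^ η ≤ 1 + β / (p : ℝ) * (1 + 2 * (Real.log p * η)) := by
            have := mul_le_mul_of_nonneg_left h4 h6
            linarith
        _ = (1 + β / p) + 2 * β * η * (Real.log p / p) := by ring
        _ ≤ (1 + β / p) * (1 + 2 * β * η * (Real.log p / p)) := by nlinarith
        _ ≤ _ := mul_le_mul_of_nonneg_left h5 (by positivity)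
    have h4 : ∏ p ∈ T, (1 + β / (p : ℝ) * (p : ℝ) ^ η) ≤
        W * Real.exp (∑ p ∈ T, 2 * β * η * (Real.log p / p)) := by
      rw [Real.exp_sum, hW, ← Finset.prod_mul_distrib]
      exact Finset.prod_le_prod (fun p _ => by positivity) h3
    refine h4.trans ?_
    rw [mul_comm W]
    apply mul_le_mul_of_nonneg_right _ hW0
    apply Real.exp_le_exp.2
    rw [← Finset.mul_sum]
    have h5 : ∑ p ∈ T, Real.log p / (p : ℝ) ≤ Real.log z + 2 := by
      refine le_trans ?_ (Pool.Agent.Helper601.JobB.mertens_log z (by omega))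
      apply Finset.sum_le_sum_of_subset_of_nonneg
      · intro p hp
        rw [hT, TP, mem_filter] at hp
        rw [mem_filter]
        exact ⟨hp.1, hp.2.1⟩
      · intro p hp _
        have h6 := (mem_Icc.1 (mem_filter.1 hp).1).1
        have : (1 : ℝ) ≤ p := by exact_mod_cast h6
        exact div_nonneg (Real.log_nonneg this) (by linarith)
    calc 2 * β * η * ∑ p ∈ T, Real.log p / (p : ℝ) ≤ 2 * β * η * (Real.log z + 2) :=
          mul_le_mul_of_nonneg_left h5 (by positivity)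
      _ ≤ 2 * β * η * (3 * Real.log z) := by
          apply mul_le_mul_of_nonneg_left _ (by positivity)
          linarith
      _ = 6 * β := by
          rw [hη]
          field_simp
          ring
  rw [← hW] at hsplit
  have h1 : (1 - Real.exp (-(s : ℝ) + 6 * β)) * W = W - Real.exp (-(s : ℝ) + 6 * β) * W := by ring
  rw [h1]
  linarith

/-- lower bound for the full product -/
theorem prod_lower (β : ℝ) (hβ : 0 ≤ β) (p₀ : ℕ) : ∃ c : ℝ, 0 < c ∧ ∀ z : ℕ, 3 ≤ z →
    c * Real.log z ^ β ≤ ∏ p ∈ TP p₀ z, (1 + β / (p : ℝ)) := by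
  classical
  obtain ⟨C, hC, hM⟩ := Pool.Agent.Helper559.mertens
  set D := ∑ p ∈ (Icc 1 p₀).filter Nat.Prime, (1 : ℝ) / p with hD
  refine ⟨Real.exp (-(β * C) - β * D - 2 * β ^ 2), Real.exp_pos _, fun z hz => ?_⟩
  have hz' : (3 : ℝ) ≤ z := by exact_mod_cast hz
  have hlz : 1 ≤ Real.log z := by
    rw [Real.le_log_iff_exp_le (by linarith)]
    have := Real.exp_one_lt_d9
    linarith
  have hTp : ∀ p ∈ TP p₀ z, p.Prime := by
    intro p hp
    rw [TP, mem_filter] at hp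
    exact hp.2.1
  have h1 : ∀ p ∈ TP p₀ z, Real.exp (β / p - β ^ 2 / (p : ℝ) ^ 2) ≤ 1 + β / (p : ℝ) := by
    intro p hp
    have hp0 : (0 : ℝ) < p := by exact_mod_cast (hTp p hp).pos
    set x := β / (p : ℝ) with hx
    have hx0 : 0 ≤ x := by positivity
    have h2 := Real.add_one_le_exp (-(x / (1 + x)))
    have h3 : -(x / (1 + x)) + 1 = (1 + x)⁻¹ := by
      field_simp
      ring
    rw [h3, Real.exp_neg] at h2
    have h4 : Real.exp (x / (1 + x)) ≤ 1 + x := by
      have h5 := inv_anti₀ (by positivity : (0 : ℝ) < (1 + x)⁻¹) h2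
      rw [inv_inv, inv_inv] at h5
      exact h5
    refine le_trans (Real.exp_le_exp.2 ?_) h4
    have h5 : β ^ 2 / (p : ℝ) ^ 2 = x ^ 2 := by rw [hx, div_pow]
    rw [h5, le_div_iff₀ (by positivity)]
    nlinarith [pow_nonneg hx0 3]
  have h2 : Real.exp (∑ p ∈ TP p₀ z, (β / p - β ^ 2 / (p : ℝ) ^ 2)) ≤
      ∏ p ∈ TP p₀ z, (1 + β / (p : ℝ)) := by
    rw [Real.exp_sum]
    exact Finset.prod_le_prod (fun p _ => (Real.exp_pos _).le) h1
  refine le_trans ?_ h2
  have h3 : Real.log z ^ β = Real.exp (β * Real.log (Real.log z)) := by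
    rw [Real.rpow_def_of_pos (by linarith), mul_comm]
  rw [h3, ← Real.exp_add]
  apply Real.exp_le_exp.2
  rw [Finset.sum_sub_distrib]
  have h4 : ∑ p ∈ TP p₀ z, β / (p : ℝ) = β * ∑ p ∈ TP p₀ z, (1 : ℝ) / p := by
    rw [Finset.mul_sum]
    exact Finset.sum_congr rfl fun p _ => by ring
  have h5 : ∑ p ∈ TP p₀ z, β ^ 2 / (p : ℝ) ^ 2 ≤ 2 * β ^ 2 := by
    have h6 := ls_sum_inv_sq_inj (TP p₀ z) (fun p => p) (fun p hp => (hTp p hp).one_lt.le)
      (fun a _ b _ h => h)
    have h7 : ∑ p ∈ TP p₀ z, β ^ 2 / (p : ℝ) ^ 2 = β ^ 2 * ∑ p ∈ TP p₀ z, 1 / (p : ℝ) ^ 2 := by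
      rw [Finset.mul_sum]
      exact Finset.sum_congr rfl fun p _ => by ring
    rw [h7]
    nlinarith [sq_nonneg β]
  have h6 : Real.log (Real.log z) - C - D ≤ ∑ p ∈ TP p₀ z, (1 : ℝ) / p := by
    have h7 := (abs_le.1 (hM z (by omega))).1
    have h8 : Pool.Agent.Helper559.S z ≤ D + ∑ p ∈ TP p₀ z, (1 : ℝ) / p := by
      rw [Pool.Agent.Helper559.S, hD]
      have h9 : (Icc 1 z).filter Nat.Prime ⊆ (Icc 1 p₀).filter Nat.Prime ∪ TP p₀ z := by
        intro p hp
        rw [mem_filter, mem_Icc] at hp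
        rw [mem_union, mem_filter, mem_Icc, TP, mem_filter, mem_Icc]
        rcases le_total p₀ p with h10 | h10
        · exact Or.inr ⟨hp.1, hp.2, h10⟩
        · exact Or.inl ⟨⟨hp.1.1, h10⟩, hp.2⟩
      refine (Finset.sum_le_sum_of_subset_of_nonneg h9 fun p _ _ => by positivity).trans ?_
      have h10 := Finset.sum_union_inter (s₁ := (Icc 1 p₀).filter Nat.Prime) (s₂ := TP p₀ z)
        (f := fun p : ℕ => (1 : ℝ) / p)
      have h11 : 0 ≤ ∑ p ∈ (Icc 1 p₀).filter Nat.Prime ∩ TP p₀ z, (1 : ℝ) / (p : ℝ) :=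
        Finset.sum_nonneg fun p _ => by positivity
      linarith
    linarith
  rw [h4]
  have h7 := mul_le_mul_of_nonneg_left h6 hβ
  nlinarith

theorem totient_prod_primes (t : Finset ℕ) (ht : ∀ p ∈ t, p.Prime) :
    (Nat.totient (∏ p ∈ t, p) : ℝ) = ∏ p ∈ t, ((p : ℝ) - 1) := by
  have h := Nat.totient_mul_prod_primeFactors (∏ p ∈ t, p)
  rw [Nat.primeFactors_prod ht, mul_comm] at h
  have h0 : 0 < ∏ p ∈ t, p := Finset.prod_pos fun p hp => (ht p hp).pos
  have h1 := Nat.eq_of_mul_eq_mul_left h0 h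
  rw [h1]
  push_cast
  refine Finset.prod_congr rfl fun p hp => ?_
  rw [Nat.cast_sub (ht p hp).one_lt.le, Nat.cast_one]

theorem squarefree_prod_primes (t : Finset ℕ) (ht : ∀ p ∈ t, p.Prime) :
    Squarefree (∏ p ∈ t, p) := by
  apply Finset.squarefree_prod_of_pairwise_isCoprime
  · intro p hp q hq hpq
    exact (Nat.coprime_iff_isRelPrime).1 ((Nat.coprime_primes (ht p hp) (ht q hq)).2 hpq)
  · exact fun p hp => (ht p hp).prime.squarefree

theorem wt_nonneg (ν : ℕ → ℕ) (q : ℕ) : 0 ≤ wt ν q := by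
  unfold wt
  exact div_nonneg (Finset.prod_nonneg fun p _ => by positivity) (Nat.cast_nonneg _)

/-- comparison of the weight sum with the sum over sets of primes -/
theorem wt_sum_ge (β : ℝ) (hβ : 0 ≤ β) (p₀ z s Q : ℕ) (hQ : z ^ s ≤ Q) (ν : ℕ → ℕ)
    (hν : ∀ p, p.Prime → p₀ ≤ p → β ≤ (((p : ℝ) - ν p) / ν p) ^ 2) :
    ∑ t ∈ (TP p₀ z).powerset.filter (fun t => ∏ p ∈ t, p ≤ z ^ s), ∏ p ∈ t, β / (p : ℝ) ≤
      ∑ q ∈ (Icc 1 Q).filter Squarefree, wt ν q := by
  classical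
  set S := (TP p₀ z).powerset.filter (fun t => ∏ p ∈ t, p ≤ z ^ s) with hS
  have hSp : ∀ t ∈ S, ∀ p ∈ t, p.Prime ∧ p₀ ≤ p := by
    intro t ht p hp
    rw [hS, mem_filter, mem_powerset] at ht
    have := ht.1 hp
    rw [TP, mem_filter] at this
    exact this.2
  have hinj : Set.InjOn (fun t : Finset ℕ => ∏ p ∈ t, p) S := by
    intro t ht u hu htu
    have h1 := congrArg Nat.primeFactors htu
    simp only at h1
    rw [Nat.primeFactors_prod (fun p hp => (hSp t ht p hp).1),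
      Nat.primeFactors_prod (fun p hp => (hSp u hu p hp).1)] at h1
    exact h1
  have h1 : ∀ t ∈ S, ∏ p ∈ t, β / (p : ℝ) ≤ wt ν (∏ p ∈ t, p) := by
    intro t ht
    have htp : ∀ p ∈ t, p.Prime := fun p hp => (hSp t ht p hp).1
    unfold wt
    rw [Nat.primeFactors_prod htp, totient_prod_primes t htp, ← Finset.prod_div_distrib]
    apply Finset.prod_le_prod (fun p _ => by positivity)
    intro p hp
    have hp1 : (1 : ℝ) < p := by exact_mod_cast (htp p hp).one_lt
    have h2 := hν p (htp p hp) (hSp t ht p hp).2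
    calc β / (p : ℝ) ≤ β / ((p : ℝ) - 1) :=
          div_le_div_of_nonneg_left hβ (by linarith) (by linarith)
      _ ≤ _ := div_le_div_of_nonneg_right h2 (by linarith)
  refine (Finset.sum_le_sum h1).trans ?_
  rw [← Finset.sum_image (f := fun q : ℕ => wt ν q) hinj]
  apply Finset.sum_le_sum_of_subset_of_nonneg
  · intro q hq
    obtain ⟨t, ht, rfl⟩ := mem_image.1 hq
    have htp : ∀ p ∈ t, p.Prime := fun p hp => (hSp t ht p hp).1
    rw [mem_filter, mem_Icc]
    refine ⟨⟨Finset.prod_pos fun p hp => (htp p hp).pos, ?_⟩, squarefree_prod_primes t htp⟩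
    rw [hS, mem_filter] at ht
    exact ht.2.trans hQ
  · exact fun q _ _ => wt_nonneg ν q

/-- **Lower bound for the weight sum.** -/
theorem wt_sum_lower (β : ℝ) (hβ : 0 ≤ β) (p₀ : ℕ) : ∃ c : ℝ, 0 < c ∧ ∃ Q₀ : ℕ, ∀ Q : ℕ, Q₀ ≤ Q →
    ∀ ν : ℕ → ℕ, (∀ p, p.Prime → p₀ ≤ p → β ≤ (((p : ℝ) - ν p) / ν p) ^ 2) →
    c * Real.log Q ^ β ≤ ∑ q ∈ (Icc 1 Q).filter Squarefree, wt ν q := by
  obtain ⟨c, hc, hW⟩ := prod_lower β hβ p₀
  -- the exponent `s`
  obtain ⟨s, hs⟩ := exists_nat_gt (6 * β + 1)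
  have hs0 : (0 : ℝ) < s := by linarith
  have hsN : 0 < s := by exact_mod_cast hs0
  have hexp : Real.exp (-(s : ℝ) + 6 * β) ≤ 1 / 2 := by
    have h1 : Real.exp (-(s : ℝ) + 6 * β) ≤ Real.exp (-1) := Real.exp_le_exp.2 (by linarith)
    have h2 : Real.exp (-1) ≤ 1 / 2 := by
      rw [Real.exp_neg]
      have h3 : (2 : ℝ) ≤ Real.exp 1 := by
        have := Real.add_one_le_exp (1 : ℝ)
        linarith
      rw [inv_eq_one_div]
      exact one_div_le_one_div_of_le (by norm_num) h3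
    exact h1.trans h2
  refine ⟨(1 / 2) * c * (1 / (2 * s)) ^ β, by positivity, 4 ^ (2 * s), fun Q hQ ν hν => ?_⟩
  have hQ' : ((4 : ℝ) ^ (2 * s)) ≤ Q := by exact_mod_cast hQ
  have hQpos : (0 : ℝ) < Q := lt_of_lt_of_le (by positivity) hQ'
  set y : ℝ := (Q : ℝ) ^ (1 / (s : ℝ)) with hy
  have hy16 : (16 : ℝ) ≤ y := by
    have h1 : ((4 : ℝ) ^ (2 * s)) ^ (1 / (s : ℝ)) = 16 := by
      rw [pow_mul, ← Real.rpow_natCast, ← Real.rpow_mul (by norm_num)]
      rw [mul_one_div_cancel hs0.ne', Real.rpow_one]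
      norm_num
    rw [← h1]
    exact Real.rpow_le_rpow (by positivity) hQ' (by positivity)
  have hy0 : 0 ≤ y := by linarith
  set z := ⌊y⌋₊ with hz
  have hzy : (z : ℝ) ≤ y := Nat.floor_le hy0
  have hyz : y < z + 1 := Nat.lt_floor_add_one y
  have hz3 : 3 ≤ z := by
    rw [hz]
    exact Nat.le_floor (by norm_num; linarith)
  have hz3' : (3 : ℝ) ≤ z := by exact_mod_cast hz3
  have hzs : z ^ s ≤ Q := by
    have h1 : (z : ℝ) ^ s ≤ Q := by
      calc (z : ℝ) ^ s ≤ y ^ s := pow_le_pow_left₀ (by linarith) hzy s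
        _ = Q := by
            rw [hy, ← Real.rpow_natCast, ← Real.rpow_mul hQpos.le, one_div_mul_cancel hs0.ne',
              Real.rpow_one]
    exact_mod_cast h1
  have hlog : Real.log Q / (2 * s) ≤ Real.log z := by
    have h1 : Real.log y = Real.log Q / s := by
      rw [hy, Real.log_rpow hQpos]
      ring
    have h2 : Real.sqrt y ≤ z := by
      have h3 : Real.sqrt y * 4 ≤ y := by
        have h4 : (4 : ℝ) ≤ Real.sqrt y := by
          apply Real.le_sqrt_of_sq_le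
          linarith
        calc Real.sqrt y * 4 ≤ Real.sqrt y * Real.sqrt y :=
              mul_le_mul_of_nonneg_left h4 (Real.sqrt_nonneg _)
          _ = y := Real.mul_self_sqrt hy0
      have h5 : 0 ≤ Real.sqrt y := Real.sqrt_nonneg _
      nlinarith
    have h3 : Real.log (Real.sqrt y) ≤ Real.log z :=
      Real.log_le_log (Real.sqrt_pos.2 (by linarith)) h2
    rw [Real.log_sqrt hy0, h1] at h3
    calc Real.log Q / (2 * s) = Real.log Q / s / 2 := by ring
      _ ≤ _ := h3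
  have h1 := rankin β hβ p₀ z s hz3
  have h2 := wt_sum_ge β hβ p₀ z s Q hzs ν hν
  have h3 := hW z hz3
  have hlQ : 0 ≤ Real.log Q := by
    apply Real.log_nonneg
    exact_mod_cast (Nat.one_le_iff_ne_zero.2 (by intro h; rw [h] at hQpos; norm_num at hQpos))
  have h4 : (1 / (2 * (s : ℝ))) ^ β * Real.log Q ^ β ≤ Real.log z ^ β := by
    rw [← Real.mul_rpow (by positivity) hlQ]
    apply Real.rpow_le_rpow (by positivity) _ hβ
    rw [one_div_mul_eq_div]
    exact hlog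
  have hWnn : 0 ≤ ∏ p ∈ TP p₀ z, (1 + β / (p : ℝ)) := Finset.prod_nonneg fun p _ => by positivity
  calc (1 / 2) * c * (1 / (2 * s)) ^ β * Real.log Q ^ β
      = (1 / 2) * (c * ((1 / (2 * (s : ℝ))) ^ β * Real.log Q ^ β)) := by ring
    _ ≤ (1 / 2) * (c * Real.log z ^ β) := by
        apply mul_le_mul_of_nonneg_left _ (by norm_num)
        exact mul_le_mul_of_nonneg_left h4 hc.le
    _ ≤ (1 / 2) * ∏ p ∈ TP p₀ z, (1 + β / (p : ℝ)) := mul_le_mul_of_nonneg_left h3 (by norm_num)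
    _ ≤ (1 - Real.exp (-(s : ℝ) + 6 * β)) * ∏ p ∈ TP p₀ z, (1 + β / (p : ℝ)) :=
        mul_le_mul_of_nonneg_right (by linarith) hWnn
    _ ≤ _ := h1.trans h2

end Pool.Agent.TH314.ET
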