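import Mathlib
import Pool.Agent.TH314.ET.Lim
import Pool.Agent.TH314.ET.Rank

/-!
# Equidistribution modulo most primes, and the consequences for sets of integers
-/

set_option autoImplicit false

open Finset Filter Topology

namespace Pool.Agent.TH314.ET

open Pool.Agent.Helper112

/-- the chi-square distance of `F` from equidistribution modulo `p` -/
noncomputable def chi (F : Finset ℕ) (p : ℕ) : ℝ :=
  p * ∑ c ∈ range p, (((F.filter (fun a => a % p = c)).card : ℝ) / F.card) ^ 2 - 1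

theorem part_ind (F : Finset ℕ) (m c : ℕ) :
    part (ind F) m 0 c = ((F.filter (fun a => a % m = c)).card : ℂ) := by
  unfold part
  rw [tsum_eq_sum (s := F)]
  · rw [Finset.card_filter]
    push_cast
    refine Finset.sum_congr rfl fun a ha => ?_
    unfold ind
    rw [if_pos ha, mul_zero, ls_ee_zero, mul_one]
  · intro a ha
    unfold ind
    rw [if_neg ha, zero_mul, ite_self]

theorem sum_sq_ind (F : Finset ℕ) {p : ℕ} (hp : 0 < p) :
    ∑ a ∈ range p, ‖Sf (ind F) (a / p)‖ ^ 2 =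
      p * ∑ c ∈ range p, ((F.filter (fun a => a % p = c)).card : ℝ) ^ 2 := by
  have h : ∀ a ∈ range p, ‖Sf (ind F) (a / p)‖ ^ 2 =
      ‖∑ c ∈ range p, part (ind F) p 0 c * ee (a * ((c : ℝ) / p))‖ ^ 2 := by
    intro a _
    rw [← Sf_expand (ind_summable F) p hp 0 a, add_zero]
  rw [Finset.sum_congr rfl h, parseval_range]
  congr 1
  refine Finset.sum_congr rfl fun c _ => ?_
  rw [part_ind, Complex.norm_natCast]

theorem chi_prime (F : Finset ℕ) (hF : F.Nonempty) {p : ℕ} (hp : p.Prime) :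
    (F.card : ℝ) ^ 4 * (chi F p ^ 2 / (p - 1)) ≤
      ∑ a ∈ (range p).filter (fun a => a.Coprime p), ‖Sf (ind F) (a / p)‖ ^ 4 := by
  have h2 : (range p).filter (fun a => a.Coprime p) = (range p).erase 0 := by
    ext a
    simp only [mem_filter, mem_range, mem_erase]
    constructor
    · rintro ⟨h3, h4⟩
      refine ⟨?_, h3⟩
      rintro rfl
      rw [Nat.coprime_zero_left] at h4
      exact hp.one_lt.ne' h4
    · rintro ⟨h3, h4⟩
      refine ⟨h4, ?_⟩
      rw [Nat.coprime_comm, hp.coprime_iff_not_dvd]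
      intro h5
      exact absurd (Nat.le_of_dvd (by omega) h5) (by omega)
  rw [h2]
  have hf : (0 : ℝ) < F.card := by exact_mod_cast Finset.card_pos.2 hF
  have hp1 : (0 : ℝ) < (p : ℝ) - 1 := by
    have : (1 : ℝ) < p := by exact_mod_cast hp.one_lt
    linarith
  have h3 : (F.card : ℝ) ^ 2 * chi F p =
      ∑ a ∈ (range p).erase 0, ‖Sf (ind F) (a / p)‖ ^ 2 := by
    have h4 := sum_sq_ind F hp.pos
    rw [← Finset.add_sum_erase _ _ (mem_range.2 hp.pos)] at h4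
    have h5 : ‖Sf (ind F) (((0 : ℕ) : ℝ) / p)‖ ^ 2 = (F.card : ℝ) ^ 2 := by
      rw [Nat.cast_zero, zero_div, Sf_ind_zero, Complex.norm_natCast]
    rw [h5] at h4
    have h6 : (F.card : ℝ) ^ 2 * chi F p =
        p * ∑ c ∈ range p, ((F.filter (fun a => a % p = c)).card : ℝ) ^ 2 - (F.card : ℝ) ^ 2 := by
      unfold chi
      have h7 : ∑ c ∈ range p, (((F.filter (fun a => a % p = c)).card : ℝ) / F.card) ^ 2 =
          (∑ c ∈ range p, ((F.filter (fun a => a % p = c)).card : ℝ) ^ 2) / (F.card : ℝ) ^ 2 := by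
        rw [Finset.sum_div]
        exact Finset.sum_congr rfl fun c _ => by rw [div_pow]
      rw [h7]
      field_simp
    rw [h6]
    linarith
  have h4 : (∑ a ∈ (range p).erase 0, ‖Sf (ind F) (a / p)‖ ^ 2) ^ 2 ≤
      ((p : ℝ) - 1) * ∑ a ∈ (range p).erase 0, ‖Sf (ind F) (a / p)‖ ^ 4 := by
    have h5 := sq_sum_le_card_mul_sum_sq (s := (range p).erase 0)
      (f := fun a : ℕ => ‖Sf (ind F) (a / p)‖ ^ 2)
    have h6 : (((range p).erase 0).card : ℝ) = (p : ℝ) - 1 := by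
      rw [Finset.card_erase_of_mem (mem_range.2 hp.pos), card_range,
        Nat.cast_sub hp.one_lt.le, Nat.cast_one]
    rw [h6] at h5
    refine h5.trans (le_of_eq ?_)
    congr 1
    exact Finset.sum_congr rfl fun a _ => by rw [← pow_mul]
  rw [← h3] at h4
  rw [← mul_div_assoc, div_le_iff₀ hp1]
  calc (F.card : ℝ) ^ 4 * chi F p ^ 2 = ((F.card : ℝ) ^ 2 * chi F p) ^ 2 := by ring
    _ ≤ _ := h4
    _ = _ := by ring

/-- equidistribution modulo most primes -/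
theorem chi_energy {F : Finset ℕ} {N : ℕ} (hF : F ⊆ Icc 1 N) (Q : ℕ) :
    (F.card : ℝ) ^ 4 * ∑ p ∈ (Icc 1 Q).filter Nat.Prime, chi F p ^ 2 / (p - 1) ≤
      6 * (2 * N + (Q : ℝ) ^ 2) * ∑ n ∈ Icc 1 (2 * N), (rF F n : ℝ) ^ 2 := by
  rcases F.eq_empty_or_nonempty with h0 | h0
  · subst h0
    simp only [Finset.card_empty, Nat.cast_zero, ne_eq, OfNat.ofNat_ne_zero, not_false_eq_true,
      zero_pow, zero_mul]
    positivity
  refine le_trans ?_ (fourth_moment hF Q)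
  rw [Finset.mul_sum]
  have h1 : ∑ q ∈ (Icc 1 Q).filter Nat.Prime,
      ∑ a ∈ (range q).filter (fun a => a.Coprime q), ‖Sf (ind F) (a / q)‖ ^ 4 ≤
      ∑ q ∈ Icc 1 Q, ∑ a ∈ (range q).filter (fun a => a.Coprime q),
        ‖Sf (ind F) (a / q)‖ ^ 4 :=
    Finset.sum_le_sum_of_subset_of_nonneg (Finset.filter_subset _ _) fun _ _ _ => by positivity
  exact le_trans (Finset.sum_le_sum fun q hq => chi_prime F h0 (mem_filter.1 hq).2) h1

/-! ### Sets of integers -/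

open Classical in
/-- the elements of `A` in `[1, N]` -/
noncomputable def seg (A : Set ℕ) (N : ℕ) : Finset ℕ := (Icc 1 N).filter (· ∈ A)

theorem mem_seg {A : Set ℕ} {N a : ℕ} : a ∈ seg A N ↔ (1 ≤ a ∧ a ≤ N) ∧ a ∈ A := by
  simp only [seg, mem_filter, mem_Icc]

theorem seg_sub (A : Set ℕ) (N : ℕ) : seg A N ⊆ Icc 1 N := fun _ ha =>
  mem_Icc.2 (mem_seg.1 ha).1

theorem seg_card (A : Set ℕ) (N : ℕ) : ((A ∩ Set.Icc 1 N).ncard) = (seg A N).card := by
  rw [← Set.ncard_coe_finset]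
  congr 1
  ext a
  rw [Finset.mem_coe, mem_seg]
  constructor
  · rintro ⟨h1, h2⟩
    exact ⟨h2, h1⟩
  · rintro ⟨h1, h2⟩
    exact ⟨h2, h1⟩

theorem rF_le_rep {A : Set ℕ} {F : Finset ℕ} (hF : ∀ a ∈ F, a ∈ A) (n : ℕ) :
    rF F n ≤ rep A n := by
  classical
  rw [rep_eq, rF]
  apply Finset.card_le_card
  intro x hx
  rw [mem_filter, mem_product] at hx
  rw [mem_filter, HasAntidiagonal.mem_antidiagonal]
  exact ⟨hx.2, hF _ hx.1.1, hF _ hx.1.2⟩

theorem rF_zero {F : Finset ℕ} {N n : ℕ} (hF : F ⊆ Icc 1 N) (hn : 2 * N < n) : rF F n = 0 := by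
  rw [rF, Finset.card_eq_zero, Finset.filter_eq_empty_iff]
  intro x hx h
  rw [mem_product] at hx
  have h1 := mem_Icc.1 (hF hx.1)
  have h2 := mem_Icc.1 (hF hx.2)
  omega

/-- some `n ≤ 2 N` maximises the representation function of the segment -/
theorem exists_max (A : Set ℕ) (N : ℕ) : ∃ n, n ≤ 2 * N ∧ ∀ k, rF (seg A N) k ≤ rep A n := by
  obtain ⟨n, hn, hmax⟩ := Finset.exists_max_image (Finset.range (2 * N + 1)) (fun n => rep A n)
    ⟨0, by simp⟩
  refine ⟨n, by have := mem_range.1 hn; omega, fun k => ?_⟩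
  by_cases hk : k ≤ 2 * N
  · exact (rF_le_rep (fun a ha => (mem_seg.1 ha).2) k).trans (hmax k (mem_range.2 (by omega)))
  · rw [rF_zero (seg_sub A N) (by omega)]
    exact Nat.zero_le _

theorem occ_eq_res (A : Set ℕ) (N p : ℕ) : occ (seg A N) p = res (A ∩ Set.Icc 1 N) p := by
  rw [occ, res, ← Set.ncard_coe_finset]
  congr 1
  ext x
  simp only [Finset.coe_image, Set.mem_image, Finset.mem_coe, mem_seg, Set.mem_inter_iff,
    Set.mem_Icc]
  constructor
  · rintro ⟨a, ⟨h1, h2⟩, h3⟩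
    exact ⟨a, ⟨h2, h1⟩, h3⟩
  · rintro ⟨a, ⟨h1, h2⟩, h3⟩
    exact ⟨a, ⟨h2, h1⟩, h3⟩

/-- the finite form of the main inequality -/
theorem finite_form (A : Set ℕ) (N : ℕ) : ∃ n, n ≤ 2 * N ∧
    ((A ∩ Set.Icc 1 N).ncard : ℝ) ^ 2 *
      ∑ q ∈ (Icc 1 (Nat.sqrt N)).filter Squarefree, wt (occ (seg A N)) q ≤ 18 * N * rep A n := by
  obtain ⟨n, hn, hmax⟩ := exists_max A N
  refine ⟨n, hn, ?_⟩
  rw [seg_card]
  refine (bounded_upper (seg_sub A N) hmax (Nat.sqrt N)).trans ?_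
  have h1 : ((Nat.sqrt N : ℕ) : ℝ) ^ 2 ≤ N := by exact_mod_cast Nat.sqrt_le' N
  have h2 : (0 : ℝ) ≤ rep A n := Nat.cast_nonneg _
  nlinarith

theorem energy_le (A : Set ℕ) (N : ℕ) :
    ∑ n ∈ Icc 1 (2 * N), (rF (seg A N) n : ℝ) ^ 2 ≤
      ∑ n ∈ range (2 * N + 1), (rep A n : ℝ) ^ 2 := by
  refine (Finset.sum_le_sum fun n _ => ?_).trans
    (Finset.sum_le_sum_of_subset_of_nonneg (f := fun n : ℕ => (rep A n : ℝ) ^ 2) ?_
      fun n _ _ => by positivity)
  · have h : (rF (seg A N) n : ℝ) ≤ rep A n := by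
      exact_mod_cast rF_le_rep (fun a ha => (mem_seg.1 ha).2) n
    exact pow_le_pow_left₀ (Nat.cast_nonneg _) h 2
  · intro n hn
    rw [mem_Icc] at hn
    rw [mem_range]
    omega

/-- mean square form -/
theorem energy_form (A : Set ℕ) (N : ℕ) :
    ((A ∩ Set.Icc 1 N).ncard : ℝ) ^ 4 *
      ∑ q ∈ (Icc 1 (Nat.sqrt N)).filter Squarefree, wt (occ (seg A N)) q ≤
        18 * N * ∑ n ∈ range (2 * N + 1), (rep A n : ℝ) ^ 2 := by
  rw [seg_card]
  refine (energy_lower (seg_sub A N) (Nat.sqrt N)).trans ?_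
  have h1 : ((Nat.sqrt N : ℕ) : ℝ) ^ 2 ≤ N := by exact_mod_cast Nat.sqrt_le' N
  have h2 := energy_le A N
  have h3 : (0 : ℝ) ≤ ∑ n ∈ Icc 1 (2 * N), (rF (seg A N) n : ℝ) ^ 2 :=
    Finset.sum_nonneg fun _ _ => by positivity
  calc 6 * (2 * N + ((Nat.sqrt N : ℕ) : ℝ) ^ 2) * ∑ n ∈ Icc 1 (2 * N), (rF (seg A N) n : ℝ) ^ 2
      ≤ 6 * (2 * N + N) * ∑ n ∈ Icc 1 (2 * N), (rF (seg A N) n : ℝ) ^ 2 := by
        apply mul_le_mul_of_nonneg_right _ h3
        linarith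
    _ ≤ 6 * (2 * N + N) * ∑ n ∈ range (2 * N + 1), (rep A n : ℝ) ^ 2 :=
        mul_le_mul_of_nonneg_left h2 (by positivity)
    _ = _ := by ring

/-- equidistribution modulo most primes, mean square form -/
theorem chi_form (A : Set ℕ) (N : ℕ) :
    ((A ∩ Set.Icc 1 N).ncard : ℝ) ^ 4 *
      ∑ p ∈ (Icc 1 (Nat.sqrt N)).filter Nat.Prime, chi (seg A N) p ^ 2 / (p - 1) ≤
        18 * N * ∑ n ∈ range (2 * N + 1), (rep A n : ℝ) ^ 2 := by
  rw [seg_card]
  refine (chi_energy (seg_sub A N) (Nat.sqrt N)).trans ?_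
  have h1 : ((Nat.sqrt N : ℕ) : ℝ) ^ 2 ≤ N := by exact_mod_cast Nat.sqrt_le' N
  have h2 := energy_le A N
  have h3 : (0 : ℝ) ≤ ∑ n ∈ Icc 1 (2 * N), (rF (seg A N) n : ℝ) ^ 2 :=
    Finset.sum_nonneg fun _ _ => by positivity
  calc 6 * (2 * N + ((Nat.sqrt N : ℕ) : ℝ) ^ 2) * ∑ n ∈ Icc 1 (2 * N), (rF (seg A N) n : ℝ) ^ 2
      ≤ 6 * (2 * N + N) * ∑ n ∈ Icc 1 (2 * N), (rF (seg A N) n : ℝ) ^ 2 := by
        apply mul_le_mul_of_nonneg_right _ h3
        linarith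
    _ ≤ 6 * (2 * N + N) * ∑ n ∈ range (2 * N + 1), (rep A n : ℝ) ^ 2 :=
        mul_le_mul_of_nonneg_left h2 (by positivity)
    _ = _ := by ring

theorem occ_le_res (A : Set ℕ) (N : ℕ) {p : ℕ} (hp : 0 < p) : occ (seg A N) p ≤ res A p := by
  rw [occ, res, ← Set.ncard_coe_finset]
  apply Set.ncard_le_ncard _ (res_finite A hp)
  intro x hx
  obtain ⟨a, ha, rfl⟩ := Finset.mem_image.1 (Finset.mem_coe.1 hx)
  exact ⟨a, (mem_seg.1 ha).2, rfl⟩

/-- at least `c √N` elements up to `N`, for infinitely many `N` -/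
def Thick (A : Set ℕ) : Prop :=
  ∃ c : ℝ, 0 < c ∧ ∃ᶠ N : ℕ in atTop, c * Real.sqrt N ≤ ((A ∩ Set.Icc 1 N).ncard : ℝ)

theorem ratio_mono {p a b : ℝ} (ha : 0 < a) (hab : a ≤ b) (hbp : b ≤ p) :
    ((p - b) / b) ^ 2 ≤ ((p - a) / a) ^ 2 := by
  have hb : 0 < b := by linarith
  apply pow_le_pow_left₀ (div_nonneg (by linarith) hb.le)
  rw [div_le_div_iff₀ hb ha]
  nlinarith

theorem res_le (A : Set ℕ) {p : ℕ} (hp : 0 < p) : res A p ≤ p := by
  have h : ((fun a => a % p) '' A) ⊆ (range p : Set ℕ) := by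
    rintro _ ⟨a, _, rfl⟩
    exact Finset.mem_coe.2 (mem_range.2 (Nat.mod_lt a hp))
  have h1 := Set.ncard_le_ncard h (Finset.finite_toSet _)
  rwa [Set.ncard_coe_finset, card_range] at h1

/-- divergence of `∑ (p - ν p)² / p³` -/
theorem unbounded_of_diverge (A : Set ℕ) (hA : Thick A)
    (hdiv : ¬ Summable fun p : ℕ => if p.Prime then ((p : ℝ) - res A p) ^ 2 / (p : ℝ) ^ 3 else 0)
    (B : ℝ) : ∃ᶠ N : ℕ in atTop, B * N < ∑ n ∈ range N, (rep A n : ℝ) ^ 2 := by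
  classical
  by_contra hcon
  rw [not_frequently] at hcon
  obtain ⟨N₁, hN₁⟩ := eventually_atTop.1 hcon
  have hB0 : ∀ N, N₁ ≤ N → ∑ n ∈ range N, (rep A n : ℝ) ^ 2 ≤ |B| * N := by
    intro N hN
    have h1 := hN₁ N hN
    push Not at h1
    exact h1.trans (mul_le_mul_of_nonneg_right (le_abs_self B) (Nat.cast_nonneg _))
  obtain ⟨c, hc, hfreq⟩ := hA
  apply hdiv
  set f : ℕ → ℝ := fun p => if p.Prime then ((p : ℝ) - res A p) ^ 2 / (p : ℝ) ^ 3 else 0 with hf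
  have hf0 : ∀ p, 0 ≤ f p := by
    intro p
    simp only [hf]
    split_ifs
    · positivity
    · exact le_refl _
  refine summable_of_sum_range_le (c := 54 * |B| / c ^ 4) hf0 fun m => ?_
  -- choose `N` large with many elements
  obtain ⟨N, hN1, hN2, hN3⟩ := (hfreq.and_eventually ((eventually_ge_atTop ((m + 1) ^ 2)).and
    (eventually_ge_atTop (N₁ + 1)))).exists
  have hN0 : 0 < N := by omega
  have hN' : (0 : ℝ) < N := by exact_mod_cast hN0
  have hsq : m + 1 ≤ Nat.sqrt N := by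
    rw [Nat.le_sqrt']
    exact hN2
  have h1 := energy_form A N
  have h2 : ∑ n ∈ range (2 * N + 1), (rep A n : ℝ) ^ 2 ≤ |B| * (3 * N) := by
    refine (hB0 (2 * N + 1) (by omega)).trans ?_
    apply mul_le_mul_of_nonneg_left _ (abs_nonneg _)
    have : (1 : ℝ) ≤ N := by exact_mod_cast hN0
    push_cast
    linarith
  set F := seg A N with hF
  have hcard : c * Real.sqrt N ≤ (F.card : ℝ) := by
    rw [seg_card] at hN1
    exact hN1
  have hFpos : (0 : ℝ) < F.card := lt_of_lt_of_le (by positivity) hcard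
  have hFne : F.Nonempty := Finset.card_pos.1 (by exact_mod_cast hFpos)
  have h3 : ∑ p ∈ range m, f p ≤
      ∑ q ∈ (Icc 1 (Nat.sqrt N)).filter Squarefree, wt (occ F) q := by
    have h4 : ∑ p ∈ range m, f p ≤ ∑ p ∈ (range m).filter Nat.Prime, wt (occ F) p := by
      rw [Finset.sum_filter]
      refine Finset.sum_le_sum fun p _ => ?_
      simp only [hf]
      split_ifs with hp
      · unfold wt
        rw [hp.primeFactors, Finset.prod_singleton, Nat.totient_prime hp,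
          Nat.cast_sub hp.one_lt.le, Nat.cast_one]
        have hp1 : (1 : ℝ) < p := by exact_mod_cast hp.one_lt
        have ho1 : (0 : ℝ) < occ F p := by exact_mod_cast occ_pos hFne p
        have ho2 : (occ F p : ℝ) ≤ res A p := by exact_mod_cast occ_le_res A N hp.pos
        have ho3 : (res A p : ℝ) ≤ p := by exact_mod_cast res_le A hp.pos
        have h5 : (((p : ℝ) - res A p) / p) ^ 2 ≤ (((p : ℝ) - occ F p) / occ F p) ^ 2 := by
          refine le_trans ?_ (ratio_mono ho1 ho2 ho3)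
          apply pow_le_pow_left₀ (div_nonneg (by linarith) (by linarith))
          exact div_le_div_of_nonneg_left (by linarith) (by linarith) ho3
        calc ((p : ℝ) - res A p) ^ 2 / (p : ℝ) ^ 3 = (((p : ℝ) - res A p) / p) ^ 2 / p := by
              field_simp
          _ ≤ (((p : ℝ) - res A p) / p) ^ 2 / (p - 1) :=
              div_le_div_of_nonneg_left (by positivity) (by linarith) (by linarith)
          _ ≤ _ := div_le_div_of_nonneg_right h5 (by linarith)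
      · exact le_refl _
    refine h4.trans (Finset.sum_le_sum_of_subset_of_nonneg ?_ fun q _ _ => wt_nonneg _ q)
    intro p hp
    rw [mem_filter, mem_range] at hp
    rw [mem_filter, mem_Icc]
    exact ⟨⟨hp.2.one_lt.le, by omega⟩, hp.2.prime.squarefree⟩
  have h4 : c ^ 4 * (N : ℝ) ^ 2 ≤ ((A ∩ Set.Icc 1 N).ncard : ℝ) ^ 4 := by
    have h5 : (c * Real.sqrt N) ^ 4 ≤ ((A ∩ Set.Icc 1 N).ncard : ℝ) ^ 4 :=
      pow_le_pow_left₀ (by positivity) hN1 4
    have h6 : Real.sqrt N ^ 4 = (N : ℝ) ^ 2 := by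
      rw [show (4 : ℕ) = 2 * 2 by norm_num, pow_mul, Real.sq_sqrt hN'.le]
    rw [mul_pow, h6] at h5
    exact h5
  have hs0 : 0 ≤ ∑ p ∈ range m, f p := Finset.sum_nonneg fun p _ => hf0 p
  rw [le_div_iff₀ (by positivity)]
  have h5 : (c ^ 4 * (N : ℝ) ^ 2) * ∑ p ∈ range m, f p ≤ 18 * N * (|B| * (3 * N)) := by
    calc (c ^ 4 * (N : ℝ) ^ 2) * ∑ p ∈ range m, f p
        ≤ ((A ∩ Set.Icc 1 N).ncard : ℝ) ^ 4 * ∑ p ∈ range m, f p :=
          mul_le_mul_of_nonneg_right h4 hs0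
      _ ≤ ((A ∩ Set.Icc 1 N).ncard : ℝ) ^ 4 *
          ∑ q ∈ (Icc 1 (Nat.sqrt N)).filter Squarefree, wt (occ F) q :=
          mul_le_mul_of_nonneg_left h3 (by positivity)
      _ ≤ _ := h1
      _ ≤ _ := mul_le_mul_of_nonneg_left h2 (by positivity)
  have h6 : (N : ℝ) ^ 2 * ((∑ p ∈ range m, f p) * c ^ 4) ≤ (N : ℝ) ^ 2 * (54 * |B|) := by
    linarith
  exact le_of_mul_le_mul_left h6 (by positivity)

/-- unbounded mean squares imply an unbounded representation function -/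
theorem unbounded_of_mean (A : Set ℕ)
    (h : ∀ B : ℝ, ∃ᶠ N : ℕ in atTop, B * N < ∑ n ∈ range N, (rep A n : ℝ) ^ 2) (K : ℕ) :
    ∃ n, K < rep A n := by
  by_contra hcon
  push Not at hcon
  obtain ⟨N, hN⟩ := (h ((K : ℝ) ^ 2)).exists
  have h1 : ∑ n ∈ range N, (rep A n : ℝ) ^ 2 ≤ ∑ n ∈ range N, (K : ℝ) ^ 2 :=
    Finset.sum_le_sum fun n _ => pow_le_pow_left₀ (Nat.cast_nonneg _)
      (by exact_mod_cast hcon n) 2
  rw [Finset.sum_const, card_range, nsmul_eq_mul] at h1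
  linarith

/-- a power of the logarithm -/
theorem log_power (A : Set ℕ) (hA : Thick A) (δ : ℝ) (hδ0 : 0 < δ) (hδ1 : δ < 1)
    (hres : ∀ᶠ p : ℕ in atTop, p.Prime → (res A p : ℝ) ≤ (1 - δ) * p) :
    ∃ c : ℝ, 0 < c ∧ ∃ᶠ n : ℕ in atTop, c * Real.log n ^ ((δ / (1 - δ)) ^ 2) ≤ (rep A n : ℝ) := by
  classical
  obtain ⟨c₁, hc₁, hfreq⟩ := hA
  obtain ⟨p₀, hp₀⟩ := eventually_atTop.1 hres
  set β := (δ / (1 - δ)) ^ 2 with hβ
  have h1δ : 0 < 1 - δ := by linarith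
  have hβ0 : 0 < β := by positivity
  obtain ⟨c₂, hc₂, Q₀, hQ₀⟩ := wt_sum_lower β hβ0.le p₀
  -- the main estimate for a good `N`
  have key : ∀ N : ℕ, (Q₀ + 1) ^ 2 ≤ N → 16 ≤ N →
      c₁ * Real.sqrt N ≤ ((A ∩ Set.Icc 1 N).ncard : ℝ) →
      ∃ n, n ≤ 2 * N ∧ c₁ ^ 2 * c₂ / 18 * (1 / 4) ^ β * Real.log N ^ β ≤ rep A n := by
    intro N hN1 hN2 hN3
    have hN0 : 0 < N := by omega
    have hN' : (0 : ℝ) < N := by exact_mod_cast hN0
    have hsq : Q₀ + 1 ≤ Nat.sqrt N := by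
      rw [Nat.le_sqrt']
      exact hN1
    obtain ⟨n, hn, h1⟩ := finite_form A N
    refine ⟨n, hn, ?_⟩
    have hFpos : (0 : ℝ) < (seg A N).card := by
      rw [← seg_card]
      exact lt_of_lt_of_le (by positivity) hN3
    have hFne : (seg A N).Nonempty := Finset.card_pos.1 (by exact_mod_cast hFpos)
    have h2 := hQ₀ (Nat.sqrt N) (by omega) (occ (seg A N)) (by
      intro p hp hpp₀
      have hp1 : (1 : ℝ) < p := by exact_mod_cast hp.one_lt
      have ho1 : (0 : ℝ) < occ (seg A N) p := by exact_mod_cast occ_pos hFne p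
      have ho2 : (occ (seg A N) p : ℝ) ≤ res A p := by exact_mod_cast occ_le_res A N hp.pos
      have ho3 : (occ (seg A N) p : ℝ) ≤ (1 - δ) * p := ho2.trans (hp₀ p hpp₀ hp)
      have h3 : (((p : ℝ) - (1 - δ) * p) / ((1 - δ) * p)) ^ 2 = β := by
        rw [hβ]
        congr 1
        field_simp
        ring
      rw [← h3]
      exact ratio_mono ho1 ho3 (by nlinarith))
    have h3 : c₁ ^ 2 * N ≤ ((A ∩ Set.Icc 1 N).ncard : ℝ) ^ 2 := by
      have h5 : (c₁ * Real.sqrt N) ^ 2 ≤ ((A ∩ Set.Icc 1 N).ncard : ℝ) ^ 2 :=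
        pow_le_pow_left₀ (by positivity) hN3 2
      rw [mul_pow, Real.sq_sqrt hN'.le] at h5
      exact h5
    have hlog : (1 / 4) * Real.log N ≤ Real.log (Nat.sqrt N) := by
      have h4 : (N : ℝ) ≤ ((Nat.sqrt N : ℕ) : ℝ) ^ 4 := by
        have h5 : N < (Nat.sqrt N + 1) ^ 2 := Nat.lt_succ_sqrt' N
        have h6 : 4 ≤ Nat.sqrt N := by
          rw [Nat.le_sqrt']
          omega
        have h7 : N ≤ Nat.sqrt N ^ 4 := by
          have h8 : (Nat.sqrt N + 1) ^ 2 ≤ (2 * Nat.sqrt N) ^ 2 :=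
            Nat.pow_le_pow_left (by omega) 2
          have h9 : (2 * Nat.sqrt N) ^ 2 ≤ Nat.sqrt N ^ 4 := by
            have : 4 ≤ Nat.sqrt N ^ 2 := by nlinarith
            calc (2 * Nat.sqrt N) ^ 2 = 4 * Nat.sqrt N ^ 2 := by ring
              _ ≤ Nat.sqrt N ^ 2 * Nat.sqrt N ^ 2 := Nat.mul_le_mul_right _ this
              _ = _ := by ring
          omega
        exact_mod_cast h7
      have h5 : Real.log N ≤ 4 * Real.log (Nat.sqrt N) := by
        have h6 := Real.log_le_log hN' h4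
        rw [Real.log_pow] at h6
        exact_mod_cast h6
      linarith
    have hlN : 0 ≤ Real.log N := Real.log_nonneg (by exact_mod_cast hN0)
    have h4 : (1 / 4) ^ β * Real.log N ^ β ≤ Real.log (Nat.sqrt N) ^ β := by
      rw [← Real.mul_rpow (by norm_num) hlN]
      exact Real.rpow_le_rpow (by positivity) hlog hβ0.le
    have h5 : (c₁ ^ 2 * N) * (c₂ * ((1 / 4) ^ β * Real.log N ^ β)) ≤ 18 * N * rep A n := by
      calc (c₁ ^ 2 * N) * (c₂ * ((1 / 4) ^ β * Real.log N ^ β))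
          ≤ (c₁ ^ 2 * N) * (c₂ * Real.log (Nat.sqrt N) ^ β) := by
            apply mul_le_mul_of_nonneg_left _ (by positivity)
            exact mul_le_mul_of_nonneg_left h4 hc₂.le
        _ ≤ (c₁ ^ 2 * N) * ∑ q ∈ (Icc 1 (Nat.sqrt N)).filter Squarefree, wt (occ (seg A N)) q :=
            mul_le_mul_of_nonneg_left h2 (by positivity)
        _ ≤ ((A ∩ Set.Icc 1 N).ncard : ℝ) ^ 2 *
            ∑ q ∈ (Icc 1 (Nat.sqrt N)).filter Squarefree, wt (occ (seg A N)) q :=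
            mul_le_mul_of_nonneg_right h3 (Finset.sum_nonneg fun q _ => wt_nonneg _ q)
        _ ≤ _ := h1
    have h6 : (N : ℝ) * (c₁ ^ 2 * c₂ * (1 / 4) ^ β * Real.log N ^ β) ≤ N * (18 * rep A n) := by
      calc (N : ℝ) * (c₁ ^ 2 * c₂ * (1 / 4) ^ β * Real.log N ^ β)
          = (c₁ ^ 2 * N) * (c₂ * ((1 / 4) ^ β * Real.log N ^ β)) := by ring
        _ ≤ _ := h5
        _ = _ := by ring
    have h7 := le_of_mul_le_mul_left h6 hN'
    calc c₁ ^ 2 * c₂ / 18 * (1 / 4) ^ β * Real.log N ^ β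
        = (c₁ ^ 2 * c₂ * (1 / 4) ^ β * Real.log N ^ β) / 18 := by ring
      _ ≤ _ := by rw [div_le_iff₀ (by norm_num)]; linarith
  set c₃ := c₁ ^ 2 * c₂ / 18 * (1 / 4) ^ β with hc₃
  have hc₃0 : 0 < c₃ := by positivity
  -- `log (2 N) ≤ 2 log N`
  refine ⟨c₃ * (1 / 2) ^ β, by positivity, ?_⟩
  rw [frequently_atTop]
  intro B
  -- the representation numbers below `B` are bounded
  set D := ∑ n ∈ range B, rep A n with hD
  have hlim : Tendsto (fun N : ℕ => c₃ * Real.log N ^ β) atTop atTop := by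
    apply Tendsto.const_mul_atTop hc₃0
    exact (tendsto_rpow_atTop hβ0).comp (Real.tendsto_log_atTop.comp tendsto_natCast_atTop_atTop)
  have hev := (hlim.eventually_gt_atTop (D : ℝ)).and
    ((eventually_ge_atTop ((Q₀ + 1) ^ 2)).and (eventually_ge_atTop 16))
  obtain ⟨N, hN3, hN4, hN1, hN2⟩ := (hfreq.and_eventually hev).exists
  obtain ⟨n, hn, h1⟩ := key N hN1 hN2 hN3
  refine ⟨n, ?_, ?_⟩
  · by_contra hnB
    have h2 : rep A n ≤ D :=
      Finset.single_le_sum (f := fun n => rep A n) (fun _ _ => Nat.zero_le _)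
        (mem_range.2 (by omega))
    have h3 : (rep A n : ℝ) ≤ D := by exact_mod_cast h2
    linarith
  · refine le_trans ?_ h1
    rw [mul_assoc]
    apply mul_le_mul_of_nonneg_left _ hc₃0.le
    rcases Nat.eq_zero_or_pos n with h0 | h0
    · subst h0
      simp only [Nat.cast_zero, Real.log_zero]
      rw [Real.zero_rpow hβ0.ne', mul_zero]
      exact Real.rpow_nonneg (Real.log_nonneg (by exact_mod_cast (by omega : 1 ≤ N))) _
    · have hln : 0 ≤ Real.log n := Real.log_nonneg (by exact_mod_cast h0)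
      rw [← Real.mul_rpow (by norm_num) hln]
      apply Real.rpow_le_rpow (by positivity) _ hβ0.le
      have h2 : Real.log n ≤ Real.log ((N : ℝ) ^ 2) := by
        apply Real.log_le_log (by exact_mod_cast h0)
        have h3 : n ≤ N ^ 2 := by nlinarith
        exact_mod_cast h3
      rw [Real.log_pow] at h2
      push_cast at h2
      linarith

/-- mean square form of the lower bound by a power of the logarithm -/
theorem log_power_mean (A : Set ℕ) (hA : Thick A) (δ : ℝ) (hδ0 : 0 < δ) (hδ1 : δ < 1)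
    (hres : ∀ᶠ p : ℕ in atTop, p.Prime → (res A p : ℝ) ≤ (1 - δ) * p) :
    ∃ c : ℝ, 0 < c ∧ ∃ᶠ N : ℕ in atTop,
      c * N * Real.log N ^ ((δ / (1 - δ)) ^ 2) ≤ ∑ n ∈ range N, (rep A n : ℝ) ^ 2 := by
  classical
  obtain ⟨c₁, hc₁, hfreq⟩ := hA
  obtain ⟨p₀, hp₀⟩ := eventually_atTop.1 hres
  set β := (δ / (1 - δ)) ^ 2 with hβ
  have h1δ : 0 < 1 - δ := by linarith
  have hβ0 : 0 < β := by positivity
  obtain ⟨c₂, hc₂, Q₀, hQ₀⟩ := wt_sum_lower β hβ0.le p₀
  have key : ∀ N : ℕ, (Q₀ + 1) ^ 2 ≤ N → 16 ≤ N →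
      c₁ * Real.sqrt N ≤ ((A ∩ Set.Icc 1 N).ncard : ℝ) →
      c₁ ^ 4 * c₂ / 18 * (1 / 4) ^ β * N * Real.log N ^ β ≤
        ∑ n ∈ range (2 * N + 1), (rep A n : ℝ) ^ 2 := by
    intro N hN1 hN2 hN3
    have hN0 : 0 < N := by omega
    have hN' : (0 : ℝ) < N := by exact_mod_cast hN0
    have hsq : Q₀ + 1 ≤ Nat.sqrt N := by
      rw [Nat.le_sqrt']
      exact hN1
    have h1 := energy_form A N
    have hFpos : (0 : ℝ) < (seg A N).card := by
      rw [← seg_card]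
      exact lt_of_lt_of_le (by positivity) hN3
    have hFne : (seg A N).Nonempty := Finset.card_pos.1 (by exact_mod_cast hFpos)
    have h2 := hQ₀ (Nat.sqrt N) (by omega) (occ (seg A N)) (by
      intro p hp hpp₀
      have hp1 : (1 : ℝ) < p := by exact_mod_cast hp.one_lt
      have ho1 : (0 : ℝ) < occ (seg A N) p := by exact_mod_cast occ_pos hFne p
      have ho2 : (occ (seg A N) p : ℝ) ≤ res A p := by exact_mod_cast occ_le_res A N hp.pos
      have ho3 : (occ (seg A N) p : ℝ) ≤ (1 - δ) * p := ho2.trans (hp₀ p hpp₀ hp)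
      have h3 : (((p : ℝ) - (1 - δ) * p) / ((1 - δ) * p)) ^ 2 = β := by
        rw [hβ]
        congr 1
        field_simp
        ring
      rw [← h3]
      exact ratio_mono ho1 ho3 (by nlinarith))
    have h3 : c₁ ^ 4 * (N : ℝ) ^ 2 ≤ ((A ∩ Set.Icc 1 N).ncard : ℝ) ^ 4 := by
      have h5 : (c₁ * Real.sqrt N) ^ 4 ≤ ((A ∩ Set.Icc 1 N).ncard : ℝ) ^ 4 :=
        pow_le_pow_left₀ (by positivity) hN3 4
      have h6 : Real.sqrt N ^ 4 = (N : ℝ) ^ 2 := by
        rw [show (4 : ℕ) = 2 * 2 by norm_num, pow_mul, Real.sq_sqrt hN'.le]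
      rw [mul_pow, h6] at h5
      exact h5
    have hlog : (1 / 4) * Real.log N ≤ Real.log (Nat.sqrt N) := by
      have h4 : (N : ℝ) ≤ ((Nat.sqrt N : ℕ) : ℝ) ^ 4 := by
        have h5 : N < (Nat.sqrt N + 1) ^ 2 := Nat.lt_succ_sqrt' N
        have h6 : 4 ≤ Nat.sqrt N := by
          rw [Nat.le_sqrt']
          omega
        have h7 : N ≤ Nat.sqrt N ^ 4 := by
          have h8 : (Nat.sqrt N + 1) ^ 2 ≤ (2 * Nat.sqrt N) ^ 2 :=
            Nat.pow_le_pow_left (by omega) 2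
          have h9 : (2 * Nat.sqrt N) ^ 2 ≤ Nat.sqrt N ^ 4 := by
            have : 4 ≤ Nat.sqrt N ^ 2 := by nlinarith
            calc (2 * Nat.sqrt N) ^ 2 = 4 * Nat.sqrt N ^ 2 := by ring
              _ ≤ Nat.sqrt N ^ 2 * Nat.sqrt N ^ 2 := Nat.mul_le_mul_right _ this
              _ = _ := by ring
          omega
        exact_mod_cast h7
      have h5 : Real.log N ≤ 4 * Real.log (Nat.sqrt N) := by
        have h6 := Real.log_le_log hN' h4
        rw [Real.log_pow] at h6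
        exact_mod_cast h6
      linarith
    have hlN : 0 ≤ Real.log N := Real.log_nonneg (by exact_mod_cast hN0)
    have h4 : (1 / 4) ^ β * Real.log N ^ β ≤ Real.log (Nat.sqrt N) ^ β := by
      rw [← Real.mul_rpow (by norm_num) hlN]
      exact Real.rpow_le_rpow (by positivity) hlog hβ0.le
    have h5 : (c₁ ^ 4 * (N : ℝ) ^ 2) * (c₂ * ((1 / 4) ^ β * Real.log N ^ β)) ≤
        18 * N * ∑ n ∈ range (2 * N + 1), (rep A n : ℝ) ^ 2 := by
      calc (c₁ ^ 4 * (N : ℝ) ^ 2) * (c₂ * ((1 / 4) ^ β * Real.log N ^ β))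
          ≤ (c₁ ^ 4 * (N : ℝ) ^ 2) * (c₂ * Real.log (Nat.sqrt N) ^ β) := by
            apply mul_le_mul_of_nonneg_left _ (by positivity)
            exact mul_le_mul_of_nonneg_left h4 hc₂.le
        _ ≤ (c₁ ^ 4 * (N : ℝ) ^ 2) *
            ∑ q ∈ (Icc 1 (Nat.sqrt N)).filter Squarefree, wt (occ (seg A N)) q :=
            mul_le_mul_of_nonneg_left h2 (by positivity)
        _ ≤ ((A ∩ Set.Icc 1 N).ncard : ℝ) ^ 4 *
            ∑ q ∈ (Icc 1 (Nat.sqrt N)).filter Squarefree, wt (occ (seg A N)) q :=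
            mul_le_mul_of_nonneg_right h3 (Finset.sum_nonneg fun q _ => wt_nonneg _ q)
        _ ≤ _ := h1
    have h6 : (N : ℝ) * (c₁ ^ 4 * c₂ * (1 / 4) ^ β * N * Real.log N ^ β) ≤
        N * (18 * ∑ n ∈ range (2 * N + 1), (rep A n : ℝ) ^ 2) := by
      calc (N : ℝ) * (c₁ ^ 4 * c₂ * (1 / 4) ^ β * N * Real.log N ^ β)
          = (c₁ ^ 4 * (N : ℝ) ^ 2) * (c₂ * ((1 / 4) ^ β * Real.log N ^ β)) := by ring
        _ ≤ _ := h5
        _ = _ := by ring
    have h7 := le_of_mul_le_mul_left h6 hN'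
    calc c₁ ^ 4 * c₂ / 18 * (1 / 4) ^ β * N * Real.log N ^ β
        = (c₁ ^ 4 * c₂ * (1 / 4) ^ β * N * Real.log N ^ β) / 18 := by ring
      _ ≤ _ := by rw [div_le_iff₀ (by norm_num)]; linarith
  set c₃ := c₁ ^ 4 * c₂ / 18 * (1 / 4) ^ β with hc₃
  have hc₃0 : 0 < c₃ := by positivity
  refine ⟨c₃ * (1 / 3) * (1 / 2) ^ β, by positivity, ?_⟩
  rw [frequently_atTop]
  intro B
  have hev := (eventually_ge_atTop ((Q₀ + 1) ^ 2)).and
    ((eventually_ge_atTop 16).and (eventually_ge_atTop B))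
  obtain ⟨N, hN3, hN1, hN2, hN4⟩ := (hfreq.and_eventually hev).exists
  refine ⟨2 * N + 1, by omega, ?_⟩
  refine le_trans ?_ (key N hN1 hN2 hN3)
  have hN16 : (16 : ℝ) ≤ N := by exact_mod_cast hN2
  have h1 : (1 / 3 : ℝ) * ((2 * N + 1 : ℕ) : ℝ) ≤ N := by
    push_cast
    linarith
  have hlN : 0 ≤ Real.log N := Real.log_nonneg (by linarith)
  have h2 : (1 / 2 : ℝ) ^ β * Real.log ((2 * N + 1 : ℕ) : ℝ) ^ β ≤ Real.log N ^ β := by
    have hl0 : 0 ≤ Real.log ((2 * N + 1 : ℕ) : ℝ) := by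
      apply Real.log_nonneg
      push_cast
      linarith
    rw [← Real.mul_rpow (by norm_num) hl0]
    apply Real.rpow_le_rpow (by positivity) _ hβ0.le
    have h3 : Real.log ((2 * N + 1 : ℕ) : ℝ) ≤ Real.log ((N : ℝ) ^ 2) := by
      apply Real.log_le_log (by push_cast; linarith)
      push_cast
      nlinarith
    rw [Real.log_pow] at h3
    push_cast at h3 ⊢
    linarith
  have h3 : 0 ≤ Real.log N ^ β := Real.rpow_nonneg hlN _
  calc c₃ * (1 / 3) * (1 / 2) ^ β * ((2 * N + 1 : ℕ) : ℝ) * Real.log ((2 * N + 1 : ℕ) : ℝ) ^ β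
      = c₃ * ((1 / 3) * ((2 * N + 1 : ℕ) : ℝ)) *
          ((1 / 2) ^ β * Real.log ((2 * N + 1 : ℕ) : ℝ) ^ β) := by ring
    _ ≤ c₃ * ((1 / 3) * ((2 * N + 1 : ℕ) : ℝ)) * Real.log N ^ β :=
        mul_le_mul_of_nonneg_left h2 (by positivity)
    _ ≤ c₃ * N * Real.log N ^ β := by
        apply mul_le_mul_of_nonneg_right _ h3
        exact mul_le_mul_of_nonneg_left h1 hc₃0.le

/-- bounded mean squares: the number of residue classes -/
theorem res_tendsto (A : Set ℕ) (hA : Thick A)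
    (hr : ∃ B : ℝ, ∀ᶠ N : ℕ in atTop, ∑ n ∈ range N, (rep A n : ℝ) ^ 2 ≤ B * N) :
    Tendsto (fun q : ℕ => (res A q : ℝ) / Real.sqrt q) atTop atTop := by
  obtain ⟨c, hc, hfreq⟩ := hA
  obtain ⟨B, hB⟩ := hr
  obtain ⟨N₁, hN₁⟩ := eventually_atTop.1 hB
  have hB0 : ∀ N, N₁ ≤ N → ∑ n ∈ range N, (rep A n : ℝ) ^ 2 ≤ |B| * N := fun N hN =>
    (hN₁ N hN).trans (mul_le_mul_of_nonneg_right (le_abs_self B) (Nat.cast_nonneg _))
  rw [tendsto_atTop]
  intro b
  by_contra hcon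
  rw [not_eventually] at hcon
  set T := max b 1 with hT
  have hT0 : 0 < T := lt_of_lt_of_le one_pos (le_max_right _ _)
  have hne : A.Nonempty := by
    obtain ⟨N, hN1, hN2⟩ := (hfreq.and_eventually (eventually_ge_atTop 1)).exists
    by_contra h
    rw [Set.not_nonempty_iff_eq_empty] at h
    subst h
    simp only [Set.empty_inter, Set.ncard_empty, Nat.cast_zero] at hN1
    have : (0 : ℝ) < N := by exact_mod_cast hN2
    have h2 : 0 < c * Real.sqrt N := by positivity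
    linarith
  have hthin : ∀ Q : ℕ, ∃ q, Q ≤ q ∧ (res A q : ℝ) ≤ T * Real.sqrt q := by
    intro Q
    obtain ⟨q, hq1, hq2⟩ := (frequently_atTop.1 hcon) (Q + 1)
    refine ⟨q, by omega, ?_⟩
    push Not at hq2
    have hq' : (0 : ℝ) < q := by exact_mod_cast (by omega : 0 < q)
    rw [div_lt_iff₀ (Real.sqrt_pos.2 hq')] at hq2
    exact hq2.le.trans (mul_le_mul_of_nonneg_right (le_max_left _ _) (Real.sqrt_nonneg _))
  obtain ⟨m, hm⟩ := exists_nat_gt (216 * |B| * T ^ 2 / c ^ 4)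
  obtain ⟨R, hR, hRF⟩ := thin_moment A hne T hT0 hthin m
  obtain ⟨D, hD⟩ := fourth_moment_fixed R hR
  obtain ⟨N, hN1, hN2, hN3⟩ := (hfreq.and_eventually ((eventually_ge_atTop (D + 1)).and
    (eventually_ge_atTop N₁))).exists
  have hN0 : 0 < N := by omega
  have hN' : (0 : ℝ) < N := by exact_mod_cast hN0
  have hDN : (D : ℝ) ≤ N := by exact_mod_cast (by omega : D ≤ N)
  have h1 := hRF (seg A N) (fun a ha => (mem_seg.1 ha).2)
  have h2 := hD N (seg A N) (seg_sub A N)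
  have h3 : ∑ n ∈ Icc 1 (2 * N), (rF (seg A N) n : ℝ) ^ 2 ≤ |B| * (3 * N) := by
    refine (energy_le A N).trans ((hB0 (2 * N + 1) (by omega)).trans ?_)
    apply mul_le_mul_of_nonneg_left _ (abs_nonneg _)
    have : (1 : ℝ) ≤ N := by exact_mod_cast hN0
    push_cast
    linarith
  have h4 : c ^ 4 * (N : ℝ) ^ 2 ≤ ((seg A N).card : ℝ) ^ 4 := by
    rw [seg_card] at hN1
    have h5 : (c * Real.sqrt N) ^ 4 ≤ ((seg A N).card : ℝ) ^ 4 :=
      pow_le_pow_left₀ (by positivity) hN1 4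
    have h6 : Real.sqrt N ^ 4 = (N : ℝ) ^ 2 := by
      rw [show (4 : ℕ) = 2 * 2 by norm_num, pow_mul, Real.sq_sqrt hN'.le]
    rw [mul_pow, h6] at h5
    exact h5
  have h5 : (m : ℝ) * ((c ^ 4 * (N : ℝ) ^ 2) / (4 * T ^ 2)) ≤ 18 * N * (|B| * (3 * N)) := by
    calc (m : ℝ) * ((c ^ 4 * (N : ℝ) ^ 2) / (4 * T ^ 2))
        ≤ m * (((seg A N).card : ℝ) ^ 4 / (4 * T ^ 2)) := by
          apply mul_le_mul_of_nonneg_left _ (Nat.cast_nonneg _)
          exact div_le_div_of_nonneg_right h4 (by positivity)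
      _ ≤ _ := h1
      _ ≤ _ := h2
      _ ≤ 6 * (2 * N + (D : ℝ)) * (|B| * (3 * N)) :=
          mul_le_mul_of_nonneg_left h3 (by positivity)
      _ ≤ 6 * (2 * N + (N : ℝ)) * (|B| * (3 * N)) := by
          apply mul_le_mul_of_nonneg_right _ (by positivity)
          linarith
      _ = _ := by ring
  rw [div_lt_iff₀ (by positivity)] at hm
  have h8 : (m : ℝ) * ((c ^ 4 * (N : ℝ) ^ 2) / (4 * T ^ 2)) =
      (m * c ^ 4) * (N : ℝ) ^ 2 / (4 * T ^ 2) := by ring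
  rw [h8, div_le_iff₀ (by positivity)] at h5
  have h9 : (216 * |B| * T ^ 2) * (N : ℝ) ^ 2 < (m * c ^ 4) * (N : ℝ) ^ 2 :=
    mul_lt_mul_of_pos_right hm (by positivity)
  have h10 : 18 * N * (|B| * (3 * N)) * (4 * T ^ 2) = (216 * |B| * T ^ 2) * (N : ℝ) ^ 2 := by ring
  linarith

end Pool.Agent.TH314.ET
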