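import Mathlib
import Pool.Agent.TH314.ET.Equi

/-!
# The hypotheses of the two forms of the Erdős–Turán conjecture imply `Thick`
-/

set_option autoImplicit false

open Finset Filter Topology

namespace Pool.Agent.TH314.ET

/-- `r_A(n) ≥ 1` for all large `n` -/
def IsBasis (A : Set ℕ) : Prop := ∃ n₀ : ℕ, ∀ n, n₀ ≤ n → 1 ≤ rep A n

/-- `A` is infinite and `a_n ≤ C n ^ 2` for all `n ≥ 1`, where `a_1 < a_2 < ...` are the elements
of `A` -/
def QuadGrowth (A : Set ℕ) : Prop :=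
  A.Infinite ∧ ∃ C : ℝ, ∀ n : ℕ, 1 ≤ n → (Nat.nth (· ∈ A) (n - 1) : ℝ) ≤ C * (n : ℝ) ^ 2

theorem basis_lower (A : Set ℕ) (h : IsBasis A) : ∀ᶠ N : ℕ in atTop,
    (1 / 3) * Real.sqrt N ≤ ((A ∩ Set.Icc 1 N).ncard : ℝ) := by
  classical
  obtain ⟨n₀, hn₀⟩ := h
  filter_upwards [eventually_ge_atTop (4 * n₀ + 36)] with N hN
  have hrep : ∀ n, n₀ ≤ n → ∃ x : ℕ × ℕ, x.1 ∈ A ∧ x.2 ∈ A ∧ x.1 + x.2 = n := by
    intro n hn
    have h1 := hn₀ n hn
    have h2 : {p : ℕ × ℕ | p.1 ∈ A ∧ p.2 ∈ A ∧ p.1 + p.2 = n}.Nonempty := by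
      by_contra h3
      rw [Set.not_nonempty_iff_eq_empty] at h3
      rw [rep, h3, Set.ncard_empty] at h1
      omega
    exact h2
  set G : Finset ℕ := insert 0 (seg A N) with hG
  have h1 : N + 1 - n₀ ≤ G.card ^ 2 := by
    have h2 : ∀ n : ℕ, ∃ x : ℕ × ℕ, n₀ ≤ n → x.1 ∈ A ∧ x.2 ∈ A ∧ x.1 + x.2 = n := by
      intro n
      by_cases hn : n₀ ≤ n
      · obtain ⟨x, hx⟩ := hrep n hn
        exact ⟨x, fun _ => hx⟩
      · exact ⟨(0, 0), fun h => absurd h hn⟩
    choose f hf using h2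
    have h3 : (Finset.Icc n₀ N).image f ⊆ G ×ˢ G := by
      intro x hx
      obtain ⟨n, hn, rfl⟩ := Finset.mem_image.1 hx
      rw [mem_Icc] at hn
      obtain ⟨h4, h5, h6⟩ := hf n hn.1
      have key : ∀ a, a ∈ A → a ≤ N → a ∈ G := by
        intro a ha haN
        rcases Nat.eq_zero_or_pos a with h | h
        · rw [h]; exact mem_insert_self _ _
        · exact mem_insert_of_mem (mem_seg.2 ⟨⟨h, haN⟩, ha⟩)
      exact mem_product.2 ⟨key _ h4 (by omega), key _ h5 (by omega)⟩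
    have h4 := Finset.card_le_card h3
    rw [card_product, Finset.card_image_of_injOn, Nat.card_Icc, ← sq] at h4
    · exact h4
    · intro a ha b hb hab
      rw [Finset.mem_coe, mem_Icc] at ha hb
      have h5 := (hf a ha.1).2.2
      have h6 := (hf b hb.1).2.2
      rw [← h5, ← h6, hab]
  have h2 : G.card ≤ (seg A N).card + 1 := Finset.card_insert_le _ _
  have h3 : 3 * N ≤ 4 * ((seg A N).card + 1) ^ 2 := by
    have h4 : G.card ^ 2 ≤ ((seg A N).card + 1) ^ 2 := Nat.pow_le_pow_left h2 2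
    omega
  rw [seg_card]
  set u : ℝ := ((seg A N).card : ℝ) with hu
  have h4 : 3 * (N : ℝ) ≤ 4 * (u + 1) ^ 2 := by
    rw [hu]
    exact_mod_cast h3
  have hu0 : 0 ≤ u := Nat.cast_nonneg _
  have hN' : (36 : ℝ) ≤ N := by exact_mod_cast (by omega : 36 ≤ N)
  set s := Real.sqrt N with hs
  have hs2 : s ^ 2 = N := Real.sq_sqrt (by linarith)
  have hs0 : 0 ≤ s := Real.sqrt_nonneg _
  have hs6 : 6 ≤ s := Real.le_sqrt_of_sq_le (by linarith)
  -- `(3/4) s² ≤ (u+1)²`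
  have h5 : (5 / 6) * s ≤ u + 1 := by
    by_contra hcon
    push Not at hcon
    have h6 : (u + 1) ^ 2 < ((5 / 6) * s) ^ 2 := pow_lt_pow_left₀ hcon (by linarith) (by norm_num)
    nlinarith
  linarith

theorem thick_of_basis (A : Set ℕ) (h : IsBasis A) : Thick A :=
  ⟨1 / 3, by norm_num, (basis_lower A h).frequently⟩

theorem growth_lower (A : Set ℕ) (h : QuadGrowth A) : ∃ c : ℝ, 0 < c ∧ ∀ᶠ N : ℕ in atTop,
    c * Real.sqrt N ≤ ((A ∩ Set.Icc 1 N).ncard : ℝ) := by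
  classical
  obtain ⟨hinf, C, hC⟩ := h
  set D : ℝ := max C 1 with hD
  have hD1 : 1 ≤ D := le_max_right _ _
  have hD0 : 0 < D := by linarith
  refine ⟨1 / (3 * Real.sqrt D), by positivity, ?_⟩
  have hsD : 1 ≤ Real.sqrt D := Real.one_le_sqrt.2 hD1
  obtain ⟨B, hB⟩ := exists_nat_gt (36 * D)
  filter_upwards [eventually_ge_atTop B] with N hN
  have hN' : 36 * D ≤ N := hB.le.trans (by exact_mod_cast hN)
  set y : ℝ := Real.sqrt N / Real.sqrt D with hy
  have hy6 : 6 ≤ y := by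
    rw [hy, ← Real.sqrt_div' _ hD0.le]
    apply Real.le_sqrt_of_sq_le
    rw [le_div_iff₀ hD0]
    linarith
  set j := ⌊y⌋₊ with hj
  have hjy : (j : ℝ) ≤ y := Nat.floor_le (by linarith)
  have hyj : y < j + 1 := Nat.lt_floor_add_one y
  -- the first `j` elements are at most `N`
  have h1 : ∀ i, i < j → Nat.nth (· ∈ A) i ≤ N := by
    intro i hi
    have h2 := hC (i + 1) (by omega)
    rw [Nat.add_sub_cancel] at h2
    have h3 : ((i + 1 : ℕ) : ℝ) ≤ y := by
      have : ((i + 1 : ℕ) : ℝ) ≤ j := by exact_mod_cast hi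
      linarith
    have h4 : C * ((i + 1 : ℕ) : ℝ) ^ 2 ≤ N := by
      calc C * ((i + 1 : ℕ) : ℝ) ^ 2 ≤ D * ((i + 1 : ℕ) : ℝ) ^ 2 :=
            mul_le_mul_of_nonneg_right (le_max_left _ _) (by positivity)
        _ ≤ D * y ^ 2 := by
            apply mul_le_mul_of_nonneg_left _ hD0.le
            exact pow_le_pow_left₀ (Nat.cast_nonneg _) h3 2
        _ = N := by
            rw [hy, div_pow, Real.sq_sqrt (Nat.cast_nonneg _), Real.sq_sqrt hD0.le]
            field_simp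
    exact_mod_cast h2.trans h4
  have h2 : j ≤ (seg A N).card + 1 := by
    have h3 : ((Finset.range j).image (Nat.nth (· ∈ A))) ⊆ insert 0 (seg A N) := by
      intro a ha
      obtain ⟨i, hi, rfl⟩ := Finset.mem_image.1 ha
      rw [mem_range] at hi
      have h4 : Nat.nth (· ∈ A) i ∈ A := Nat.nth_mem_of_infinite (p := fun x => x ∈ A) hinf i
      rcases Nat.eq_zero_or_pos (Nat.nth (· ∈ A) i) with h | h
      · rw [h]; exact mem_insert_self _ _
      · exact mem_insert_of_mem (mem_seg.2 ⟨⟨h, h1 i hi⟩, h4⟩)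
    have h4 := (Finset.card_le_card h3).trans (Finset.card_insert_le _ _)
    rwa [Finset.card_image_of_injective _ (Nat.nth_injective (p := fun x => x ∈ A) hinf),
      Finset.card_range] at h4
  rw [seg_card]
  have h3 : (j : ℝ) ≤ ((seg A N).card : ℝ) + 1 := by exact_mod_cast h2
  have h4 : 1 / (3 * Real.sqrt D) * Real.sqrt N = y / 3 := by
    rw [hy]
    field_simp
  rw [h4]
  linarith

theorem thick_of_growth (A : Set ℕ) (h : QuadGrowth A) : Thick A := by
  obtain ⟨c, hc, h1⟩ := growth_lower A h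
  exact ⟨c, hc, h1.frequently⟩

end Pool.Agent.TH314.ET
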