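import Mathlib
import Pool.Agent.TH314.ET.Hyp

/-!
# The large spectrum is covered by few short intervals
-/

set_option autoImplicit false

open Finset Filter Topology

namespace Pool.Agent.TH314.ET

open Pool.Agent.Helper112

/-- the large sieve for separated points -/
theorem fourth_sep {F : Finset ℕ} {N : ℕ} (hN : 1 ≤ N) (hF : F ⊆ Icc 1 N) (Z : Finset ℝ)
    (hZ : ∀ r ∈ Z, ∀ s ∈ Z, r ≠ s → lsSep N (s - r)) :
    ∑ x ∈ Z, ‖Sf (ind F) x‖ ^ 4 ≤ 18 * N * ∑ n ∈ Icc 1 (2 * N), (rF F n : ℝ) ^ 2 := by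
  classical
  have h := ls_general Z (fun x : ℝ => x) N (2 * N) hN hZ (fun n => (rF F n : ℂ))
  push_cast at h
  have h1 : ∑ n ∈ Icc 1 (2 * N), ‖(rF F n : ℂ)‖ ^ 2 = ∑ n ∈ Icc 1 (2 * N), (rF F n : ℝ) ^ 2 := by
    refine Finset.sum_congr rfl fun n _ => ?_
    rw [Complex.norm_natCast]
  rw [h1] at h
  have h2 : ∑ x ∈ Z, ‖Sf (ind F) x‖ ^ 4 =
      ∑ x ∈ Z, ‖∑ n ∈ Icc 1 (2 * N), (rF F n : ℂ) * ee (n * x)‖ ^ 2 := by
    refine Finset.sum_congr rfl fun x _ => ?_
    rw [← Sf_ind_sq hF, norm_pow, ← pow_mul]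
  rw [h2]
  refine h.trans (le_of_eq ?_)
  ring

theorem fract_sub_of_le {x z : ℝ} (hx1 : x < 1) (hz0 : 0 ≤ z) (h : z ≤ x) :
    Int.fract (x - z) = x - z := by
  rw [Int.fract_eq_self]
  constructor <;> linarith

/-- points which are not separated are close modulo one -/
theorem close_of_not_sep {N : ℕ} (hN : 1 ≤ N) {x z : ℝ} (hx0 : 0 ≤ x) (hx1 : x < 1)
    (hz0 : 0 ≤ z) (hz1 : z < 1) (h : ¬ lsSep N (x - z)) :
    |x - z| ≤ 1 / N ∨ |x - (z + 1)| ≤ 1 / N ∨ |x - (z - 1)| ≤ 1 / N := by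
  have hNr : (0 : ℝ) < N := by exact_mod_cast hN
  have hN0 : (0 : ℝ) < 1 / N := by positivity
  have hN1 : (1 : ℝ) / N ≤ 1 := by
    rw [div_le_one hNr]
    exact_mod_cast hN
  unfold lsSep at h
  rw [not_and_or, not_le, not_le] at h
  rcases le_or_gt z x with hzx | hzx
  · rw [fract_sub_of_le hx1 hz0 hzx] at h
    rcases h with h | h
    · left
      rw [abs_le]
      constructor <;> linarith
    · right; left
      rw [abs_le]
      constructor <;> linarith
  · have h1 : Int.fract (x - z) = x - z + 1 := by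
      rw [Int.fract_eq_iff]
      refine ⟨by linarith, by linarith, -1, ?_⟩
      push_cast
      ring
    rw [h1] at h
    rcases h with h | h
    · right; right
      rw [abs_le]
      constructor <;> linarith
    · left
      rw [abs_le]
      constructor <;> linarith

/-- the large spectrum is covered by few short intervals -/
theorem spectrum_cover {F : Finset ℕ} {N : ℕ} (hN : 1 ≤ N) (hF : F ⊆ Icc 1 N) {ε : ℝ} (hε : 0 < ε)
    (hF0 : F.Nonempty) (J : ℕ)
    (hJ : 18 * N * ∑ n ∈ Icc 1 (2 * N), (rF F n : ℝ) ^ 2 ≤ J * (ε * F.card) ^ 4) :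
    ∃ C : Finset ℝ, C.card ≤ 3 * J ∧ ∀ x : ℝ, 0 ≤ x → x < 1 → ε * F.card ≤ ‖Sf (ind F) x‖ →
      ∃ c ∈ C, |x - c| ≤ 1 / N := by
  classical
  have hc : (0 : ℝ) < F.card := by exact_mod_cast Finset.card_pos.2 hF0
  set Good : Finset ℝ → Prop := fun Z => (∀ x ∈ Z, 0 ≤ x ∧ x < 1 ∧ ε * F.card ≤ ‖Sf (ind F) x‖) ∧
    ∀ r ∈ Z, ∀ s ∈ Z, r ≠ s → lsSep N (s - r) with hGood
  have hbound : ∀ Z, Good Z → Z.card ≤ J := by
    intro Z hZ
    have h1 := fourth_sep hN hF Z hZ.2
    have h2 : (Z.card : ℝ) * (ε * F.card) ^ 4 ≤ ∑ x ∈ Z, ‖Sf (ind F) x‖ ^ 4 := by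
      rw [← nsmul_eq_mul, ← Finset.sum_const]
      exact Finset.sum_le_sum fun x hx => pow_le_pow_left₀ (by positivity) (hZ.1 x hx).2.2 4
    have h3 : (Z.card : ℝ) * (ε * F.card) ^ 4 ≤ J * (ε * F.card) ^ 4 := h2.trans (h1.trans hJ)
    have h4 : (Z.card : ℝ) ≤ J := le_of_mul_le_mul_right h3 (by positivity)
    exact_mod_cast h4
  -- a maximal good set
  obtain ⟨Z, hZ, hmax⟩ : ∃ Z, Good Z ∧ ∀ Z', Good Z' → Z'.card ≤ Z.card := by
    have hne : ∃ m, ∃ Z, Good Z ∧ Z.card = m := ⟨0, ∅, ⟨by simp, by simp⟩, rfl⟩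
    have hb : ∀ m, (∃ Z, Good Z ∧ Z.card = m) → m ≤ J := by
      rintro m ⟨Z, h1, rfl⟩
      exact hbound Z h1
    set m := Nat.findGreatest (fun m => ∃ Z, Good Z ∧ Z.card = m) J with hm
    obtain ⟨m₀, hm₀⟩ := hne
    have hP : ∃ Z, Good Z ∧ Z.card = m :=
      Nat.findGreatest_spec (P := fun m => ∃ Z, Good Z ∧ Z.card = m) (hb m₀ hm₀) hm₀
    obtain ⟨Z, h1, h2⟩ := hP
    refine ⟨Z, h1, fun Z' h3 => ?_⟩
    rw [h2]
    exact Nat.le_findGreatest (hbound Z' h3) ⟨Z', h3, rfl⟩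
  refine ⟨Z ∪ (Z.image (fun z => z + 1) ∪ Z.image (fun z => z - 1)), ?_, ?_⟩
  · have h1 := Finset.card_union_le Z (Z.image (fun z => z + 1) ∪ Z.image (fun z => z - 1))
    have h2 := Finset.card_union_le (Z.image (fun z => z + 1)) (Z.image (fun z => z - 1))
    have h3 : (Z.image (fun z => z + 1)).card ≤ Z.card := Finset.card_image_le
    have h4 : (Z.image (fun z => z - 1)).card ≤ Z.card := Finset.card_image_le
    have h5 := hbound Z hZ
    omega
  · intro x hx0 hx1 hx
    have key : ∃ z ∈ Z, |x - z| ≤ 1 / N ∨ |x - (z + 1)| ≤ 1 / N ∨ |x - (z - 1)| ≤ 1 / N := by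
      by_cases hxZ : x ∈ Z
      · refine ⟨x, hxZ, Or.inl ?_⟩
        rw [sub_self, abs_zero]
        positivity
      · by_contra hcon
        push Not at hcon
        have hgood : Good (insert x Z) := by
          have hsep : ∀ z ∈ Z, lsSep N (x - z) := by
            intro z hz
            by_contra h1
            have h2 := close_of_not_sep hN hx0 hx1 (hZ.1 z hz).1 (hZ.1 z hz).2.1 h1
            obtain ⟨h3, h4, h5⟩ := hcon z hz
            rcases h2 with h2 | h2 | h2
            · linarith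
            · linarith
            · linarith
          refine ⟨?_, ?_⟩
          · intro y hy
            rcases Finset.mem_insert.1 hy with rfl | h
            · exact ⟨hx0, hx1, hx⟩
            · exact hZ.1 y h
          · intro r hr s hs hrs
            rcases Finset.mem_insert.1 hr with rfl | hr'
            · rcases Finset.mem_insert.1 hs with rfl | hs'
              · exact absurd rfl hrs
              · have h1 := (lsSep_neg hN (hsep s hs')).1
                rwa [neg_sub] at h1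
            · rcases Finset.mem_insert.1 hs with rfl | hs'
              · exact hsep r hr'
              · exact hZ.2 r hr' s hs' hrs
        have h1 := hmax _ hgood
        rw [Finset.card_insert_of_notMem hxZ] at h1
        omega
    obtain ⟨z, hz, h1 | h1 | h1⟩ := key
    · exact ⟨z, mem_union_left _ hz, h1⟩
    · exact ⟨z + 1, mem_union_right _ (mem_union_left _ (mem_image_of_mem _ hz)), h1⟩
    · exact ⟨z - 1, mem_union_right _ (mem_union_right _ (mem_image_of_mem _ hz)), h1⟩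

end Pool.Agent.TH314.ET
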