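import Mathlib

/-!
# Limsup sets of few intervals of geometrically decreasing lengths have Hausdorff dimension zero
-/

set_option autoImplicit false

open Finset Filter Topology MeasureTheory MeasureTheory.Measure
open scoped ENNReal NNReal

namespace Pool.Agent.TH314.ET

theorem exists_enum (C : Finset ℝ) (J : ℕ) (h : C.card ≤ J) :
    ∃ f : Fin J → ℝ, ∀ c ∈ C, ∃ j, f j = c := by
  classical
  refine ⟨fun j => C.toList.getD j 0, fun c hc => ?_⟩
  obtain ⟨i, hi, h1⟩ := List.getElem_of_mem (Finset.mem_toList.2 hc)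
  have hl : C.toList.length = C.card := Finset.length_toList C
  refine ⟨⟨i, by omega⟩, ?_⟩
  simp only
  rw [List.getD_eq_getElem _ _ hi]
  exact h1

theorem measure_zero_of_covers (E : Set ℝ) (J : ℕ) (C : ℕ → Fin J → ℝ) (D b : ℝ) (hD : 0 ≤ D)
    (hb0 : 0 < b) (hb1 : b < 1)
    (hE : ∀ x ∈ E, ∃ᶠ i in atTop, ∃ j, |x - C i j| ≤ D * b ^ i) (d : ℝ) (hd : 0 < d) :
    μH[d] E = 0 := by
  set t : ℕ → ℕ × Fin J → Set ℝ := fun m p =>
    Set.Icc (C (m + p.1) p.2 - D * b ^ (m + p.1)) (C (m + p.1) p.2 + D * b ^ (m + p.1)) with ht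
  have hdiam : ∀ m p, Metric.ediam (t m p) = ENNReal.ofReal (2 * D * b ^ (m + p.1)) := by
    intro m p
    simp only [ht]
    rw [Real.ediam_Icc]
    congr 1
    ring
  have hpow : ∀ m (p : ℕ × Fin J), Metric.ediam (t m p) ^ d =
      ENNReal.ofReal ((b ^ d) ^ m) * ENNReal.ofReal ((2 * D) ^ d * (b ^ d) ^ p.1) := by
    intro m p
    rw [hdiam, ENNReal.ofReal_rpow_of_nonneg (by positivity) hd.le,
      ← ENNReal.ofReal_mul (by positivity)]
    congr 1
    rw [Real.mul_rpow (by positivity) (by positivity), ← Real.rpow_natCast b,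
      ← Real.rpow_mul hb0.le, mul_comm ((m + p.1 : ℕ) : ℝ) d, Real.rpow_mul hb0.le,
      Real.rpow_natCast, pow_add]
    ring
  have hbd0 : 0 < b ^ d := by positivity
  have hbd1 : b ^ d < 1 := Real.rpow_lt_one hb0.le hb1 hd
  have hsum : Summable fun p : ℕ × Fin J => (2 * D) ^ d * (b ^ d) ^ p.1 := by
    have h1 : Summable fun i : ℕ => (2 * D) ^ d * (b ^ d) ^ i :=
      (summable_geometric_of_lt_one hbd0.le hbd1).mul_left _
    have h2 : Summable fun _ : Fin J => (1 : ℝ) := Summable.of_finite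
    have h3 := Summable.mul_of_nonneg h1 h2 (fun i => by positivity) (fun _ => by norm_num)
    refine h3.congr fun p => ?_
    rw [mul_one]
  have hK : ∑' p : ℕ × Fin J, ENNReal.ofReal ((2 * D) ^ d * (b ^ d) ^ p.1) ≠ ∞ :=
    hsum.tsum_ofReal_ne_top
  have hlim : Tendsto (fun m => ∑' p, Metric.ediam (t m p) ^ d) atTop (𝓝 0) := by
    have h1 : ∀ m, ∑' p, Metric.ediam (t m p) ^ d = ENNReal.ofReal ((b ^ d) ^ m) *
        ∑' p : ℕ × Fin J, ENNReal.ofReal ((2 * D) ^ d * (b ^ d) ^ p.1) := by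
      intro m
      rw [← ENNReal.tsum_mul_left]
      exact tsum_congr fun p => hpow m p
    simp_rw [h1]
    have h2 : Tendsto (fun m : ℕ => ENNReal.ofReal ((b ^ d) ^ m)) atTop (𝓝 0) := by
      have h3 := tendsto_pow_atTop_nhds_zero_of_lt_one hbd0.le hbd1
      have h4 := ENNReal.tendsto_ofReal h3
      rwa [ENNReal.ofReal_zero] at h4
    have h3 := ENNReal.Tendsto.mul_const h2 (Or.inr hK)
    rwa [zero_mul] at h3
  have hr : Tendsto (fun m : ℕ => ENNReal.ofReal (2 * D * b ^ m)) atTop (𝓝 0) := by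
    have h1 : Tendsto (fun m : ℕ => 2 * D * b ^ m) atTop (𝓝 (2 * D * 0)) :=
      (tendsto_pow_atTop_nhds_zero_of_lt_one hb0.le hb1).const_mul _
    have h2 := ENNReal.tendsto_ofReal h1
    rwa [mul_zero, ENNReal.ofReal_zero] at h2
  have hmain := hausdorffMeasure_le_liminf_tsum (ι := fun _ : ℕ => ℕ × Fin J) d E (l := atTop)
    (fun m : ℕ => ENNReal.ofReal (2 * D * b ^ m)) hr t ?_ ?_
  · rw [hlim.liminf_eq] at hmain
    exact le_antisymm hmain zero_le
  · refine Eventually.of_forall fun m p => ?_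
    rw [hdiam]
    apply ENNReal.ofReal_le_ofReal
    have h1 : b ^ (m + p.1) ≤ b ^ m := pow_le_pow_of_le_one hb0.le hb1.le (by omega)
    exact mul_le_mul_of_nonneg_left h1 (by positivity)
  · refine Eventually.of_forall fun m x hx => ?_
    obtain ⟨i, hi, j, hj⟩ := (frequently_atTop.1 (hE x hx)) m
    rw [Set.mem_iUnion]
    refine ⟨(i - m, j), ?_⟩
    simp only [ht]
    have h1 : m + (i - m) = i := by omega
    rw [h1, Set.mem_Icc]
    rw [abs_le] at hj
    constructor <;> linarith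

theorem dimH_zero_of_covers (E : Set ℝ) (J : ℕ) (C : ℕ → Fin J → ℝ) (D b : ℝ) (hD : 0 ≤ D)
    (hb0 : 0 < b) (hb1 : b < 1)
    (hE : ∀ x ∈ E, ∃ᶠ i in atTop, ∃ j, |x - C i j| ≤ D * b ^ i) : dimH E = 0 := by
  rw [← nonpos_iff_eq_zero]
  refine le_of_forall_pos_le_add ?_
  intro ε hε
  rw [zero_add]
  rcases eq_or_ne ε ⊤ with h | h
  · rw [h]; exact le_top
  · lift ε to ℝ≥0 using h
    have hε' : 0 < (ε : ℝ) := by exact_mod_cast hε
    have h1 := measure_zero_of_covers E J C D b hD hb0 hb1 hE ε hε'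
    apply dimH_le_of_hausdorffMeasure_ne_top
    rw [h1]
    exact ENNReal.zero_ne_top

end Pool.Agent.TH314.ET
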