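import Mathlib
import Pool.Agent.TH314.ET.Cover
import Pool.Agent.TH314.ET.Haus

/-!
# The exceptional set of frequencies has Hausdorff dimension zero
-/

set_option autoImplicit false

open Finset Filter Topology

namespace Pool.Agent.TH314.ET

open Pool.Agent.Helper112

/-- at least `c √N` elements up to `N`, for all large `N` -/
def Dense2 (A : Set ℕ) : Prop :=
  ∃ c : ℝ, 0 < c ∧ ∀ᶠ N : ℕ in atTop, c * Real.sqrt N ≤ ((A ∩ Set.Icc 1 N).ncard : ℝ)

/-- the representation function is bounded in mean square -/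
def MeanSq (A : Set ℕ) : Prop :=
  ∃ B : ℝ, ∀ᶠ N : ℕ in atTop, ∑ n ∈ range N, (rep A n : ℝ) ^ 2 ≤ B * N

theorem seg_mono (A : Set ℕ) {M N : ℕ} (h : M ≤ N) : seg A M ⊆ seg A N := by
  intro a ha
  rw [mem_seg] at ha ⊢
  exact ⟨⟨ha.1.1, ha.1.2.trans h⟩, ha.2⟩

theorem Sf_seg_le (A : Set ℕ) {M N : ℕ} (h : M ≤ N) (x : ℝ) :
    ‖Sf (ind (seg A N)) x‖ ≤ ‖Sf (ind (seg A M)) x‖ + ((seg A N \ seg A M).card : ℝ) := by
  classical
  rw [Sf_ind, Sf_ind]
  have h1 : ∑ a ∈ seg A N, ee (a * x) =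
      ∑ a ∈ seg A M, ee (a * x) + ∑ a ∈ seg A N \ seg A M, ee (a * x) := by
    rw [add_comm]
    exact (Finset.sum_sdiff (seg_mono A h)).symm
  rw [h1]
  refine (norm_add_le _ _).trans ?_
  have h2 : ‖∑ a ∈ seg A N \ seg A M, ee (a * x)‖ ≤ ((seg A N \ seg A M).card : ℝ) := by
    refine (norm_sum_le _ _).trans ?_
    simp [ls_norm_ee]
  linarith

/-- few elements in short intervals -/
theorem increment (A : Set ℕ) {M N : ℕ} (h : M ≤ N) :
    (((seg A N \ seg A M).card : ℝ)) ^ 4 ≤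
      (2 * N - 2 * M : ℝ) * ∑ n ∈ range (2 * N + 1), (rep A n : ℝ) ^ 2 := by
  classical
  set G := seg A N \ seg A M with hG
  have hGm : ∀ a ∈ G, M < a ∧ a ≤ N ∧ a ∈ A := by
    intro a ha
    rw [hG, Finset.mem_sdiff, mem_seg, mem_seg] at ha
    obtain ⟨⟨⟨h1, h2⟩, h3⟩, h4⟩ := ha
    refine ⟨?_, h2, h3⟩
    by_contra h5
    exact h4 ⟨⟨h1, by omega⟩, h3⟩
  have h1 : G.card ^ 2 = ∑ n ∈ Ioc (2 * M) (2 * N), rF G n := by
    unfold rF
    rw [sq, ← card_product]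
    rw [Finset.card_eq_sum_card_fiberwise (f := fun x : ℕ × ℕ => x.1 + x.2)
      (t := Ioc (2 * M) (2 * N))]
    intro x hx
    rw [Finset.mem_coe, mem_product] at hx
    have h1 := hGm _ hx.1
    have h2 := hGm _ hx.2
    rw [Finset.mem_coe, mem_Ioc]
    show 2 * M < x.1 + x.2 ∧ x.1 + x.2 ≤ 2 * N
    omega
  have h2 : (G.card : ℝ) ^ 2 ≤ ∑ n ∈ Ioc (2 * M) (2 * N), (rep A n : ℝ) := by
    have h3 : ((G.card ^ 2 : ℕ) : ℝ) = ((∑ n ∈ Ioc (2 * M) (2 * N), rF G n : ℕ) : ℝ) := by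
      rw [h1]
    push_cast at h3
    rw [h3]
    exact Finset.sum_le_sum fun n _ => by
      exact_mod_cast rF_le_rep (fun a ha => (hGm a ha).2.2) n
  have h3 : (∑ n ∈ Ioc (2 * M) (2 * N), (rep A n : ℝ)) ^ 2 ≤
      (2 * N - 2 * M : ℝ) * ∑ n ∈ Ioc (2 * M) (2 * N), (rep A n : ℝ) ^ 2 := by
    have h4 := sq_sum_le_card_mul_sum_sq (s := Ioc (2 * M) (2 * N)) (f := fun n => (rep A n : ℝ))
    rw [Nat.card_Ioc, Nat.cast_sub (by omega)] at h4
    push_cast at h4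
    exact h4
  have h4 : ∑ n ∈ Ioc (2 * M) (2 * N), (rep A n : ℝ) ^ 2 ≤
      ∑ n ∈ range (2 * N + 1), (rep A n : ℝ) ^ 2 := by
    apply Finset.sum_le_sum_of_subset_of_nonneg
    · intro n hn
      rw [mem_Ioc] at hn
      rw [mem_range]
      omega
    · exact fun n _ _ => by positivity
  have hMN : (0 : ℝ) ≤ 2 * N - 2 * M := by
    have : (M : ℝ) ≤ N := by exact_mod_cast h
    linarith
  calc (G.card : ℝ) ^ 4 = ((G.card : ℝ) ^ 2) ^ 2 := by ring
    _ ≤ (∑ n ∈ Ioc (2 * M) (2 * N), (rep A n : ℝ)) ^ 2 := pow_le_pow_left₀ (by positivity) h2 2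
    _ ≤ _ := h3
    _ ≤ _ := mul_le_mul_of_nonneg_left h4 hMN

/-- frequencies in `[0, 1)` with large exponential sums for infinitely many `N` -/
def Ex1 (A : Set ℕ) (ε : ℝ) : Set ℝ :=
  {x | 0 ≤ x ∧ x < 1 ∧ ∃ᶠ N : ℕ in atTop, 2 * ε * (seg A N).card ≤ ‖Sf (ind (seg A N)) x‖}

theorem ex1_dim (A : Set ℕ) (hA : Dense2 A) (hr : MeanSq A) {ε : ℝ} (hε : 0 < ε) :
    dimH (Ex1 A ε) = 0 := by
  classical
  obtain ⟨c, hc, hev⟩ := hA
  obtain ⟨B, hB⟩ := hr
  obtain ⟨N₁, hN₁⟩ := eventually_atTop.1 (hB.and hev)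
  set B' := max B 1 with hB'
  have hB1 : 0 < B' := lt_of_lt_of_le one_pos (le_max_right _ _)
  have hsum : ∀ N, N₁ ≤ N → 1 ≤ N → ∑ n ∈ range (2 * N + 1), (rep A n : ℝ) ^ 2 ≤ 3 * B' * N := by
    intro N hN hN1
    have h1 := (hN₁ (2 * N + 1) (by omega)).1
    have h2 : (1 : ℝ) ≤ N := by exact_mod_cast hN1
    push_cast at h1
    have h3 : B * (2 * (N : ℝ) + 1) ≤ B' * (2 * (N : ℝ) + 1) :=
      mul_le_mul_of_nonneg_right (le_max_left _ _) (by positivity)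
    have h4 : B' * (2 * (N : ℝ) + 1) ≤ B' * (3 * N) :=
      mul_le_mul_of_nonneg_left (by linarith) hB1.le
    linarith
  have hcard : ∀ N, N₁ ≤ N → c ^ 4 * (N : ℝ) ^ 2 ≤ ((seg A N).card : ℝ) ^ 4 := by
    intro N hN
    have h1 := (hN₁ N hN).2
    rw [seg_card] at h1
    have h5 : (c * Real.sqrt N) ^ 4 ≤ ((seg A N).card : ℝ) ^ 4 :=
      pow_le_pow_left₀ (by positivity) h1 4
    have h6 : Real.sqrt N ^ 4 = (N : ℝ) ^ 2 := by
      rw [show (4 : ℕ) = 2 * 2 by norm_num, pow_mul, Real.sq_sqrt (Nat.cast_nonneg _)]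
    rw [mul_pow, h6] at h5
    exact h5
  -- the grid
  set τ := min 1 (ε ^ 4 * c ^ 4 / (12 * B')) with hτ
  have hτ0 : 0 < τ := lt_min one_pos (by positivity)
  have hτ1 : τ ≤ 1 := min_le_left _ _
  have hτ2 : τ * (12 * B') ≤ ε ^ 4 * c ^ 4 := by
    have := min_le_right (1 : ℝ) (ε ^ 4 * c ^ 4 / (12 * B'))
    rwa [← hτ, le_div_iff₀ (by positivity)] at this
  set g : ℕ → ℕ := fun i => ⌈(1 + τ) ^ i⌉₊ with hg
  have hg1 : ∀ i, (1 + τ) ^ i ≤ g i := fun i => Nat.le_ceil _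
  have hgpos : ∀ i, 1 ≤ g i := by
    intro i
    have h1 : (1 : ℝ) ≤ (1 + τ) ^ i := one_le_pow₀ (by linarith)
    have h2 : (1 : ℝ) ≤ g i := h1.trans (hg1 i)
    exact_mod_cast h2
  -- the number of intervals
  obtain ⟨J, hJ⟩ := exists_nat_ge (54 * B' / (ε ^ 4 * c ^ 4))
  rw [div_le_iff₀ (by positivity)] at hJ
  have hcov : ∀ i, ∃ f : Fin (3 * J) → ℝ, N₁ ≤ g i → ∀ x : ℝ, 0 ≤ x → x < 1 →
      ε * (seg A (g i)).card ≤ ‖Sf (ind (seg A (g i))) x‖ → ∃ j, |x - f j| ≤ 1 / (g i : ℝ) := by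
    intro i
    by_cases hi : N₁ ≤ g i
    · set N := g i with hN
      have hNpos : (0 : ℝ) < N := by exact_mod_cast hgpos i
      have h1 := hcard N hi
      have hFpos : (0 : ℝ) < ((seg A N).card : ℝ) := by
        by_contra h
        have h2 : ((seg A N).card : ℝ) = 0 := le_antisymm (not_lt.1 h) (Nat.cast_nonneg _)
        rw [h2] at h1
        have h3 : 0 < c ^ 4 * (N : ℝ) ^ 2 := by positivity
        norm_num at h1
        linarith
      have hFne : (seg A N).Nonempty := Finset.card_pos.1 (by exact_mod_cast hFpos)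
      have h2 : 18 * N * ∑ n ∈ Icc 1 (2 * N), (rF (seg A N) n : ℝ) ^ 2 ≤
          J * (ε * (seg A N).card) ^ 4 := by
        calc 18 * N * ∑ n ∈ Icc 1 (2 * N), (rF (seg A N) n : ℝ) ^ 2
            ≤ 18 * N * (3 * B' * N) :=
              mul_le_mul_of_nonneg_left ((energy_le A N).trans (hsum N hi (hgpos i)))
                (by positivity)
          _ = (54 * B') * (N : ℝ) ^ 2 := by ring
          _ ≤ (J * (ε ^ 4 * c ^ 4)) * (N : ℝ) ^ 2 :=
              mul_le_mul_of_nonneg_right hJ (by positivity)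
          _ = J * ε ^ 4 * (c ^ 4 * (N : ℝ) ^ 2) := by ring
          _ ≤ J * ε ^ 4 * ((seg A N).card : ℝ) ^ 4 :=
              mul_le_mul_of_nonneg_left h1 (by positivity)
          _ = _ := by ring
      obtain ⟨C, hC1, hC2⟩ := spectrum_cover (hgpos i) (seg_sub A N) hε hFne J h2
      obtain ⟨f, hf⟩ := exists_enum C (3 * J) hC1
      refine ⟨f, fun _ x hx0 hx1 hx => ?_⟩
      obtain ⟨z, hz, hz'⟩ := hC2 x hx0 hx1 hx
      obtain ⟨j, rfl⟩ := hf z hz
      exact ⟨j, hz'⟩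
    · exact ⟨fun _ => 0, fun h => absurd h hi⟩
  choose C hC using hcov
  refine dimH_zero_of_covers (Ex1 A ε) (3 * J) C 1 (1 + τ)⁻¹ zero_le_one (by positivity)
    (inv_lt_one_of_one_lt₀ (by linarith)) ?_
  rintro x ⟨hx0, hx1, hx⟩
  rw [frequently_atTop]
  intro m
  -- choose a large `N`
  obtain ⟨N₂, hN₂⟩ := exists_nat_gt ((1 + τ) ^ (m + 1))
  obtain ⟨N, hN, hNx⟩ := (frequently_atTop.1 hx) (max N₂ (2 * N₁ + 2))
  have hN2 : N₂ ≤ N := (le_max_left _ _).trans hN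
  have hN1 : 2 * N₁ + 2 ≤ N := (le_max_right _ _).trans hN
  have hNr : (1 : ℝ) ≤ N := by exact_mod_cast (by omega : 1 ≤ N)
  obtain ⟨i, hi1, hi2⟩ := exists_nat_pow_near hNr (by linarith : 1 < 1 + τ)
  have him : m ≤ i := by
    by_contra hcon
    have h1 : (1 + τ) ^ (i + 1) ≤ (1 + τ) ^ (m + 1) := pow_le_pow_right₀ (by linarith) (by omega)
    have h2 : (N₂ : ℝ) ≤ N := by exact_mod_cast hN2
    linarith
  have hgN : g i ≤ N := by
    rw [hg]
    exact Nat.ceil_le.2 hi1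
  have hNg : (N : ℝ) < (1 + τ) * g i := by
    rw [pow_succ] at hi2
    have := hg1 i
    nlinarith
  have hgN₁ : N₁ ≤ g i := by
    have h1 : (N : ℝ) < 2 * g i := by
      have h2 : (0 : ℝ) ≤ g i := Nat.cast_nonneg _
      nlinarith
    have h2 : N < 2 * g i := by exact_mod_cast h1
    omega
  refine ⟨i, him, ?_⟩
  have hGpos : (0 : ℝ) < g i := by exact_mod_cast hgpos i
  -- the increment
  have hinc : ((seg A N \ seg A (g i)).card : ℝ) ≤ ε * (seg A (g i)).card := by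
    have h1 := increment A hgN
    have h2 := hsum N (by omega) (by omega)
    have h3 : (2 * N - 2 * g i : ℝ) ≤ 2 * τ * g i := by nlinarith
    have h4 : ((seg A N \ seg A (g i)).card : ℝ) ^ 4 ≤ (ε * (seg A (g i)).card) ^ 4 := by
      calc ((seg A N \ seg A (g i)).card : ℝ) ^ 4
          ≤ (2 * N - 2 * g i : ℝ) * ∑ n ∈ range (2 * N + 1), (rep A n : ℝ) ^ 2 := h1
        _ ≤ (2 * τ * g i) * (3 * B' * N) := by
            apply mul_le_mul h3 h2 (Finset.sum_nonneg fun n _ => by positivity) (by positivity)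
        _ ≤ (2 * τ * g i) * (3 * B' * (2 * g i)) := by
            apply mul_le_mul_of_nonneg_left _ (by positivity)
            apply mul_le_mul_of_nonneg_left _ (by positivity)
            nlinarith
        _ = (τ * (12 * B')) * (g i : ℝ) ^ 2 := by ring
        _ ≤ (ε ^ 4 * c ^ 4) * (g i : ℝ) ^ 2 := mul_le_mul_of_nonneg_right hτ2 (by positivity)
        _ = ε ^ 4 * (c ^ 4 * (g i : ℝ) ^ 2) := by ring
        _ ≤ ε ^ 4 * ((seg A (g i)).card : ℝ) ^ 4 :=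
            mul_le_mul_of_nonneg_left (hcard (g i) hgN₁) (by positivity)
        _ = _ := by ring
    exact le_of_pow_le_pow_left₀ (by norm_num) (by positivity) h4
  have h1 := Sf_seg_le A hgN x
  have h2 : ((seg A (g i)).card : ℝ) ≤ (seg A N).card := by
    exact_mod_cast Finset.card_le_card (seg_mono A hgN)
  have h3 : ε * (seg A (g i)).card ≤ ‖Sf (ind (seg A (g i))) x‖ := by nlinarith
  obtain ⟨j, hj⟩ := hC i hgN₁ x hx0 hx1 h3
  refine ⟨j, hj.trans ?_⟩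
  rw [one_mul, inv_pow, ← one_div]
  exact one_div_le_one_div_of_le (by positivity) (hg1 i)

theorem Sf_add_int {α : ℕ → ℂ} (x : ℝ) (k : ℤ) : Sf α (x + k) = Sf α x := by
  unfold Sf
  congr 1
  funext n
  have : (n : ℝ) * (x + k) = n * x + ((n * k : ℤ) : ℝ) := by push_cast; ring
  rw [this, ls_ee_add, ls_ee_int, mul_one]

/-- the same without restriction to `[0, 1)` -/
def Ex (A : Set ℕ) (ε : ℝ) : Set ℝ :=
  {x | ∃ᶠ N : ℕ in atTop, 2 * ε * (seg A N).card ≤ ‖Sf (ind (seg A N)) x‖}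

theorem ex_dim (A : Set ℕ) (hA : Dense2 A) (hr : MeanSq A) {ε : ℝ} (hε : 0 < ε) :
    dimH (Ex A ε) = 0 := by
  have h1 : Ex A ε ⊆ ⋃ k : ℤ, (fun x : ℝ => x + k) '' Ex1 A ε := by
    intro x hx
    rw [Set.mem_iUnion]
    refine ⟨⌊x⌋, Int.fract x, ⟨Int.fract_nonneg x, Int.fract_lt_one x, ?_⟩, ?_⟩
    · refine Frequently.mono hx fun N hN => ?_
      have h2 : Sf (ind (seg A N)) x = Sf (ind (seg A N)) (Int.fract x) := by
        conv_lhs => rw [← Int.fract_add_floor x]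
        exact Sf_add_int _ _
      rw [← h2]
      exact hN
    · exact Int.fract_add_floor x
  rw [← nonpos_iff_eq_zero]
  refine (dimH_mono h1).trans ?_
  rw [dimH_iUnion]
  refine iSup_le fun k => ?_
  have h2 : LipschitzWith 1 (fun x : ℝ => x + (k : ℝ)) := by
    apply LipschitzWith.of_dist_le_mul
    intro x y
    simp
  exact (h2.dimH_image_le _).trans (ex1_dim A hA hr hε).le

end Pool.Agent.TH314.ET
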