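import Mathlib
import Pool.Agent.TH314.ET.Grid

/-!
# The frequencies `θ` for which `θ A` is not `η`-dense modulo one
-/

set_option autoImplicit false

open Finset Filter Topology

namespace Pool.Agent.TH314.ET

open Pool.Agent.Helper112

/-- Fejer's kernel: points which miss an arc have a large exponential sum -/
theorem fejer_miss (F : Finset ℕ) (hF : F.Nonempty) (θ t η : ℝ) (hη : 0 < η)
    (hmiss : ∀ a ∈ F, ∀ z : ℤ, η ≤ |θ * a - t - z|) (K : ℕ) (hK : 1 / η ^ 2 < K) :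
    ∃ k : ℕ, 1 ≤ k ∧ k < K ∧ (F.card : ℝ) / (2 * K) ≤ ‖Sf (ind F) (k * θ)‖ := by
  classical
  have hFpos : (0 : ℝ) < F.card := by exact_mod_cast Finset.card_pos.2 hF
  have hKpos : (0 : ℝ) < K := lt_trans (by positivity) hK
  by_contra hcon
  push Not at hcon
  -- the kernel at the points
  have hD : ∀ a ∈ F, ‖lsD K (θ * a - t)‖ ^ 2 ≤ 1 / (2 * η ^ 2) := by
    intro a ha
    set y := θ * a - t with hy
    have h1 : η ≤ Int.fract y := by
      have h2 := hmiss a ha ⌊y⌋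
      rw [← hy] at h2
      have h3 : y - ⌊y⌋ = Int.fract y := rfl
      rwa [h3, abs_of_nonneg (Int.fract_nonneg y)] at h2
    have h2 : η ≤ 1 - Int.fract y := by
      have h2 := hmiss a ha (⌊y⌋ + 1)
      rw [← hy] at h2
      have h3 : y - ((⌊y⌋ + 1 : ℤ) : ℝ) = -(1 - Int.fract y) := by
        push_cast
        have : y - ⌊y⌋ = Int.fract y := rfl
        linarith
      rwa [h3, abs_neg, abs_of_nonneg (by linarith [Int.fract_lt_one y])] at h2
    rw [← lsD_fract]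
    refine (lsD_bound K (Int.fract y) (by linarith) (by linarith)).trans ?_
    have h3 : 1 / (Int.fract y) ^ 2 ≤ 1 / η ^ 2 :=
      one_div_le_one_div_of_le (by positivity) (pow_le_pow_left₀ hη.le h1 2)
    have h4 : 1 / (1 - Int.fract y) ^ 2 ≤ 1 / η ^ 2 :=
      one_div_le_one_div_of_le (by positivity) (pow_le_pow_left₀ hη.le h2 2)
    have h5 : 1 / (2 * η ^ 2) = (1 / 4) * (1 / η ^ 2 + 1 / η ^ 2) := by
      field_simp
      norm_num
    rw [h5]
    linarith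
  have hup : ∑ a ∈ F, ‖lsD K (θ * a - t)‖ ^ 2 ≤ F.card * (1 / (2 * η ^ 2)) := by
    rw [← nsmul_eq_mul, ← Finset.sum_const]
    exact Finset.sum_le_sum hD
  -- expansion
  set c : ℕ → ℕ → ℂ := fun j l => ∑ a ∈ F, ee (((j : ℝ) - l) * (θ * a - t)) with hc
  have hexp : ((∑ a ∈ F, ‖lsD K (θ * a - t)‖ ^ 2 : ℝ) : ℂ) =
      ∑ j ∈ range K, ∑ l ∈ range K, c j l := by
    push_cast
    have h1 : ∀ a ∈ F, ((‖lsD K (θ * a - t)‖ : ℂ)) ^ 2 =
        ∑ j ∈ range K, ∑ l ∈ range K, ee (((j : ℝ) - l) * (θ * a - t)) := by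
      intro a _
      rw [← Complex.mul_conj']
      unfold lsD
      rw [map_sum, Finset.sum_mul_sum]
      refine Finset.sum_congr rfl fun j _ => Finset.sum_congr rfl fun l _ => ?_
      rw [ls_conj_ee, ← ls_ee_add]
      congr 1
      ring
    rw [Finset.sum_congr rfl h1, Finset.sum_comm]
    refine Finset.sum_congr rfl fun j _ => ?_
    rw [Finset.sum_comm]
  have hdiag : ∀ j, c j j = F.card := by
    intro j
    simp only [hc, sub_self, zero_mul, ls_ee_zero]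
    simp
  have hoff : ∀ j ∈ range K, ∀ l ∈ range K, j ≠ l → ‖c j l‖ ≤ (F.card : ℝ) / (2 * K) := by
    intro j hj l hl hjl
    rw [mem_range] at hj hl
    have hkey : ∀ d : ℕ, ‖∑ a ∈ F, ee ((d : ℝ) * (θ * a - t))‖ = ‖Sf (ind F) (d * θ)‖ := by
      intro d
      rw [Sf_ind]
      have h1 : ∑ a ∈ F, ee ((d : ℝ) * (θ * a - t)) =
          ee (-(d * t)) * ∑ a ∈ F, ee (a * (d * θ)) := by
        rw [Finset.mul_sum]
        refine Finset.sum_congr rfl fun a _ => ?_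
        rw [← ls_ee_add]
        congr 1
        ring
      rw [h1, norm_mul, ls_norm_ee, one_mul]
    rcases Nat.lt_or_ge l j with h | h
    · have h1 : ‖c j l‖ = ‖Sf (ind F) ((j - l : ℕ) * θ)‖ := by
        rw [← hkey]
        simp only [hc]
        rw [Nat.cast_sub h.le]
      rw [h1]
      exact (hcon (j - l) (by omega) (by omega)).le
    · have h2 : j < l := lt_of_le_of_ne h hjl
      have h1 : ‖c j l‖ = ‖Sf (ind F) ((l - j : ℕ) * θ)‖ := by
        rw [← hkey, ← RCLike.norm_conj]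
        simp only [hc]
        rw [map_sum, Nat.cast_sub h]
        congr 1
        refine Finset.sum_congr rfl fun a _ => ?_
        rw [ls_conj_ee]
        congr 1
        ring
      rw [h1]
      exact (hcon (l - j) (by omega) (by omega)).le
  -- lower bound
  have hlow : (K : ℝ) * F.card - K * (K * ((F.card : ℝ) / (2 * K))) ≤
      ∑ a ∈ F, ‖lsD K (θ * a - t)‖ ^ 2 := by
    have h1 : ∑ j ∈ range K, ∑ l ∈ range K, c j l =
        ∑ j ∈ range K, ((F.card : ℂ) + ∑ l ∈ (range K).erase j, c j l) := by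
      refine Finset.sum_congr rfl fun j hj => ?_
      rw [← Finset.add_sum_erase _ _ hj, hdiag]
    rw [h1, Finset.sum_add_distrib, Finset.sum_const, card_range, nsmul_eq_mul] at hexp
    have h2 : ‖∑ j ∈ range K, ∑ l ∈ (range K).erase j, c j l‖ ≤
        K * (K * ((F.card : ℝ) / (2 * K))) := by
      refine (norm_sum_le _ _).trans ?_
      calc ∑ j ∈ range K, ‖∑ l ∈ (range K).erase j, c j l‖
          ≤ ∑ j ∈ range K, K * ((F.card : ℝ) / (2 * K)) := by
            refine Finset.sum_le_sum fun j hj => ?_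
            refine (norm_sum_le _ _).trans ?_
            calc ∑ l ∈ (range K).erase j, ‖c j l‖
                ≤ ∑ l ∈ (range K).erase j, (F.card : ℝ) / (2 * K) := by
                  refine Finset.sum_le_sum fun l hl => ?_
                  rw [mem_erase] at hl
                  exact hoff j hj l hl.2 (fun h => hl.1 h.symm)
              _ = (((range K).erase j).card : ℝ) * ((F.card : ℝ) / (2 * K)) := by
                  rw [Finset.sum_const, nsmul_eq_mul]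
              _ ≤ K * ((F.card : ℝ) / (2 * K)) := by
                  apply mul_le_mul_of_nonneg_right _ (by positivity)
                  have h3 := Finset.card_erase_le (s := range K) (a := j)
                  rw [card_range] at h3
                  exact_mod_cast h3
        _ = _ := by rw [Finset.sum_const, card_range, nsmul_eq_mul]
    have h3 : (K : ℂ) * F.card = ((∑ a ∈ F, ‖lsD K (θ * a - t)‖ ^ 2 : ℝ) : ℂ) -
        ∑ j ∈ range K, ∑ l ∈ (range K).erase j, c j l := by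
      rw [hexp]
      ring
    have h4 : ‖(K : ℂ) * F.card‖ = K * F.card := by
      rw [norm_mul, Complex.norm_natCast, Complex.norm_natCast]
    have h5 := norm_sub_le (((∑ a ∈ F, ‖lsD K (θ * a - t)‖ ^ 2 : ℝ) : ℂ))
      (∑ j ∈ range K, ∑ l ∈ (range K).erase j, c j l)
    rw [← h3, h4, Complex.norm_real, Real.norm_eq_abs,
      abs_of_nonneg (Finset.sum_nonneg fun a _ => by positivity)] at h5
    linarith
  have h1 : (K : ℝ) * (K * ((F.card : ℝ) / (2 * K))) = K * F.card / 2 := by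
    field_simp
  rw [h1] at hlow
  have h2 : (K : ℝ) * F.card / 2 ≤ F.card * (1 / (2 * η ^ 2)) := by linarith
  have h3 : (K : ℝ) ≤ 1 / η ^ 2 := by
    have h4 : (F.card : ℝ) * (K / 2) ≤ F.card * ((1 / η ^ 2) / 2) := by
      calc (F.card : ℝ) * (K / 2) = K * F.card / 2 := by ring
        _ ≤ _ := h2
        _ = _ := by
            field_simp
    have h5 := le_of_mul_le_mul_left h4 hFpos
    linarith
  linarith

/-- the frequencies in `[0, 1)` for which `θ A` misses an arc of length `2 η` modulo one -/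
def Miss (A : Set ℕ) (η : ℝ) : Set ℝ :=
  {θ | 0 ≤ θ ∧ θ < 1 ∧ ∃ t : ℝ, ∀ a ∈ A, ∀ z : ℤ, η ≤ |θ * a - t - z|}

/-- counting frequencies with a given multiple modulo one -/
theorem sum_multiples (W : Finset ℝ) (hW : ∀ θ ∈ W, 0 ≤ θ ∧ θ < 1) (R : Finset ℝ) (k : ℕ)
    (hk : 1 ≤ k) (hR : ∀ θ ∈ W, Int.fract (k * θ) ∈ R) (g : ℝ → ℝ) (hg : ∀ x, 0 ≤ g x) :
    ∑ θ ∈ W, g (Int.fract (k * θ)) ≤ k * ∑ x ∈ R, g x := by
  classical
  have hk0 : (0 : ℝ) < k := by exact_mod_cast hk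
  set f : ℝ → ℝ × ℕ := fun θ => (Int.fract (k * θ), ⌊(k * θ : ℝ)⌋.toNat) with hf
  have hfl : ∀ θ ∈ W, 0 ≤ ⌊(k * θ : ℝ)⌋ ∧ ⌊(k * θ : ℝ)⌋ < k := by
    intro θ hθ
    obtain ⟨h0, h1⟩ := hW θ hθ
    refine ⟨Int.floor_nonneg.2 (by positivity), ?_⟩
    rw [Int.floor_lt]
    push_cast
    nlinarith
  have hinj : Set.InjOn f W := by
    intro θ hθ φ hφ h
    simp only [hf, Prod.mk.injEq] at h
    obtain ⟨h1, h2⟩ := h
    have h3 := hfl θ hθ
    have h4 := hfl φ hφ
    have h5 : ⌊(k * θ : ℝ)⌋ = ⌊(k * φ : ℝ)⌋ := by omega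
    have h6 : (k : ℝ) * θ = k * φ := by
      rw [← Int.fract_add_floor ((k : ℝ) * θ), ← Int.fract_add_floor ((k : ℝ) * φ), h1, h5]
    exact mul_left_cancel₀ hk0.ne' h6
  have hmaps : W.image f ⊆ R ×ˢ range k := by
    intro p hp
    obtain ⟨θ, hθ, rfl⟩ := mem_image.1 hp
    refine mem_product.2 ⟨hR θ hθ, mem_range.2 ?_⟩
    have h3 := hfl θ hθ
    simp only [hf]
    omega
  calc ∑ θ ∈ W, g (Int.fract (k * θ)) = ∑ p ∈ W.image f, g p.1 := by
        rw [Finset.sum_image hinj]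
    _ ≤ ∑ p ∈ R ×ˢ range k, g p.1 :=
        Finset.sum_le_sum_of_subset_of_nonneg hmaps fun p _ _ => hg p.1
    _ = k * ∑ x ∈ R, g x := by
        rw [Finset.sum_product]
        simp only [Finset.sum_const, card_range, nsmul_eq_mul]
        rw [Finset.mul_sum]

/-- **Finitely many frequencies are not `η`-dense.** -/
theorem miss_finite (A : Set ℕ) (hA : Thick A) (hr : MeanSq A) {η : ℝ} (hη : 0 < η) :
    (Miss A η).Finite := by
  classical
  by_contra hinf
  obtain ⟨c, hc, hfreq⟩ := hA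
  obtain ⟨B, hB⟩ := hr
  obtain ⟨N₁, hN₁⟩ := eventually_atTop.1 hB
  set B' := max B 1 with hB'
  have hB1 : 0 < B' := lt_of_lt_of_le one_pos (le_max_right _ _)
  have hsum : ∀ N, N₁ ≤ N → 1 ≤ N → ∑ n ∈ range (2 * N + 1), (rep A n : ℝ) ^ 2 ≤ 3 * B' * N := by
    intro N hN hN1
    have h1 := hN₁ (2 * N + 1) (by omega)
    have h2 : (1 : ℝ) ≤ N := by exact_mod_cast hN1
    push_cast at h1
    have h3 : B * (2 * (N : ℝ) + 1) ≤ B' * (2 * (N : ℝ) + 1) :=
      mul_le_mul_of_nonneg_right (le_max_left _ _) (by positivity)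
    have h4 : B' * (2 * (N : ℝ) + 1) ≤ B' * (3 * N) :=
      mul_le_mul_of_nonneg_left (by linarith) hB1.le
    linarith
  obtain ⟨K, hK⟩ := exists_nat_gt (1 / η ^ 2)
  have hKpos : (0 : ℝ) < K := lt_trans (by positivity) hK
  obtain ⟨m, hm⟩ := exists_nat_gt ((K : ℝ) ^ 2 * (2 * K) ^ 4 * (54 * B') / c ^ 4)
  obtain ⟨W, hW1, hW2⟩ := (Set.not_finite.1 hinf).exists_subset_card_eq m
  have hW01 : ∀ θ ∈ W, 0 ≤ θ ∧ θ < 1 := fun θ hθ => ⟨(hW1 hθ).1, (hW1 hθ).2.1⟩
  -- all multiples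
  set R : Finset ℝ := (W ×ˢ range K).image (fun p => Int.fract ((p.2 : ℝ) * p.1)) with hR
  have hR01 : ∀ x ∈ R, 0 ≤ x ∧ x < 1 := by
    intro x hx
    obtain ⟨p, _, rfl⟩ := mem_image.1 hx
    exact ⟨Int.fract_nonneg _, Int.fract_lt_one _⟩
  obtain ⟨D, hD⟩ := fourth_moment_fixed R hR01
  obtain ⟨N, hN1, hN2, hN3⟩ := (hfreq.and_eventually ((eventually_ge_atTop (D + 1)).and
    (eventually_ge_atTop N₁))).exists
  have hN0 : 0 < N := by omega
  have hN' : (0 : ℝ) < N := by exact_mod_cast hN0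
  have hDN : (D : ℝ) ≤ N := by exact_mod_cast (by omega : D ≤ N)
  rw [seg_card] at hN1
  set F := seg A N with hF
  have hFpos : (0 : ℝ) < F.card := lt_of_lt_of_le (by positivity) hN1
  have hFne : F.Nonempty := Finset.card_pos.1 (by exact_mod_cast hFpos)
  have h4 : c ^ 4 * (N : ℝ) ^ 2 ≤ (F.card : ℝ) ^ 4 := by
    have h5 : (c * Real.sqrt N) ^ 4 ≤ (F.card : ℝ) ^ 4 :=
      pow_le_pow_left₀ (by positivity) hN1 4
    have h6 : Real.sqrt N ^ 4 = (N : ℝ) ^ 2 := by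
      rw [show (4 : ℕ) = 2 * 2 by norm_num, pow_mul, Real.sq_sqrt hN'.le]
    rw [mul_pow, h6] at h5
    exact h5
  have hup : ∑ x ∈ R, ‖Sf (ind F) x‖ ^ 4 ≤ 54 * B' * (N : ℝ) ^ 2 := by
    refine (hD N F (seg_sub A N)).trans ?_
    have h1 := (energy_le A N).trans (hsum N hN3 hN0)
    calc 6 * (2 * N + (D : ℝ)) * ∑ n ∈ Icc 1 (2 * N), (rF F n : ℝ) ^ 2
        ≤ 6 * (2 * N + N) * (3 * B' * N) := by
          apply mul_le_mul _ h1 (Finset.sum_nonneg fun n _ => by positivity) (by positivity)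
          linarith
      _ = _ := by ring
  -- lower bound
  have hone : ∀ θ ∈ W, ((F.card : ℝ) / (2 * K)) ^ 4 ≤
      ∑ k ∈ Icc 1 (K - 1), ‖Sf (ind F) (Int.fract (k * θ))‖ ^ 4 := by
    intro θ hθ
    obtain ⟨_, _, t, ht⟩ := hW1 hθ
    obtain ⟨k, hk1, hkK, hk⟩ := fejer_miss F hFne θ t η hη
      (fun a ha => ht a (mem_seg.1 ha).2) K hK
    have h1 : ‖Sf (ind F) (Int.fract (k * θ))‖ ^ 4 ≤
        ∑ k ∈ Icc 1 (K - 1), ‖Sf (ind F) (Int.fract (k * θ))‖ ^ 4 :=
      Finset.single_le_sum (f := fun k : ℕ => ‖Sf (ind F) (Int.fract (k * θ))‖ ^ 4)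
        (fun k _ => by positivity) (mem_Icc.2 ⟨hk1, by omega⟩)
    refine le_trans ?_ h1
    have h2 : Sf (ind F) (Int.fract ((k : ℝ) * θ)) = Sf (ind F) (k * θ) := by
      conv_rhs => rw [← Int.fract_add_floor ((k : ℝ) * θ)]
      exact (Sf_add_int _ _).symm
    rw [h2]
    exact pow_le_pow_left₀ (by positivity) hk 4
  have hlow : (m : ℝ) * ((F.card : ℝ) / (2 * K)) ^ 4 ≤
      (K : ℝ) ^ 2 * ∑ x ∈ R, ‖Sf (ind F) x‖ ^ 4 := by
    calc (m : ℝ) * ((F.card : ℝ) / (2 * K)) ^ 4 = ∑ θ ∈ W, ((F.card : ℝ) / (2 * K)) ^ 4 := by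
          rw [Finset.sum_const, nsmul_eq_mul, hW2]
      _ ≤ ∑ θ ∈ W, ∑ k ∈ Icc 1 (K - 1), ‖Sf (ind F) (Int.fract (k * θ))‖ ^ 4 :=
          Finset.sum_le_sum hone
      _ = ∑ k ∈ Icc 1 (K - 1), ∑ θ ∈ W, ‖Sf (ind F) (Int.fract (k * θ))‖ ^ 4 :=
          Finset.sum_comm
      _ ≤ ∑ k ∈ Icc 1 (K - 1), (K : ℝ) * ∑ x ∈ R, ‖Sf (ind F) x‖ ^ 4 := by
          refine Finset.sum_le_sum fun k hk => ?_
          rw [mem_Icc] at hk
          have h1 := sum_multiples W hW01 R k hk.1 (by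
            intro θ hθ
            exact mem_image.2 ⟨(θ, k), mem_product.2 ⟨hθ, mem_range.2 (by omega)⟩, rfl⟩)
            (fun x => ‖Sf (ind F) x‖ ^ 4) (fun x => by positivity)
          refine h1.trans (mul_le_mul_of_nonneg_right ?_
            (Finset.sum_nonneg fun x _ => by positivity))
          exact_mod_cast (by omega : k ≤ K)
      _ = ((Icc 1 (K - 1)).card : ℝ) * ((K : ℝ) * ∑ x ∈ R, ‖Sf (ind F) x‖ ^ 4) := by
          rw [Finset.sum_const, nsmul_eq_mul]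
      _ ≤ K * ((K : ℝ) * ∑ x ∈ R, ‖Sf (ind F) x‖ ^ 4) := by
          apply mul_le_mul_of_nonneg_right
          · rw [Nat.card_Icc]
            exact_mod_cast (by omega : K - 1 + 1 - 1 ≤ K)
          · exact mul_nonneg hKpos.le (Finset.sum_nonneg fun x _ => by positivity)
      _ = _ := by ring
  have h1 : (m : ℝ) * (c ^ 4 * (N : ℝ) ^ 2 / (2 * K) ^ 4) ≤
      (K : ℝ) ^ 2 * (54 * B' * (N : ℝ) ^ 2) := by
    calc (m : ℝ) * (c ^ 4 * (N : ℝ) ^ 2 / (2 * K) ^ 4)
        ≤ m * ((F.card : ℝ) / (2 * K)) ^ 4 := by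
          apply mul_le_mul_of_nonneg_left _ (Nat.cast_nonneg _)
          rw [div_pow]
          exact div_le_div_of_nonneg_right h4 (by positivity)
      _ ≤ _ := hlow
      _ ≤ _ := mul_le_mul_of_nonneg_left hup (by positivity)
  rw [div_lt_iff₀ (by positivity)] at hm
  have h2 : (m : ℝ) * (c ^ 4 * (N : ℝ) ^ 2 / (2 * K) ^ 4) = m * c ^ 4 * (N : ℝ) ^ 2 / (2 * K) ^ 4 := by
    ring
  rw [h2, div_le_iff₀ (by positivity)] at h1
  have h3 : ((K : ℝ) ^ 2 * (2 * K) ^ 4 * (54 * B')) * (N : ℝ) ^ 2 < (m * c ^ 4) * (N : ℝ) ^ 2 :=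
    mul_lt_mul_of_pos_right hm (by positivity)
  have h5 : (K : ℝ) ^ 2 * (54 * B' * (N : ℝ) ^ 2) * (2 * K) ^ 4 =
      ((K : ℝ) ^ 2 * (2 * K) ^ 4 * (54 * B')) * (N : ℝ) ^ 2 := by ring
  linarith

/-- **`θ A` is dense modulo one for all but countably many `θ`.** -/
theorem dense_countable (A : Set ℕ) (hA : Thick A) (hr : MeanSq A) :
    {θ : ℝ | ¬ Dense {x : ℝ | ∃ a ∈ A, ∃ z : ℤ, x = θ * a + z}}.Countable := by
  have h1 : {θ : ℝ | ¬ Dense {x : ℝ | ∃ a ∈ A, ∃ z : ℤ, x = θ * a + z}} ⊆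
      ⋃ p : ℤ × ℕ, (fun x : ℝ => x + p.1) '' Miss A (1 / ((p.2 : ℝ) + 1)) := by
    intro θ hθ
    rw [Set.mem_ofPred_eq, Metric.dense_iff] at hθ
    push Not at hθ
    obtain ⟨t, r, hr0, hempty⟩ := hθ
    obtain ⟨m, hm⟩ := exists_nat_one_div_lt hr0
    rw [Set.mem_iUnion]
    refine ⟨(⌊θ⌋, m), Int.fract θ, ⟨Int.fract_nonneg θ, Int.fract_lt_one θ, t, ?_⟩,
      Int.fract_add_floor θ⟩
    intro a ha z
    by_contra hcon
    push Not at hcon
    have h2 : (Int.fract θ * a - z : ℝ) ∈ Metric.ball t r ∩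
        {x : ℝ | ∃ a ∈ A, ∃ z : ℤ, x = θ * a + z} := by
      refine ⟨?_, a, ha, -⌊θ⌋ * a - z, ?_⟩
      · rw [Metric.mem_ball, Real.dist_eq]
        have h3 : Int.fract θ * a - z - t = Int.fract θ * a - t - z := by ring
        rw [h3]
        exact hcon.trans hm
      · have h3 : Int.fract θ = θ - ⌊θ⌋ := rfl
        rw [h3]
        push_cast
        ring
    rw [hempty] at h2
    exact h2
  refine Set.Countable.mono h1 (Set.countable_iUnion fun p => ?_)
  exact ((miss_finite A hA hr (by positivity)).image _).countable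

end Pool.Agent.TH314.ET
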