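import Mathlib
import Pool.Agent.TH314.ET.Grid
import Pool.Agent.H84R3.WeylCrit

/-!
# Uniform distribution of `θ A` modulo one outside a set of Hausdorff dimension zero
-/

set_option autoImplicit false

open Finset Filter Topology

namespace Pool.Agent.TH314.ET

open Pool.Agent.Helper112

theorem ee_eq_ex (x : ℝ) : ee x = Pool.Agent.H84R3.ex x := by
  unfold ee Pool.Agent.H84R3.ex
  congr 1
  push_cast
  ring

/-- the increasing enumeration -/
noncomputable def en (A : Set ℕ) (n : ℕ) : ℕ := Nat.nth (· ∈ A) n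

theorem en_mem {A : Set ℕ} (hA : A.Infinite) (n : ℕ) : en A n ∈ A :=
  Nat.nth_mem_of_infinite (p := fun x => x ∈ A) hA n

theorem en_mono {A : Set ℕ} (hA : A.Infinite) : StrictMono (en A) :=
  Nat.nth_strictMono (p := fun x => x ∈ A) hA

theorem en_surj {A : Set ℕ} {a : ℕ} (ha : a ∈ A) : ∃ i, en A i = a := by
  classical
  exact ⟨Nat.count (· ∈ A) a, Nat.nth_count (p := fun x => x ∈ A) ha⟩

theorem range_image_erase {A : Set ℕ} (hA : A.Infinite) (n : ℕ) :
    ((range (n + 1)).image (en A)).erase 0 = seg A (en A n) := by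
  classical
  ext a
  rw [mem_erase, mem_image, mem_seg]
  constructor
  · rintro ⟨h0, i, hi, rfl⟩
    rw [mem_range] at hi
    exact ⟨⟨Nat.pos_of_ne_zero h0, (en_mono hA).monotone (by omega)⟩, en_mem hA i⟩
  · rintro ⟨⟨h1, h2⟩, h3⟩
    obtain ⟨i, rfl⟩ := en_surj h3
    refine ⟨by omega, i, ?_, rfl⟩
    rw [mem_range]
    have := (en_mono hA).le_iff_le.1 h2
    omega

/-- exponential sums over the first elements -/
theorem weyl_sum_le {A : Set ℕ} (hA : A.Infinite) (x : ℝ) (n : ℕ) :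
    ‖∑ i ∈ range (n + 1), ee (en A i * x)‖ ≤ ‖Sf (ind (seg A (en A n))) x‖ + 1 := by
  classical
  have h1 : ∑ i ∈ range (n + 1), ee (en A i * x) =
      ∑ a ∈ (range (n + 1)).image (en A), ee (a * x) := by
    rw [Finset.sum_image (fun i _ j _ h => (en_mono hA).injective h)]
  rw [h1, Sf_ind, ← range_image_erase hA n]
  by_cases h0 : 0 ∈ (range (n + 1)).image (en A)
  · rw [← Finset.add_sum_erase _ _ h0]
    refine (norm_add_le _ _).trans ?_
    rw [ls_norm_ee]
    linarith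
  · rw [Finset.erase_eq_of_notMem h0]
    linarith

theorem card_le {A : Set ℕ} (hA : A.Infinite) (n : ℕ) : (seg A (en A n)).card ≤ n + 1 := by
  classical
  rw [← range_image_erase hA n]
  refine (Finset.card_erase_le).trans (Finset.card_image_le.trans ?_)
  rw [card_range]

theorem le_card {A : Set ℕ} (hA : A.Infinite) (n : ℕ) : n ≤ (seg A (en A n)).card := by
  classical
  rw [← range_image_erase hA n]
  have h1 : ((range (n + 1)).image (en A)).card = n + 1 := by
    rw [Finset.card_image_of_injective _ (en_mono hA).injective, card_range]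
  have h2 := Finset.pred_card_le_card_erase (s := (range (n + 1)).image (en A)) (a := 0)
  omega

/-- failure of uniform distribution gives large exponential sums -/
theorem not_ud {A : Set ℕ} (hA : A.Infinite) (θ : ℝ)
    (h : ¬ Pool.Agent.H84R3.UD (fun n => θ * en A n)) :
    ∃ k m : ℕ, 1 ≤ k ∧ (k * θ : ℝ) ∈ Ex A (1 / ((m : ℝ) + 1)) := by
  classical
  have h1 : ∃ k : ℕ, 1 ≤ k ∧
      ¬ Tendsto (fun N => Pool.Agent.H84R3.A (fun n => θ * en A n) k N) atTop (𝓝 0) := by
    by_contra hcon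
    push Not at hcon
    exact h (Pool.Agent.H84R3.ud_of_weyl _ fun k hk => hcon k hk)
  obtain ⟨k, hk, h2⟩ := h1
  rw [Metric.tendsto_atTop] at h2
  push Not at h2
  obtain ⟨ε, hε, h3⟩ := h2
  obtain ⟨m, hm⟩ := exists_nat_gt (4 / ε)
  refine ⟨k, m, hk, ?_⟩
  have hm0 : (0 : ℝ) < (m : ℝ) + 1 := by positivity
  have hm1 : 2 * (1 / ((m : ℝ) + 1)) ≤ ε / 2 := by
    rw [div_lt_iff₀ hε] at hm
    rw [mul_one_div, div_le_div_iff₀ hm0 two_pos]
    nlinarith
  show ∃ᶠ N : ℕ in atTop, _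
  rw [frequently_atTop]
  intro b
  obtain ⟨B, hB⟩ := exists_nat_gt (2 / ε)
  obtain ⟨N, hN, hN2⟩ := h3 (max (b + 1) (B + 2))
  obtain ⟨n, rfl⟩ : ∃ n, N = n + 1 := ⟨N - 1, by
    have := (le_max_left (b + 1) (B + 2)).trans hN
    omega⟩
  have hnb : b ≤ n := by
    have := (le_max_left (b + 1) (B + 2)).trans hN
    omega
  have hnB : B ≤ n := by
    have := (le_max_right (b + 1) (B + 2)).trans hN
    omega
  refine ⟨en A n, hnb.trans ((en_mono hA).le_apply), ?_⟩
  have h4 : Pool.Agent.H84R3.A (fun n => θ * en A n) k (n + 1) =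
      (∑ i ∈ range (n + 1), ee (en A i * (k * θ))) / ((n + 1 : ℕ) : ℂ) := by
    unfold Pool.Agent.H84R3.A
    congr 1
    refine Finset.sum_congr rfl fun i _ => ?_
    rw [ee_eq_ex]
    congr 1
    ring
  rw [h4, dist_zero_right, norm_div, Complex.norm_natCast, le_div_iff₀ (by positivity)] at hN2
  have h5 := weyl_sum_le hA (k * θ) n
  have h6 : ((seg A (en A n)).card : ℝ) ≤ n + 1 := by exact_mod_cast card_le hA n
  have h7 : (B : ℝ) ≤ n := by exact_mod_cast hnB
  have h8 : 1 ≤ ε / 2 * n := by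
    rw [div_lt_iff₀ hε] at hB
    nlinarith
  push_cast at hN2
  have h9 : 2 * (1 / ((m : ℝ) + 1)) * ((seg A (en A n)).card : ℝ) ≤
      ε / 2 * ((seg A (en A n)).card : ℝ) := mul_le_mul_of_nonneg_right hm1 (Nat.cast_nonneg _)
  have h10 : ε / 2 * ((seg A (en A n)).card : ℝ) ≤ ε / 2 * (n + 1) :=
    mul_le_mul_of_nonneg_left h6 (by positivity)
  nlinarith

/-- **Uniform distribution outside a set of dimension zero.** -/
theorem ud_dim (A : Set ℕ) (hinf : A.Infinite) (hA : Dense2 A) (hr : MeanSq A) :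
    dimH {θ : ℝ | ¬ Pool.Agent.H84R3.UD (fun n => θ * en A n)} = 0 := by
  have h1 : {θ : ℝ | ¬ Pool.Agent.H84R3.UD (fun n => θ * en A n)} ⊆
      ⋃ p : ℕ × ℕ, (fun x : ℝ => (1 / ((p.1 : ℝ) + 1)) * x) '' Ex A (1 / ((p.2 : ℝ) + 1)) := by
    intro θ hθ
    obtain ⟨k, m, hk, h2⟩ := not_ud hinf θ hθ
    rw [Set.mem_iUnion]
    refine ⟨(k - 1, m), k * θ, h2, ?_⟩
    simp only
    rw [Nat.cast_sub hk]
    have : (k : ℝ) ≠ 0 := by positivity
    push_cast
    rw [sub_add_cancel]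
    field_simp
  rw [← nonpos_iff_eq_zero]
  refine (dimH_mono h1).trans ?_
  rw [dimH_iUnion]
  refine iSup_le fun p => ?_
  have hp0 : (0 : ℝ) ≤ 1 / ((p.1 : ℝ) + 1) := by positivity
  have hp1 : 1 / ((p.1 : ℝ) + 1) ≤ 1 := by
    rw [div_le_one (by positivity)]
    have : (0 : ℝ) ≤ p.1 := Nat.cast_nonneg _
    linarith
  have h2 : LipschitzWith 1 (fun x : ℝ => (1 / ((p.1 : ℝ) + 1)) * x) := by
    apply LipschitzWith.of_dist_le_mul
    intro x y
    rw [Real.dist_eq, Real.dist_eq, ← mul_sub, abs_mul, abs_of_nonneg hp0, NNReal.coe_one]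
    exact mul_le_mul_of_nonneg_right hp1 (abs_nonneg _)
  exact (h2.dimH_image_le _).trans (ex_dim A hA hr (by positivity)).le

end Pool.Agent.TH314.ET
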