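import Mathlib
import Pool.Agent.TH314.ET.UDim

/-!
# Maximal inequality and the dimension of the exceptional set for sparse sets
-/

set_option autoImplicit false

open Finset Filter Topology MeasureTheory MeasureTheory.Measure
open scoped ENNReal NNReal

namespace Pool.Agent.TH314.ET

open Pool.Agent.Helper112

/-! ### The binary decomposition -/

theorem block_eq (z : ℕ → ℂ) (n k : ℕ) :
    ‖∑ i ∈ range (n / 2 ^ k * 2 ^ k), z i - ∑ i ∈ range (n / 2 ^ (k + 1) * 2 ^ (k + 1)), z i‖ ^ 4 ≤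
      ‖∑ i ∈ Ico (2 * (n / 2 ^ (k + 1)) * 2 ^ k) ((2 * (n / 2 ^ (k + 1)) + 1) * 2 ^ k), z i‖ ^ 4 ∧
    (n / 2 ^ k * 2 ^ k = n / 2 ^ (k + 1) * 2 ^ (k + 1) ∨
      n / 2 ^ k = 2 * (n / 2 ^ (k + 1)) + 1) := by
  set q := n / 2 ^ k with hq
  have h1 : n / 2 ^ (k + 1) = q / 2 := by
    rw [hq, Nat.div_div_eq_div_mul, pow_succ]
  rw [h1]
  have h2 : q / 2 * 2 ^ (k + 1) = 2 * (q / 2) * 2 ^ k := by
    rw [pow_succ]
    ring
  rw [h2]
  rcases Nat.even_or_odd' q with ⟨m, hm | hm⟩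
  · have h3 : q / 2 = m := by omega
    rw [h3, hm, sub_self, norm_zero]
    refine ⟨by rw [zero_pow (by norm_num)]; positivity, Or.inl rfl⟩
  · have h3 : q / 2 = m := by omega
    rw [h3, hm]
    refine ⟨le_of_eq ?_, Or.inr rfl⟩
    congr 2
    have h4 : 2 * m * 2 ^ k ≤ (2 * m + 1) * 2 ^ k := Nat.mul_le_mul_right _ (by omega)
    rw [Finset.sum_Ico_eq_sub _ h4]

theorem four_power {L : ℕ} (x : ℕ → ℂ) :
    ‖∑ k ∈ range L, x k‖ ^ 4 ≤ (L : ℝ) ^ 3 * ∑ k ∈ range L, ‖x k‖ ^ 4 := by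
  have h1 : ‖∑ k ∈ range L, x k‖ ^ 4 ≤ (∑ k ∈ range L, ‖x k‖) ^ 4 :=
    pow_le_pow_left₀ (norm_nonneg _) (norm_sum_le _ _) 4
  refine h1.trans ?_
  have h3 := sq_sum_le_card_mul_sum_sq (s := range L) (f := fun k => ‖x k‖)
  have h4 := sq_sum_le_card_mul_sum_sq (s := range L) (f := fun k => ‖x k‖ ^ 2)
  rw [card_range] at h3 h4
  have h5 : 0 ≤ (∑ k ∈ range L, ‖x k‖) ^ 2 := sq_nonneg _
  calc (∑ k ∈ range L, ‖x k‖) ^ 4 = ((∑ k ∈ range L, ‖x k‖) ^ 2) ^ 2 := by ring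
    _ ≤ ((L : ℝ) * ∑ k ∈ range L, ‖x k‖ ^ 2) ^ 2 := pow_le_pow_left₀ h5 h3 2
    _ = (L : ℝ) ^ 2 * (∑ k ∈ range L, ‖x k‖ ^ 2) ^ 2 := by ring
    _ ≤ (L : ℝ) ^ 2 * ((L : ℝ) * ∑ k ∈ range L, (‖x k‖ ^ 2) ^ 2) :=
        mul_le_mul_of_nonneg_left h4 (by positivity)
    _ = (L : ℝ) ^ 3 * ∑ k ∈ range L, ‖x k‖ ^ 4 := by
        have : ∀ k, (‖x k‖ ^ 2) ^ 2 = ‖x k‖ ^ 4 := fun k => by ring
        simp_rw [this]
        ring

/-- the maximal inequality of Rademacher and Menshov in the fourth power norm -/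
theorem maximal (z : ℕ → ℂ) (L n : ℕ) (hn : n < 2 ^ L) :
    ‖∑ i ∈ range n, z i‖ ^ 4 ≤ (L : ℝ) ^ 3 * ∑ k ∈ range L, ∑ j ∈ range (2 ^ (L - k)),
      ‖∑ i ∈ Ico (j * 2 ^ k) ((j + 1) * 2 ^ k), z i‖ ^ 4 := by
  have h1 : ∑ i ∈ range n, z i = ∑ k ∈ range L,
      (∑ i ∈ range (n / 2 ^ k * 2 ^ k), z i -
        ∑ i ∈ range (n / 2 ^ (k + 1) * 2 ^ (k + 1)), z i) := by
    rw [Finset.sum_range_sub' (fun k => ∑ i ∈ range (n / 2 ^ k * 2 ^ k), z i)]
    have h2 : n / 2 ^ L = 0 := Nat.div_eq_of_lt hn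
    rw [h2]
    simp
  rw [h1]
  refine (four_power _).trans ?_
  apply mul_le_mul_of_nonneg_left _ (by positivity)
  refine Finset.sum_le_sum fun k hk => ?_
  rw [mem_range] at hk
  obtain ⟨h2, h3⟩ := block_eq z n k
  rcases h3 with h3 | h3
  · rw [h3, sub_self, norm_zero]
    have : (0 : ℝ) ^ 4 = 0 := by norm_num
    rw [this]
    exact Finset.sum_nonneg fun j _ => by positivity
  · refine h2.trans ?_
    have h4 : 2 * (n / 2 ^ (k + 1)) ∈ range (2 ^ (L - k)) := by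
      rw [mem_range]
      have h5 : n / 2 ^ k < 2 ^ (L - k) := by
        rw [Nat.div_lt_iff_lt_mul (by positivity), ← pow_add]
        have : L - k + k = L := by omega
        rwa [this]
      omega
    exact Finset.single_le_sum
      (f := fun j => ‖∑ i ∈ Ico (j * 2 ^ k) ((j + 1) * 2 ^ k), z i‖ ^ 4)
      (fun j _ => by positivity) h4

/-! ### Covering by few intervals -/

/-- if separated points with property `P` are few, the set of all points with property `P` is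
covered by few short intervals -/
theorem cover_of_bound {N : ℕ} (hN : 1 ≤ N) (P : ℝ → Prop) (J : ℕ)
    (hb : ∀ Z : Finset ℝ, (∀ x ∈ Z, 0 ≤ x ∧ x < 1 ∧ P x) →
      (∀ r ∈ Z, ∀ s ∈ Z, r ≠ s → lsSep N (s - r)) → Z.card ≤ J) :
    ∃ C : Finset ℝ, C.card ≤ 3 * J ∧ ∀ x : ℝ, 0 ≤ x → x < 1 → P x → ∃ c ∈ C, |x - c| ≤ 1 / N := by
  classical
  set Good : Finset ℝ → Prop := fun Z => (∀ x ∈ Z, 0 ≤ x ∧ x < 1 ∧ P x) ∧
    ∀ r ∈ Z, ∀ s ∈ Z, r ≠ s → lsSep N (s - r) with hGood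
  have hbound : ∀ Z, Good Z → Z.card ≤ J := fun Z hZ => hb Z hZ.1 hZ.2
  obtain ⟨Z, hZ, hmax⟩ : ∃ Z, Good Z ∧ ∀ Z', Good Z' → Z'.card ≤ Z.card := by
    have hb' : ∀ m, (∃ Z, Good Z ∧ Z.card = m) → m ≤ J := by
      rintro m ⟨Z, h1, rfl⟩
      exact hbound Z h1
    have hm₀ : ∃ Z, Good Z ∧ Z.card = 0 := ⟨∅, ⟨by simp, by simp⟩, rfl⟩
    set m := Nat.findGreatest (fun m => ∃ Z, Good Z ∧ Z.card = m) J with hm
    have hP : ∃ Z, Good Z ∧ Z.card = m :=
      Nat.findGreatest_spec (P := fun m => ∃ Z, Good Z ∧ Z.card = m) (hb' 0 hm₀) hm₀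
    obtain ⟨Z, h1, h2⟩ := hP
    refine ⟨Z, h1, fun Z' h3 => ?_⟩
    rw [h2]
    exact Nat.le_findGreatest (hbound Z' h3) ⟨Z', h3, rfl⟩
  refine ⟨Z ∪ (Z.image (fun z => z + 1) ∪ Z.image (fun z => z - 1)), ?_, ?_⟩
  · have h1 := Finset.card_union_le Z (Z.image (fun z => z + 1) ∪ Z.image (fun z => z - 1))
    have h2 := Finset.card_union_le (Z.image (fun z => z + 1)) (Z.image (fun z => z - 1))
    have h3 : (Z.image (fun z => z + 1)).card ≤ Z.card := Finset.card_image_le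
    have h4 : (Z.image (fun z => z - 1)).card ≤ Z.card := Finset.card_image_le
    have h5 := hbound Z hZ
    omega
  · intro x hx0 hx1 hx
    have key : ∃ z ∈ Z, |x - z| ≤ 1 / N ∨ |x - (z + 1)| ≤ 1 / N ∨ |x - (z - 1)| ≤ 1 / N := by
      by_cases hxZ : x ∈ Z
      · refine ⟨x, hxZ, Or.inl ?_⟩
        rw [sub_self, abs_zero]
        positivity
      · by_contra hcon
        push Not at hcon
        have hgood : Good (insert x Z) := by
          have hsep : ∀ z ∈ Z, lsSep N (x - z) := by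
            intro z hz
            by_contra h1
            have h2 := close_of_not_sep hN hx0 hx1 (hZ.1 z hz).1 (hZ.1 z hz).2.1 h1
            obtain ⟨h3, h4, h5⟩ := hcon z hz
            rcases h2 with h2 | h2 | h2
            · linarith
            · linarith
            · linarith
          refine ⟨?_, ?_⟩
          · intro y hy
            rcases Finset.mem_insert.1 hy with rfl | h
            · exact ⟨hx0, hx1, hx⟩
            · exact hZ.1 y h
          · intro r hr s hs hrs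
            rcases Finset.mem_insert.1 hr with rfl | hr'
            · rcases Finset.mem_insert.1 hs with rfl | hs'
              · exact absurd rfl hrs
              · have h1 := (lsSep_neg hN (hsep s hs')).1
                rwa [neg_sub] at h1
            · rcases Finset.mem_insert.1 hs with rfl | hs'
              · exact hsep r hr'
              · exact hZ.2 r hr' s hs' hrs
        have h1 := hmax _ hgood
        rw [Finset.card_insert_of_notMem hxZ] at h1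
        omega
    obtain ⟨z, hz, h1 | h1 | h1⟩ := key
    · exact ⟨z, mem_union_left _ hz, h1⟩
    · exact ⟨z + 1, mem_union_right _ (mem_union_left _ (mem_image_of_mem _ hz)), h1⟩
    · exact ⟨z - 1, mem_union_right _ (mem_union_right _ (mem_image_of_mem _ hz)), h1⟩

/-- separated points with a large partial sum are few -/
theorem separated_few (A : Set ℕ) (B : ℕ) (hB : ∀ n, rep A n ≤ B) (u : ℕ → ℕ)
    (hu : StrictMono u) (huA : ∀ i, u i ∈ A) (hu1 : ∀ i, 1 ≤ u i) (L T : ℕ) (hT : 1 ≤ T)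
    (huT : ∀ i, i < 2 ^ L → u i ≤ T) (Z : Finset ℝ)
    (hZ : ∀ r ∈ Z, ∀ s ∈ Z, r ≠ s → lsSep T (s - r)) (δ : ℝ) (hδ : 0 ≤ δ)
    (hbig : ∀ x ∈ Z, ∃ n, n < 2 ^ L ∧ δ ≤ ‖∑ i ∈ range n, ee (u i * x)‖) :
    (Z.card : ℝ) * δ ^ 4 ≤ 18 * (L : ℝ) ^ 3 * T * B * 4 ^ L := by
  classical
  -- one block
  have hblock : ∀ k j, k < L → j < 2 ^ (L - k) →
      ∑ x ∈ Z, ‖∑ i ∈ Ico (j * 2 ^ k) ((j + 1) * 2 ^ k), ee (u i * x)‖ ^ 4 ≤
        18 * T * (B * 4 ^ k) := by
    intro k j hk hj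
    set F : Finset ℕ := (Ico (j * 2 ^ k) ((j + 1) * 2 ^ k)).image u with hF
    have hlast : (j + 1) * 2 ^ k ≤ 2 ^ L := by
      calc (j + 1) * 2 ^ k ≤ 2 ^ (L - k) * 2 ^ k := Nat.mul_le_mul_right _ hj
        _ = 2 ^ L := by rw [← pow_add]; congr 1; omega
    have hFT : F ⊆ Icc 1 T := by
      intro a ha
      obtain ⟨i, hi, rfl⟩ := Finset.mem_image.1 ha
      rw [mem_Ico] at hi
      rw [mem_Icc]
      exact ⟨hu1 i, huT i (by omega)⟩
    have hcard : F.card = 2 ^ k := by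
      rw [hF, Finset.card_image_of_injective _ hu.injective, Nat.card_Ico]
      rw [← Nat.sub_mul, Nat.add_sub_cancel_left, one_mul]
    have h1 := fourth_sep hT hFT Z hZ
    have h2 : ∑ x ∈ Z, ‖∑ i ∈ Ico (j * 2 ^ k) ((j + 1) * 2 ^ k), ee (u i * x)‖ ^ 4 =
        ∑ x ∈ Z, ‖Sf (ind F) x‖ ^ 4 := by
      refine Finset.sum_congr rfl fun x _ => ?_
      rw [Sf_ind, hF, Finset.sum_image (fun i _ j _ h => hu.injective h)]
    rw [h2]
    refine h1.trans ?_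
    apply mul_le_mul_of_nonneg_left _ (by positivity)
    have h3 : ∑ n ∈ Icc 1 (2 * T), (rF F n : ℝ) ^ 2 ≤ B * (F.card : ℝ) ^ 2 := by
      rw [← sum_rF hFT, Finset.mul_sum]
      refine Finset.sum_le_sum fun n _ => ?_
      have h4 : rF F n ≤ B := (rF_le_rep (A := A) (by
        intro a ha
        obtain ⟨i, _, rfl⟩ := Finset.mem_image.1 ha
        exact huA i) n).trans (hB n)
      have : (rF F n : ℝ) ≤ B := by exact_mod_cast h4
      rw [sq]
      exact mul_le_mul_of_nonneg_right this (Nat.cast_nonneg _)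
    refine h3.trans (le_of_eq ?_)
    rw [hcard]
    push_cast
    rw [← pow_mul, mul_comm k 2, pow_mul]
    norm_num
  have h1 : (Z.card : ℝ) * δ ^ 4 ≤ ∑ x ∈ Z, (L : ℝ) ^ 3 * ∑ k ∈ range L,
      ∑ j ∈ range (2 ^ (L - k)),
        ‖∑ i ∈ Ico (j * 2 ^ k) ((j + 1) * 2 ^ k), ee (u i * x)‖ ^ 4 := by
    rw [← nsmul_eq_mul, ← Finset.sum_const]
    refine Finset.sum_le_sum fun x hx => ?_
    obtain ⟨n, hn, h2⟩ := hbig x hx
    exact (pow_le_pow_left₀ hδ h2 4).trans (maximal (fun i => ee (u i * x)) L n hn)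
  refine h1.trans ?_
  rw [← Finset.mul_sum, Finset.sum_comm]
  have h2 : ∑ k ∈ range L, ∑ x ∈ Z, ∑ j ∈ range (2 ^ (L - k)),
      ‖∑ i ∈ Ico (j * 2 ^ k) ((j + 1) * 2 ^ k), ee (u i * x)‖ ^ 4 ≤
      ∑ k ∈ range L, (18 * T * B * 2 ^ L : ℝ) * 2 ^ k := by
    refine Finset.sum_le_sum fun k hk => ?_
    rw [mem_range] at hk
    rw [Finset.sum_comm]
    calc ∑ j ∈ range (2 ^ (L - k)), ∑ x ∈ Z,
          ‖∑ i ∈ Ico (j * 2 ^ k) ((j + 1) * 2 ^ k), ee (u i * x)‖ ^ 4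
        ≤ ∑ j ∈ range (2 ^ (L - k)), 18 * T * (B * 4 ^ k : ℝ) :=
          Finset.sum_le_sum fun j hj => hblock k j hk (mem_range.1 hj)
      _ = (2 : ℝ) ^ (L - k) * (18 * T * (B * 4 ^ k)) := by
          rw [Finset.sum_const, card_range, nsmul_eq_mul]
          push_cast
          ring
      _ = (18 * T * B * (2 ^ (L - k) * 2 ^ k)) * 2 ^ k := by
          have : (4 : ℝ) ^ k = 2 ^ k * 2 ^ k := by
            rw [← mul_pow]
            norm_num
          rw [this]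
          ring
      _ = _ := by
          rw [← pow_add]
          have : L - k + k = L := by omega
          rw [this]
  have h3 : ∑ k ∈ range L, (2 : ℝ) ^ k ≤ 2 ^ L := by
    rw [geom_sum_eq (by norm_num)]
    norm_num
  calc (L : ℝ) ^ 3 * _ ≤ (L : ℝ) ^ 3 * ∑ k ∈ range L, (18 * T * B * 2 ^ L : ℝ) * 2 ^ k :=
        mul_le_mul_of_nonneg_left h2 (by positivity)
    _ = (L : ℝ) ^ 3 * (18 * T * B * 2 ^ L) * ∑ k ∈ range L, (2 : ℝ) ^ k := by
        rw [← Finset.mul_sum]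
        ring
    _ ≤ (L : ℝ) ^ 3 * (18 * T * B * 2 ^ L) * 2 ^ L :=
        mul_le_mul_of_nonneg_left h3 (by positivity)
    _ = _ := by
        have : (4 : ℝ) ^ L = 2 ^ L * 2 ^ L := by
          rw [← mul_pow]
          norm_num
        rw [this]
        ring

/-! ### Hausdorff measure of limsup sets -/

theorem measure_zero_of_cover_sums (E : Set ℝ) (J : ℕ → ℕ) (C : ∀ i, Fin (J i) → ℝ) (ρ : ℕ → ℝ)
    (hρ0 : ∀ i, 0 ≤ ρ i) (hρa : Antitone ρ) (hρ : Tendsto ρ atTop (𝓝 0)) (d : ℝ) (hd : 0 < d)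
    (hsum : Summable fun i => (J i : ℝ) * ρ i ^ d)
    (hE : ∀ x ∈ E, ∃ᶠ i in atTop, ∃ j, |x - C i j| ≤ ρ i) : μH[d] E = 0 := by
  set t : ∀ m : ℕ, (Σ i : ℕ, Fin (J (m + i))) → Set ℝ := fun m p =>
    Set.Icc (C (m + p.1) p.2 - ρ (m + p.1)) (C (m + p.1) p.2 + ρ (m + p.1)) with ht
  have hdiam : ∀ m p, Metric.ediam (t m p) = ENNReal.ofReal (2 * ρ (m + p.1)) := by
    intro m p
    simp only [ht]
    rw [Real.ediam_Icc]
    congr 1
    ring
  have hS : Summable fun i => (2 : ℝ) ^ d * ((J i : ℝ) * ρ i ^ d) := hsum.mul_left _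
  have hS0 : ∀ i, 0 ≤ (2 : ℝ) ^ d * ((J i : ℝ) * ρ i ^ d) := fun i =>
    mul_nonneg (by positivity) (mul_nonneg (by positivity) (Real.rpow_nonneg (hρ0 i) _))
  have htsum : ∀ m, ∑' p, Metric.ediam (t m p) ^ d =
      ENNReal.ofReal (∑' i, (2 : ℝ) ^ d * ((J (i + m) : ℝ) * ρ (i + m) ^ d)) := by
    intro m
    rw [ENNReal.tsum_sigma', ENNReal.ofReal_tsum_of_nonneg (fun i => hS0 (i + m))
      ((summable_nat_add_iff m).2 hS)]
    refine tsum_congr fun i => ?_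
    have h1 : ∀ j : Fin (J (m + i)), Metric.ediam (t m ⟨i, j⟩) ^ d =
        ENNReal.ofReal ((2 : ℝ) ^ d * ρ (m + i) ^ d) := by
      intro j
      rw [hdiam, ENNReal.ofReal_rpow_of_nonneg (by have := hρ0 (m + i); positivity) hd.le,
        Real.mul_rpow (by norm_num) (hρ0 _)]
    simp_rw [h1]
    rw [tsum_fintype, Finset.sum_const, Finset.card_univ, Fintype.card_fin, nsmul_eq_mul]
    have h2 : (J (m + i) : ℝ≥0∞) = ENNReal.ofReal (J (m + i) : ℝ) := by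
      rw [ENNReal.ofReal_natCast]
    rw [h2, ← ENNReal.ofReal_mul (Nat.cast_nonneg _), add_comm m i]
    congr 1
    ring
  have hlim : Tendsto (fun m => ∑' p, Metric.ediam (t m p) ^ d) atTop (𝓝 0) := by
    simp_rw [htsum]
    have h1 := tendsto_sum_nat_add (fun i => (2 : ℝ) ^ d * ((J i : ℝ) * ρ i ^ d))
    have h2 := ENNReal.tendsto_ofReal h1
    rwa [ENNReal.ofReal_zero] at h2
  have hr : Tendsto (fun m : ℕ => ENNReal.ofReal (2 * ρ m)) atTop (𝓝 0) := by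
    have h1 : Tendsto (fun m : ℕ => 2 * ρ m) atTop (𝓝 (2 * 0)) := hρ.const_mul _
    have h2 := ENNReal.tendsto_ofReal h1
    rwa [mul_zero, ENNReal.ofReal_zero] at h2
  have hmain := hausdorffMeasure_le_liminf_tsum (ι := fun m : ℕ => Σ i : ℕ, Fin (J (m + i))) d E
    (l := atTop) (fun m : ℕ => ENNReal.ofReal (2 * ρ m)) hr t ?_ ?_
  · rw [hlim.liminf_eq] at hmain
    exact le_antisymm hmain zero_le
  · refine Eventually.of_forall fun m p => ?_
    rw [hdiam]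
    apply ENNReal.ofReal_le_ofReal
    have h1 : ρ (m + p.1) ≤ ρ m := hρa (by omega)
    linarith
  · refine Eventually.of_forall fun m x hx => ?_
    obtain ⟨i, hi, j, hj⟩ := (frequently_atTop.1 (hE x hx)) m
    rw [Set.mem_iUnion]
    obtain ⟨i', rfl⟩ : ∃ i', i = m + i' := ⟨i - m, by omega⟩
    refine ⟨⟨i', j⟩, ?_⟩
    simp only [ht]
    rw [Set.mem_Icc]
    rw [abs_le] at hj
    constructor <;> linarith

end Pool.Agent.TH314.ET
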