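import Mathlib
import Pool.Agent.TH314.ET.Maxi

/-!
# Hausdorff dimension of the exceptional set for sparse sets with few representations
-/

set_option autoImplicit false

open Finset Filter Topology MeasureTheory MeasureTheory.Measure
open scoped ENNReal NNReal

namespace Pool.Agent.TH314.ET

open Pool.Agent.Helper112

/-- frequencies in `[0, 1)` with large exponential sums -/
def ExS (u : ℕ → ℕ) (ε : ℝ) : Set ℝ :=
  {x | 0 ≤ x ∧ x < 1 ∧ ∃ᶠ n : ℕ in atTop, ε * n ≤ ‖∑ i ∈ range n, ee (u i * x)‖}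

theorem exS_measure (A : Set ℕ) (B : ℕ) (hB : ∀ n, rep A n ≤ B) (u : ℕ → ℕ) (hu : StrictMono u)
    (huA : ∀ i, u i ∈ A) (hu1 : ∀ i, 1 ≤ u i) {β d ε : ℝ} (hβ0 : 0 < β) (hβ1 : β ≤ 1)
    (hd0 : 0 < d) (hd1 : d < 1) (hdβ : 1 - d < 2 * β) (hε : 0 < ε)
    (hgrow : ∀ᶠ l : ℕ in atTop, ∀ i, i < 2 ^ (l + 1) → u i ≤ 2 ^ ⌈((l : ℝ) + 3) / β⌉₊) :
    μH[d] (ExS u ε) = 0 := by
  classical
  set e : ℕ → ℕ := fun l : ℕ => ⌈((l : ℝ) + 3) / β⌉₊ with he
  set T : ℕ → ℕ := fun l => 2 ^ e l with hT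
  have hT1 : ∀ l, 1 ≤ T l := fun l => Nat.one_le_two_pow
  have he1 : ∀ l : ℕ, ((l : ℝ) + 3) / β ≤ e l := fun l => Nat.le_ceil _
  have he2 : ∀ l : ℕ, (e l : ℝ) ≤ ((l : ℝ) + 3) / β + 1 := fun l =>
    (Nat.ceil_lt_add_one (by positivity)).le
  have he3 : ∀ l : ℕ, (l : ℝ) ≤ e l := by
    intro l
    refine le_trans ?_ (he1 l)
    rw [le_div_iff₀ hβ0]
    have : (0 : ℝ) ≤ l := Nat.cast_nonneg _
    nlinarith
  have hemono : Monotone e := by
    intro a b hab
    apply Nat.ceil_mono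
    apply div_le_div_of_nonneg_right _ hβ0.le
    have : (a : ℝ) ≤ b := by exact_mod_cast hab
    linarith
  set K : ℝ := 72 * B / ε ^ 4 with hK
  have hK0 : 0 ≤ K := by positivity
  set J : ℕ → ℕ := fun l => ⌈K * ((l : ℝ) + 1) ^ 3 * T l / 4 ^ l⌉₊ with hJ
  -- covers
  have hcov : ∀ l, ∃ f : Fin (3 * J l) → ℝ, (∀ i, i < 2 ^ (l + 1) → u i ≤ T l) →
      ∀ x : ℝ, 0 ≤ x → x < 1 →
      (∃ n, n < 2 ^ (l + 1) ∧ ε * 2 ^ l ≤ ‖∑ i ∈ range n, ee (u i * x)‖) →
      ∃ j, |x - f j| ≤ 1 / (T l : ℝ) := by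
    intro l
    by_cases hl : ∀ i, i < 2 ^ (l + 1) → u i ≤ T l
    · obtain ⟨C, hC1, hC2⟩ := cover_of_bound (hT1 l)
        (fun x => ∃ n, n < 2 ^ (l + 1) ∧ ε * 2 ^ l ≤ ‖∑ i ∈ range n, ee (u i * x)‖) (J l) (by
          intro Z hZ1 hZ2
          have h1 := separated_few A B hB u hu huA hu1 (l + 1) (T l) (hT1 l) hl Z hZ2 (ε * 2 ^ l)
            (by positivity) (fun x hx => (hZ1 x hx).2.2)
          have h2 : (Z.card : ℝ) ≤ K * ((l : ℝ) + 1) ^ 3 * T l / 4 ^ l := by
            rw [le_div_iff₀ (by positivity)]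
            have h3 : (ε * 2 ^ l) ^ 4 = ε ^ 4 * (4 ^ l * 4 ^ l : ℝ) := by
              rw [mul_pow, ← pow_mul, ← mul_pow, mul_comm l 4, pow_mul]
              norm_num
            rw [h3] at h1
            have h4 : 18 * (((l + 1 : ℕ)) : ℝ) ^ 3 * (T l : ℝ) * B * 4 ^ (l + 1) =
                (72 * B * ((l : ℝ) + 1) ^ 3 * T l) * 4 ^ l := by
              push_cast
              rw [pow_succ]
              ring
            rw [h4] at h1
            have h5 : ((Z.card : ℝ) * 4 ^ l * ε ^ 4) * 4 ^ l ≤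
                (72 * B * ((l : ℝ) + 1) ^ 3 * T l) * 4 ^ l := by
              refine le_trans (le_of_eq ?_) h1
              ring
            have h6 := le_of_mul_le_mul_right h5 (by positivity)
            rw [hK, div_mul_eq_mul_div, div_mul_eq_mul_div, le_div_iff₀ (by positivity)]
            exact h6
          have h7 : (Z.card : ℝ) ≤ (J l : ℝ) := h2.trans (Nat.le_ceil _)
          exact Nat.cast_le.1 h7)
      obtain ⟨f, hf⟩ := exists_enum C (3 * J l) hC1
      refine ⟨f, fun _ x hx0 hx1 hx => ?_⟩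
      obtain ⟨z, hz, hz'⟩ := hC2 x hx0 hx1 hx
      obtain ⟨j, rfl⟩ := hf z hz
      exact ⟨j, hz'⟩
    · exact ⟨fun _ => 0, fun h => absurd h hl⟩
  choose C hC using hcov
  have hTr : ∀ l, (T l : ℝ) = (2 : ℝ) ^ (e l : ℝ) := by
    intro l
    simp only [hT]
    rw [Real.rpow_natCast]
    push_cast
    rfl
  refine measure_zero_of_cover_sums (ExS u ε) (fun l => 3 * J l) C (fun l => 1 / (T l : ℝ))
    (fun l => by positivity) ?_ ?_ d hd0 ?_ ?_
  · -- antitone
    intro a b hab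
    simp only
    apply one_div_le_one_div_of_le
    · have := hT1 a
      positivity
    · have : T a ≤ T b := Nat.pow_le_pow_right (by norm_num) (hemono hab)
      exact_mod_cast this
  · -- tends to zero
    have h1 : Tendsto (fun l : ℕ => ((1 : ℝ) / 2) ^ l) atTop (𝓝 0) :=
      tendsto_pow_atTop_nhds_zero_of_lt_one (by norm_num) (by norm_num)
    refine squeeze_zero (fun l => by positivity) (fun l => ?_) h1
    rw [div_pow, one_pow]
    apply one_div_le_one_div_of_le (by positivity)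
    have h2 : l ≤ e l := by exact_mod_cast he3 l
    have h3 : 2 ^ l ≤ T l := Nat.pow_le_pow_right (by norm_num) h2
    exact_mod_cast h3
  · -- summability
    set q : ℝ := (2 : ℝ) ^ ((1 - d) / β) / 4 with hq
    have hq0 : 0 < q := by positivity
    have hq1 : q < 1 := by
      rw [hq, div_lt_one (by norm_num)]
      have h1 : (1 - d) / β < 2 := by
        rw [div_lt_iff₀ hβ0]
        exact hdβ
      calc (2 : ℝ) ^ ((1 - d) / β) < (2 : ℝ) ^ (2 : ℝ) :=
            Real.rpow_lt_rpow_of_exponent_lt (by norm_num) h1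
        _ = 4 := by norm_num
    set C₀ : ℝ := (2 : ℝ) ^ ((3 / β + 1) * (1 - d)) with hC₀
    have hsum1 : Summable fun l : ℕ => 3 * K * C₀ * (((l : ℝ) + 1) ^ 3 * q ^ l) := by
      apply Summable.mul_left
      have h1 := summable_pow_mul_geometric_of_norm_lt_one 3 (r := q)
        (by rw [Real.norm_eq_abs, abs_of_pos hq0]; exact hq1)
      have h2 := (summable_nat_add_iff 1).2 h1
      have h3 := h2.mul_left q⁻¹
      refine h3.congr fun l => ?_
      push_cast
      rw [pow_succ q]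
      field_simp
    have hsum2 : Summable fun l : ℕ => 3 * ((2 : ℝ) ^ (-d)) ^ l := by
      apply Summable.mul_left
      apply summable_geometric_of_lt_one (by positivity)
      exact Real.rpow_lt_one_of_one_lt_of_neg (by norm_num) (by linarith)
    refine Summable.of_nonneg_of_le (fun l => by positivity) (fun l => ?_) (hsum1.add hsum2)
    have hTpos : (0 : ℝ) < T l := by
      have := hT1 l
      positivity
    have h1 : (J l : ℝ) ≤ K * ((l : ℝ) + 1) ^ 3 * T l / 4 ^ l + 1 :=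
      (Nat.ceil_lt_add_one (by positivity)).le
    have h2 : (1 / (T l : ℝ)) ^ d = (2 : ℝ) ^ (-(d * e l)) := by
      rw [one_div, Real.inv_rpow hTpos.le, hTr, ← Real.rpow_mul (by norm_num),
        ← Real.rpow_neg (by norm_num)]
      congr 1
      ring
    have h3 : (1 / (T l : ℝ)) ^ d ≤ ((2 : ℝ) ^ (-d)) ^ l := by
      rw [h2, ← Real.rpow_natCast, ← Real.rpow_mul (by norm_num)]
      apply Real.rpow_le_rpow_of_exponent_le (by norm_num)
      have := he3 l
      nlinarith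
    have h4 : (T l : ℝ) * (1 / (T l : ℝ)) ^ d / 4 ^ l ≤ C₀ * q ^ l := by
      rw [h2, hTr, ← Real.rpow_add (by norm_num), hq, div_pow, ← mul_div_assoc]
      apply div_le_div_of_nonneg_right _ (by positivity)
      rw [hC₀, ← Real.rpow_natCast ((2 : ℝ) ^ ((1 - d) / β)), ← Real.rpow_mul (by norm_num),
        ← Real.rpow_add (by norm_num)]
      apply Real.rpow_le_rpow_of_exponent_le (by norm_num)
      have h5 := he2 l
      have h6 : (e l : ℝ) * (1 - d) ≤ (((l : ℝ) + 3) / β + 1) * (1 - d) :=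
        mul_le_mul_of_nonneg_right h5 (by linarith)
      have h7 : (((l : ℝ) + 3) / β + 1) * (1 - d) =
          (3 / β + 1) * (1 - d) + (1 - d) / β * (l : ℝ) := by
        field_simp
        ring
      linarith
    have h5 : (0 : ℝ) ≤ (1 / (T l : ℝ)) ^ d := by positivity
    push_cast
    calc 3 * (J l : ℝ) * (1 / (T l : ℝ)) ^ d
        ≤ 3 * (K * ((l : ℝ) + 1) ^ 3 * T l / 4 ^ l + 1) * (1 / (T l : ℝ)) ^ d := by
          apply mul_le_mul_of_nonneg_right _ h5
          linarith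
      _ = 3 * K * ((l : ℝ) + 1) ^ 3 * ((T l : ℝ) * (1 / (T l : ℝ)) ^ d / 4 ^ l) +
          3 * (1 / (T l : ℝ)) ^ d := by ring
      _ ≤ 3 * K * ((l : ℝ) + 1) ^ 3 * (C₀ * q ^ l) + 3 * ((2 : ℝ) ^ (-d)) ^ l := by
          apply add_le_add
          · exact mul_le_mul_of_nonneg_left h4 (by positivity)
          · linarith
      _ = _ := by ring
  · -- the points of the exceptional set
    rintro x ⟨hx0, hx1, hx⟩
    rw [frequently_atTop]
    intro m
    obtain ⟨l₀, hl₀⟩ := eventually_atTop.1 hgrow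
    obtain ⟨n, hn, hnx⟩ := (frequently_atTop.1 hx) (2 ^ (max m l₀))
    have hn0 : n ≠ 0 := by
      have : 0 < 2 ^ (max m l₀) := by positivity
      omega
    set l := Nat.log 2 n with hl
    have hl1 : 2 ^ l ≤ n := Nat.pow_log_le_self 2 hn0
    have hl2 : n < 2 ^ (l + 1) := Nat.lt_pow_succ_log_self (by norm_num) n
    have hl3 : max m l₀ ≤ l := by
      rw [hl]
      exact (Nat.le_log_iff_pow_le (by norm_num) hn0).2 hn
    refine ⟨l, (le_max_left _ _).trans hl3, ?_⟩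
    refine hC l (hl₀ l ((le_max_right _ _).trans hl3)) x hx0 hx1 ⟨n, hl2, ?_⟩
    refine le_trans ?_ hnx
    apply mul_le_mul_of_nonneg_left _ hε.le
    exact_mod_cast hl1

/-- failure of uniform distribution gives large exponential sums, indexed by the number of terms -/
theorem not_ud_index {A : Set ℕ} (θ : ℝ)
    (h : ¬ Pool.Agent.H84R3.UD (fun n => θ * en A n)) :
    ∃ k m : ℕ, 1 ≤ k ∧ ∃ᶠ n : ℕ in atTop,
      1 / ((m : ℝ) + 1) * n ≤ ‖∑ i ∈ range n, ee (en A (i + 1) * (k * θ))‖ := by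
  classical
  have h1 : ∃ k : ℕ, 1 ≤ k ∧
      ¬ Tendsto (fun N => Pool.Agent.H84R3.A (fun n => θ * en A n) k N) atTop (𝓝 0) := by
    by_contra hcon
    push Not at hcon
    exact h (Pool.Agent.H84R3.ud_of_weyl _ fun k hk => hcon k hk)
  obtain ⟨k, hk, h2⟩ := h1
  rw [Metric.tendsto_atTop] at h2
  push Not at h2
  obtain ⟨ε, hε, h3⟩ := h2
  obtain ⟨m, hm⟩ := exists_nat_gt (2 / ε)
  refine ⟨k, m, hk, ?_⟩
  have hm0 : (0 : ℝ) < (m : ℝ) + 1 := by positivity
  have hm1 : 1 / ((m : ℝ) + 1) ≤ ε / 2 := by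
    rw [div_lt_iff₀ hε] at hm
    rw [div_le_div_iff₀ hm0 two_pos]
    nlinarith
  rw [frequently_atTop]
  intro b
  obtain ⟨B, hB⟩ := exists_nat_gt (2 / ε)
  obtain ⟨N, hN, hN2⟩ := h3 (max (b + 1) (B + 2))
  obtain ⟨n, rfl⟩ : ∃ n, N = n + 1 := ⟨N - 1, by
    have := (le_max_left (b + 1) (B + 2)).trans hN
    omega⟩
  have hnb : b ≤ n := by
    have := (le_max_left (b + 1) (B + 2)).trans hN
    omega
  have hnB : B ≤ n := by
    have := (le_max_right (b + 1) (B + 2)).trans hN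
    omega
  refine ⟨n, hnb, ?_⟩
  have h4 : Pool.Agent.H84R3.A (fun n => θ * en A n) k (n + 1) =
      (∑ i ∈ range (n + 1), ee (en A i * (k * θ))) / ((n + 1 : ℕ) : ℂ) := by
    unfold Pool.Agent.H84R3.A
    congr 1
    refine Finset.sum_congr rfl fun i _ => ?_
    rw [ee_eq_ex]
    congr 1
    ring
  rw [h4, dist_zero_right, norm_div, Complex.norm_natCast, le_div_iff₀ (by positivity)] at hN2
  have h5 : ‖∑ i ∈ range (n + 1), ee (en A i * (k * θ))‖ ≤
      ‖∑ i ∈ range n, ee (en A (i + 1) * (k * θ))‖ + 1 := by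
    rw [Finset.sum_range_succ']
    refine (norm_add_le _ _).trans ?_
    rw [ls_norm_ee]
  have h7 : (B : ℝ) ≤ n := by exact_mod_cast hnB
  have h8 : 1 ≤ ε / 2 * n := by
    rw [div_lt_iff₀ hε] at hB
    nlinarith
  push_cast at hN2
  have h9 : 1 / ((m : ℝ) + 1) * n ≤ ε / 2 * n := mul_le_mul_of_nonneg_right hm1 (Nat.cast_nonneg _)
  nlinarith

/-- many elements up to `T` -/
theorem en_le_of_card {A : Set ℕ} {T m : ℕ} (h : m + 1 ≤ (A ∩ Set.Icc 1 T).ncard) :
    en A m ≤ T := by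
  classical
  have h1 : m < Nat.count (· ∈ A) (T + 1) := by
    rw [Nat.count_eq_card_filter_range]
    have h2 : seg A T ⊆ (range (T + 1)).filter (· ∈ A) := by
      intro a ha
      rw [mem_seg] at ha
      rw [mem_filter, mem_range]
      exact ⟨by omega, ha.2⟩
    have h3 := Finset.card_le_card h2
    rw [seg_card] at h
    omega
  have h2 := Nat.nth_lt_of_lt_count h1
  have h3 : en A m < T + 1 := by
    unfold en
    convert h2
  omega

/-- **The exceptional set of a sparse set with bounded representation function.** -/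
theorem sparse_dim (A : Set ℕ) (hinf : A.Infinite) (B : ℕ) (hB : ∀ n, rep A n ≤ B) (α : ℝ)
    (hα0 : 0 < α) (hα1 : α ≤ 1)
    (hgrow : ∀ β : ℝ, 0 < β → β < α →
      ∀ᶠ N : ℕ in atTop, (N : ℝ) ^ β ≤ ((A ∩ Set.Icc 1 N).ncard : ℝ)) :
    dimH {θ : ℝ | ¬ Pool.Agent.H84R3.UD (fun n => θ * en A n)} ≤ ENNReal.ofReal (1 - 2 * α) := by
  classical
  by_contra hcon
  push Not at hcon
  obtain ⟨d, hd1, hd2⟩ := ENNReal.lt_iff_exists_nnreal_btwn.1 hcon
  have hdlt : (d : ℝ) < 1 := by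
    have h1 : dimH {θ : ℝ | ¬ Pool.Agent.H84R3.UD (fun n => θ * en A n)} ≤ 1 :=
      (dimH_mono (Set.subset_univ _)).trans (le_of_eq Real.dimH_univ)
    have h2 : (d : ℝ≥0∞) < 1 := hd2.trans_le h1
    exact_mod_cast h2
  have hd3 : 1 - 2 * α < (d : ℝ) := by
    by_contra h
    push Not at h
    have h1 := ENNReal.ofReal_le_ofReal h
    rw [ENNReal.ofReal_coe_nnreal] at h1
    exact absurd hd1 (not_lt.2 h1)
  have hd4 : 0 < (d : ℝ) := by
    have h1 : (0 : ℝ≥0∞) < d := lt_of_le_of_lt zero_le hd1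
    exact_mod_cast h1
  -- the exponent
  obtain ⟨β, hβ1, hβ2⟩ : ∃ β : ℝ, max ((1 - (d : ℝ)) / 2) 0 < β ∧ β < α :=
    _root_.exists_between (max_lt (by linarith) hα0)
  have hβ0 : 0 < β := lt_of_le_of_lt (le_max_right _ _) hβ1
  have hβd : 1 - (d : ℝ) < 2 * β := by
    have := lt_of_le_of_lt (le_max_left ((1 - (d : ℝ)) / 2) 0) hβ1
    linarith
  set u : ℕ → ℕ := fun i => en A (i + 1) with hu
  have humono : StrictMono u := fun i j hij => en_mono hinf (by omega)
  have hu1 : ∀ i, 1 ≤ u i := by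
    intro i
    have := en_mono hinf (show 0 < i + 1 by omega)
    simp only [hu]
    omega
  have hgr : ∀ᶠ l : ℕ in atTop, ∀ i, i < 2 ^ (l + 1) → u i ≤ 2 ^ ⌈((l : ℝ) + 3) / β⌉₊ := by
    obtain ⟨N₀, hN₀⟩ := eventually_atTop.1 (hgrow β hβ0 hβ2)
    filter_upwards [eventually_ge_atTop N₀] with l hl i hi
    set e := ⌈((l : ℝ) + 3) / β⌉₊ with he
    have he1 : ((l : ℝ) + 3) / β ≤ e := Nat.le_ceil _
    have hle : l ≤ e := by
      have h1 : (l : ℝ) ≤ e := by
        refine le_trans ?_ he1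
        rw [le_div_iff₀ hβ0]
        have h2 : (0 : ℝ) ≤ l := Nat.cast_nonneg _
        nlinarith
      exact_mod_cast h1
    have h1 : N₀ ≤ 2 ^ e := by
      have := Nat.lt_two_pow_self (n := e)
      omega
    have h2 := hN₀ _ h1
    have h3 : (2 : ℝ) ^ (l + 3) ≤ (((2 : ℕ) ^ e : ℕ) : ℝ) ^ β := by
      push_cast
      rw [← Real.rpow_natCast, ← Real.rpow_natCast 2 e, ← Real.rpow_mul (by norm_num)]
      apply Real.rpow_le_rpow_of_exponent_le (by norm_num)
      rw [div_le_iff₀ hβ0] at he1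
      push_cast
      exact he1
    have h4 : 2 ^ (l + 3) ≤ (A ∩ Set.Icc 1 (2 ^ e)).ncard := by
      exact_mod_cast h3.trans h2
    apply en_le_of_card
    have h5 : 2 ^ (l + 3) = 4 * 2 ^ (l + 1) := by ring
    have h6 : 1 ≤ 2 ^ (l + 1) := Nat.one_le_two_pow
    omega
  have hmeas : ∀ ε : ℝ, 0 < ε → dimH (ExS u ε) ≤ d := by
    intro ε hε
    have h1 := exS_measure A B hB u humono (fun i => en_mem hinf _) hu1 hβ0 (by linarith) hd4 hdlt
      hβd hε hgr
    apply dimH_le_of_hausdorffMeasure_ne_top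
    rw [h1]
    exact ENNReal.zero_ne_top
  -- the cover of the exceptional set
  have hsub : {θ : ℝ | ¬ Pool.Agent.H84R3.UD (fun n => θ * en A n)} ⊆
      ⋃ p : ℕ × ℕ × ℤ, (fun x : ℝ => (1 / ((p.1 : ℝ) + 1)) * (x + p.2.2)) ''
        ExS u (1 / ((p.2.1 : ℝ) + 1)) := by
    intro θ hθ
    obtain ⟨k, m, hk, h2⟩ := not_ud_index θ hθ
    rw [Set.mem_iUnion]
    refine ⟨(k - 1, m, ⌊(k : ℝ) * θ⌋), Int.fract ((k : ℝ) * θ),
      ⟨Int.fract_nonneg _, Int.fract_lt_one _, ?_⟩, ?_⟩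
    · refine h2.mono fun n hn => hn.trans (le_of_eq ?_)
      congr 1
      refine Finset.sum_congr rfl fun i _ => ?_
      have h3 : (en A (i + 1) : ℝ) * (k * θ) =
          (u i : ℝ) * Int.fract ((k : ℝ) * θ) + ((en A (i + 1) * ⌊(k : ℝ) * θ⌋ : ℤ) : ℝ) := by
        simp only [hu]
        push_cast
        rw [← mul_add, Int.fract_add_floor]
      rw [h3, ls_ee_add, ls_ee_int, mul_one]
    · simp only
      rw [Int.fract_add_floor, Nat.cast_sub hk]
      have : (k : ℝ) ≠ 0 := by positivity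
      push_cast
      rw [sub_add_cancel]
      field_simp
  have hfin : dimH {θ : ℝ | ¬ Pool.Agent.H84R3.UD (fun n => θ * en A n)} ≤ d := by
    refine (dimH_mono hsub).trans ?_
    rw [dimH_iUnion]
    refine iSup_le fun p => ?_
    have hp0 : (0 : ℝ) ≤ 1 / ((p.1 : ℝ) + 1) := by positivity
    have hp1 : 1 / ((p.1 : ℝ) + 1) ≤ 1 := by
      rw [div_le_one (by positivity)]
      have : (0 : ℝ) ≤ p.1 := Nat.cast_nonneg _
      linarith
    have h2 : LipschitzWith 1 (fun x : ℝ => (1 / ((p.1 : ℝ) + 1)) * (x + p.2.2)) := by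
      apply LipschitzWith.of_dist_le_mul
      intro x y
      rw [Real.dist_eq, Real.dist_eq, ← mul_sub, abs_mul, abs_of_nonneg hp0, NNReal.coe_one]
      have h3 : x + (p.2.2 : ℝ) - (y + p.2.2) = x - y := by ring
      rw [h3]
      exact mul_le_mul_of_nonneg_right hp1 (abs_nonneg _)
    exact (h2.dimH_image_le _).trans (hmeas _ (by positivity))
  exact absurd hfin (not_le.2 hd2)

end Pool.Agent.TH314.ET
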