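import Mathlib
import Pool.Agent.TH314.ET.Equi

/-!
# Density thresholds inside sets which miss residue classes
-/

set_option autoImplicit false

open Finset Filter Topology

namespace Pool.Agent.TH314.ET

open Pool.Agent.Helper112

/-- the large sieve sum of `S`: the sum over the squarefree `q ≤ √N` of
`φ(q)⁻¹ ∏_{p ∣ q} ((p - ν p) / ν p) ^ 2`, `ν p = res S p` -/
noncomputable def lsum (S : Set ℕ) (N : ℕ) : ℝ :=
  ∑ q ∈ (Icc 1 (Nat.sqrt N)).filter Squarefree,
    (∏ p ∈ q.primeFactors, (((p : ℝ) - res S p) / res S p) ^ 2) / (Nat.totient q : ℝ)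

/-- every `A ⊆ S` with `|A ∩ [1, N]| ≥ c √N / g N` for some `c > 0` and arbitrarily large `N` has
an unbounded representation function -/
def ForcesIn (S : Set ℕ) (g : ℕ → ℝ) : Prop :=
  ∀ A : Set ℕ, A ⊆ S →
    (∃ c : ℝ, 0 < c ∧ ∃ᶠ N : ℕ in atTop,
      c * Real.sqrt N / g N ≤ ((A ∩ Set.Icc 1 N).ncard : ℝ)) →
    ∀ B : ℕ, ∃ n : ℕ, B ≤ rep A n

theorem lsum_eq (S : Set ℕ) (N : ℕ) :
    lsum S N = ∑ q ∈ (Icc 1 (Nat.sqrt N)).filter Squarefree, wt (fun p => res S p) q := rfl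

theorem lsum_nonneg (S : Set ℕ) (N : ℕ) : 0 ≤ lsum S N := by
  rw [lsum_eq]
  exact Finset.sum_nonneg fun q _ => wt_nonneg _ q

theorem lsum_mono (S : Set ℕ) {M N : ℕ} (h : M ≤ N) : lsum S M ≤ lsum S N := by
  rw [lsum_eq, lsum_eq]
  apply Finset.sum_le_sum_of_subset_of_nonneg
  · intro q hq
    rw [mem_filter, mem_Icc] at hq ⊢
    exact ⟨⟨hq.1.1, hq.1.2.trans (Nat.sqrt_le_sqrt h)⟩, hq.2⟩
  · exact fun q _ _ => wt_nonneg _ q

theorem lsum_le (S : Set ℕ) {F : Finset ℕ} (hF : F.Nonempty) (hFS : ∀ a ∈ F, a ∈ S) (N : ℕ) :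
    lsum S N ≤ ∑ q ∈ (Icc 1 (Nat.sqrt N)).filter Squarefree, wt (occ F) q := by
  rw [lsum_eq]
  refine Finset.sum_le_sum fun q _ => ?_
  unfold wt
  apply div_le_div_of_nonneg_right _ (Nat.cast_nonneg _)
  refine Finset.prod_le_prod (fun p _ => by positivity) fun p hp => ?_
  have hp' := Nat.prime_of_mem_primeFactors hp
  have ho1 : (0 : ℝ) < occ F p := by exact_mod_cast occ_pos hF p
  have ho2 : (occ F p : ℝ) ≤ res S p := by
    have : occ F p ≤ res S p := by
      rw [occ, res, ← Set.ncard_coe_finset]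
      apply Set.ncard_le_ncard _ (res_finite S hp'.pos)
      intro x hx
      obtain ⟨a, ha, rfl⟩ := Finset.mem_image.1 (Finset.mem_coe.1 hx)
      exact ⟨a, hFS a ha, rfl⟩
    exact_mod_cast this
  have ho3 : (res S p : ℝ) ≤ p := by exact_mod_cast res_le S hp'.pos
  exact ratio_mono ho1 ho2 ho3

theorem finite_sub (S A : Set ℕ) (hA : A ⊆ S) (N : ℕ) : ∃ n, n ≤ 2 * N ∧
    ((A ∩ Set.Icc 1 N).ncard : ℝ) ^ 2 * lsum S N ≤ 18 * N * rep A n := by
  obtain ⟨n, hn, h⟩ := finite_form A N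
  refine ⟨n, hn, le_trans ?_ h⟩
  rcases (seg A N).eq_empty_or_nonempty with h0 | h0
  · rw [seg_card, h0]
    simp
  · exact mul_le_mul_of_nonneg_left
      (lsum_le S h0 (fun a ha => hA (mem_seg.1 ha).2) N) (by positivity)

theorem seg_inter_card {ι : Type} [Fintype ι] (S : ι → Set ℕ) (A : Set ℕ) (hA : A ⊆ ⋃ i, S i)
    (N : ℕ) : (A ∩ Set.Icc 1 N).ncard ≤ ∑ i, ((A ∩ S i) ∩ Set.Icc 1 N).ncard := by
  classical
  simp_rw [seg_card]
  have h : seg A N ⊆ Finset.univ.biUnion (fun i => seg (A ∩ S i) N) := by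
    intro a ha
    rw [mem_seg] at ha
    obtain ⟨i, hi⟩ := Set.mem_iUnion.1 (hA ha.2)
    rw [Finset.mem_biUnion]
    exact ⟨i, Finset.mem_univ _, mem_seg.2 ⟨ha.1, ha.2, hi⟩⟩
  exact (Finset.card_le_card h).trans Finset.card_biUnion_le

theorem rep_mono {A B : Set ℕ} (h : A ⊆ B) (n : ℕ) : rep A n ≤ rep B n := by
  classical
  rw [rep_eq, rep_eq]
  apply Finset.card_le_card
  intro x hx
  rw [mem_filter] at hx ⊢
  exact ⟨hx.1, h hx.2.1, h hx.2.2⟩

/-- the threshold theorem -/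
theorem forces_of_lsum {ι : Type} [Fintype ι] (S : ι → Set ℕ) (g : ℕ → ℝ)
    (hg : ∀ᶠ N in atTop, 0 < g N)
    (hσ : ∀ i, Tendsto (fun N => lsum (S i) N / g N ^ 2) atTop atTop) :
    ForcesIn (⋃ i, S i) g := by
  classical
  intro A hA hc B
  obtain ⟨c, hc, hfreq⟩ := hc
  by_contra hcon
  push Not at hcon
  -- the union is not empty
  have hk : 0 < Fintype.card ι := by
    by_contra h0
    have h1 : Fintype.card ι = 0 := by omega
    obtain ⟨N, hN1, hN2, hN3⟩ := (hfreq.and_eventually (hg.and (eventually_ge_atTop 1))).exists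
    have h2 := seg_inter_card S A hA N
    have := Fintype.card_eq_zero_iff.1 h1
    rw [Finset.univ_eq_empty, Finset.sum_empty] at h2
    have h3 : (A ∩ Set.Icc 1 N).ncard = 0 := by omega
    rw [h3] at hN1
    have h4 : (0 : ℝ) < N := by exact_mod_cast hN3
    have h5 : 0 < c * Real.sqrt N / g N := by positivity
    norm_num at hN1
    linarith
  set k : ℝ := (Fintype.card ι : ℝ) with hk'
  have hkpos : 0 < k := by rw [hk']; exact_mod_cast hk
  -- pigeonhole
  have hpig : ∃ i, ∃ᶠ N : ℕ in atTop,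
      c / k * Real.sqrt N / g N ≤ (((A ∩ S i) ∩ Set.Icc 1 N).ncard : ℝ) := by
    by_contra h
    push Not at h
    have h1 : ∀ᶠ N : ℕ in atTop, ∀ i,
        (((A ∩ S i) ∩ Set.Icc 1 N).ncard : ℝ) < c / k * Real.sqrt N / g N :=
      eventually_all.2 h
    obtain ⟨N, hN1, hN2⟩ := (hfreq.and_eventually h1).exists
    have h2 : ((A ∩ Set.Icc 1 N).ncard : ℝ) ≤ ∑ i, (((A ∩ S i) ∩ Set.Icc 1 N).ncard : ℝ) := by
      exact_mod_cast seg_inter_card S A hA N
    have h3 : ∑ i, (((A ∩ S i) ∩ Set.Icc 1 N).ncard : ℝ) < ∑ _i : ι, c / k * Real.sqrt N / g N := by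
      apply Finset.sum_lt_sum_of_nonempty
      · rw [Finset.univ_nonempty_iff]
        exact Fintype.card_pos_iff.1 hk
      · exact fun i _ => hN2 i
    rw [Finset.sum_const, Finset.card_univ, nsmul_eq_mul, ← hk'] at h3
    have h4 : k * (c / k * Real.sqrt N / g N) = c * Real.sqrt N / g N := by
      field_simp
    rw [h4] at h3
    linarith
  obtain ⟨i, hi⟩ := hpig
  have hlim := (hσ i).eventually_gt_atTop (18 * B * (k / c) ^ 2)
  obtain ⟨N, hN1, hN2, hN3, hN4⟩ :=
    (hi.and_eventually (hlim.and (hg.and (eventually_ge_atTop 1)))).exists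
  obtain ⟨n, hn, h1⟩ := finite_sub (S i) (A ∩ S i) Set.inter_subset_right N
  have hNpos : (0 : ℝ) < N := by exact_mod_cast hN4
  have h2 : (rep (A ∩ S i) n : ℝ) ≤ B := by
    have h3 := (rep_mono (Set.inter_subset_left : A ∩ S i ⊆ A) n).trans (hcon n).le
    exact_mod_cast h3
  have h3 : (c / k * Real.sqrt N / g N) ^ 2 ≤ (((A ∩ S i) ∩ Set.Icc 1 N).ncard : ℝ) ^ 2 :=
    pow_le_pow_left₀ (by positivity) hN1 2
  have h4 : (c / k * Real.sqrt N / g N) ^ 2 = (c / k) ^ 2 * N / g N ^ 2 := by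
    rw [div_pow, mul_pow, Real.sq_sqrt hNpos.le]
  rw [h4] at h3
  have h5 : (c / k) ^ 2 * N / g N ^ 2 * lsum (S i) N ≤ 18 * N * B := by
    calc (c / k) ^ 2 * N / g N ^ 2 * lsum (S i) N
        ≤ (((A ∩ S i) ∩ Set.Icc 1 N).ncard : ℝ) ^ 2 * lsum (S i) N :=
          mul_le_mul_of_nonneg_right h3 (lsum_nonneg _ _)
      _ ≤ _ := h1
      _ ≤ 18 * N * B := mul_le_mul_of_nonneg_left h2 (by positivity)
  have h6 : (c / k) ^ 2 * (lsum (S i) N / g N ^ 2) ≤ 18 * B := by
    have h7 : (N : ℝ) * ((c / k) ^ 2 * (lsum (S i) N / g N ^ 2)) ≤ (N : ℝ) * (18 * B) := by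
      calc (N : ℝ) * ((c / k) ^ 2 * (lsum (S i) N / g N ^ 2))
          = (c / k) ^ 2 * (N : ℝ) / g N ^ 2 * lsum (S i) N := by ring
        _ ≤ (18 * (N : ℝ) * (B : ℝ) : ℝ) := h5
        _ = (N : ℝ) * (18 * B) := by ring
    exact le_of_mul_le_mul_left h7 hNpos
  have h7 : (c / k) ^ 2 * (18 * B * (k / c) ^ 2) < (c / k) ^ 2 * (lsum (S i) N / g N ^ 2) :=
    mul_lt_mul_of_pos_left hN2 (by positivity)
  have h8 : (c / k) ^ 2 * (18 * B * (k / c) ^ 2) = 18 * B := by
    field_simp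
  linarith

/-- a lower bound for the large sieve sum -/
theorem lsum_log (S : Set ℕ) (hS : S.Nonempty) (δ : ℝ) (hδ0 : 0 < δ) (hδ1 : δ < 1)
    (hres : ∀ᶠ p : ℕ in atTop, p.Prime → (res S p : ℝ) ≤ (1 - δ) * p) :
    ∃ c : ℝ, 0 < c ∧ ∀ᶠ N : ℕ in atTop, c * Real.log N ^ ((δ / (1 - δ)) ^ 2) ≤ lsum S N := by
  obtain ⟨p₀, hp₀⟩ := eventually_atTop.1 hres
  set β := (δ / (1 - δ)) ^ 2 with hβ
  have h1δ : 0 < 1 - δ := by linarith
  have hβ0 : 0 < β := by positivity
  obtain ⟨c₂, hc₂, Q₀, hQ₀⟩ := wt_sum_lower β hβ0.le p₀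
  refine ⟨c₂ * (1 / 4) ^ β, by positivity, ?_⟩
  filter_upwards [eventually_ge_atTop ((Q₀ + 1) ^ 2 + 16)] with N hN
  have hN0 : 0 < N := by omega
  have hN' : (0 : ℝ) < N := by exact_mod_cast hN0
  have hsq : Q₀ + 1 ≤ Nat.sqrt N := by
    rw [Nat.le_sqrt']
    omega
  have h2 := hQ₀ (Nat.sqrt N) (by omega) (fun p => res S p) (by
    intro p hp hpp₀
    have hp1 : (1 : ℝ) < p := by exact_mod_cast hp.one_lt
    have ho1 : (0 : ℝ) < res S p := by
      have : 0 < res S p := by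
        rw [res, Set.ncard_pos (res_finite S hp.pos)]
        exact hS.image _
      exact_mod_cast this
    have ho3 : (res S p : ℝ) ≤ (1 - δ) * p := hp₀ p hpp₀ hp
    have h3 : (((p : ℝ) - (1 - δ) * p) / ((1 - δ) * p)) ^ 2 = β := by
      rw [hβ]
      congr 1
      field_simp
      ring
    rw [← h3]
    exact ratio_mono ho1 ho3 (by nlinarith))
  rw [lsum_eq]
  refine le_trans ?_ h2
  have hlog : (1 / 4) * Real.log N ≤ Real.log (Nat.sqrt N) := by
    have h4 : (N : ℝ) ≤ ((Nat.sqrt N : ℕ) : ℝ) ^ 4 := by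
      have h5 : N < (Nat.sqrt N + 1) ^ 2 := Nat.lt_succ_sqrt' N
      have h6 : 4 ≤ Nat.sqrt N := by
        rw [Nat.le_sqrt']
        omega
      have h7 : (Nat.sqrt N + 1) ^ 2 ≤ (Nat.sqrt N) ^ 4 := by
        have h8 : Nat.sqrt N + 1 ≤ (Nat.sqrt N) ^ 2 := by nlinarith
        calc (Nat.sqrt N + 1) ^ 2 ≤ ((Nat.sqrt N) ^ 2) ^ 2 := Nat.pow_le_pow_left h8 2
          _ = _ := by ring
      exact_mod_cast h5.le.trans h7
    have h5 : (0 : ℝ) < ((Nat.sqrt N : ℕ) : ℝ) := by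
      have : 0 < Nat.sqrt N := Nat.sqrt_pos.2 hN0
      exact_mod_cast this
    have h6 := Real.log_le_log hN' h4
    rw [Real.log_pow] at h6
    push_cast at h6
    linarith
  have hlogN : 0 ≤ Real.log N := Real.log_nonneg (by exact_mod_cast hN0)
  calc c₂ * (1 / 4) ^ β * Real.log N ^ β = c₂ * ((1 / 4) * Real.log N) ^ β := by
        rw [Real.mul_rpow (by norm_num) hlogN]
        ring
    _ ≤ _ := by
        apply mul_le_mul_of_nonneg_left _ hc₂.le
        exact Real.rpow_le_rpow (by positivity) hlog hβ0.le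

/-- powers of the logarithm -/
theorem forces_of_log {ι : Type} [Fintype ι] (S : ι → Set ℕ) (g : ℕ → ℝ) (δ : ℝ) (hδ0 : 0 < δ)
    (hδ1 : δ < 1) (hres : ∀ i, ∀ᶠ p : ℕ in atTop, p.Prime → (res (S i) p : ℝ) ≤ (1 - δ) * p)
    (hg : ∀ᶠ N in atTop, 0 < g N)
    (hlim : Tendsto (fun N : ℕ => Real.log N ^ ((δ / (1 - δ)) ^ 2) / g N ^ 2) atTop atTop) :
    ForcesIn (⋃ i, S i) g := by
  classical
  -- remove the empty sets
  have h1 : (⋃ i, S i) = ⋃ i : {i // (S i).Nonempty}, S i := by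
    ext x
    simp only [Set.mem_iUnion]
    constructor
    · rintro ⟨i, hi⟩
      exact ⟨⟨i, ⟨x, hi⟩⟩, hi⟩
    · rintro ⟨i, hi⟩
      exact ⟨i, hi⟩
  rw [h1]
  apply forces_of_lsum (fun i : {i // (S i).Nonempty} => S i) g hg
  intro i
  obtain ⟨c, hc, h2⟩ := lsum_log (S i) i.2 δ hδ0 hδ1 (hres i)
  refine tendsto_atTop_mono' _ ?_ (hlim.const_mul_atTop hc)
  filter_upwards [h2] with N hN
  rw [← mul_div_assoc]
  exact div_le_div_of_nonneg_right hN (by positivity)

/-- divergence of the sum over primes makes the large sieve sum unbounded -/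
theorem lsum_tendsto (S : Set ℕ)
    (hdiv : ¬ Summable fun p : ℕ => if p.Prime then ((p : ℝ) - res S p) ^ 2 / (p : ℝ) ^ 3 else 0)
    (hS : S.Nonempty) : Tendsto (fun N => lsum S N) atTop atTop := by
  classical
  set f : ℕ → ℝ := fun p => if p.Prime then ((p : ℝ) - res S p) ^ 2 / (p : ℝ) ^ 3 else 0 with hf
  have hf0 : ∀ p, 0 ≤ f p := by
    intro p
    simp only [hf]
    split_ifs
    · positivity
    · exact le_refl _
  have h1 := (not_summable_iff_tendsto_nat_atTop_of_nonneg hf0).1 hdiv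
  rw [tendsto_atTop]
  intro b
  obtain ⟨m, hm⟩ := (h1.eventually_ge_atTop b).exists
  filter_upwards [eventually_ge_atTop ((m + 1) ^ 2)] with N hN
  have hsq : m + 1 ≤ Nat.sqrt N := by
    rw [Nat.le_sqrt']
    exact hN
  refine hm.trans ?_
  rw [lsum_eq]
  have h4 : ∑ p ∈ range m, f p ≤ ∑ p ∈ (range m).filter Nat.Prime, wt (fun p => res S p) p := by
    rw [Finset.sum_filter]
    refine Finset.sum_le_sum fun p _ => ?_
    simp only [hf]
    split_ifs with hp
    · unfold wt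
      rw [hp.primeFactors, Finset.prod_singleton, Nat.totient_prime hp,
        Nat.cast_sub hp.one_lt.le, Nat.cast_one]
      have hp1 : (1 : ℝ) < p := by exact_mod_cast hp.one_lt
      have ho1 : (0 : ℝ) < res S p := by
        have : 0 < res S p := by
          rw [res, Set.ncard_pos (res_finite S hp.pos)]
          exact hS.image _
        exact_mod_cast this
      have ho3 : (res S p : ℝ) ≤ p := by exact_mod_cast res_le S hp.pos
      have h5 : (((p : ℝ) - res S p) / p) ^ 2 ≤ (((p : ℝ) - res S p) / res S p) ^ 2 := by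
        apply pow_le_pow_left₀ (div_nonneg (by linarith) (by linarith))
        exact div_le_div_of_nonneg_left (by linarith) (by linarith) ho3
      calc ((p : ℝ) - res S p) ^ 2 / (p : ℝ) ^ 3 = (((p : ℝ) - res S p) / p) ^ 2 / p := by
            field_simp
        _ ≤ (((p : ℝ) - res S p) / p) ^ 2 / (p - 1) :=
            div_le_div_of_nonneg_left (by positivity) (by linarith) (by linarith)
        _ ≤ _ := div_le_div_of_nonneg_right h5 (by linarith)
    · exact le_refl _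
  refine h4.trans (Finset.sum_le_sum_of_subset_of_nonneg ?_ fun q _ _ => wt_nonneg _ q)
  intro p hp
  rw [mem_filter, mem_range] at hp
  rw [mem_filter, mem_Icc]
  exact ⟨⟨hp.2.one_lt.le, by omega⟩, hp.2.prime.squarefree⟩

/-- existence of a threshold tending to infinity -/
theorem exists_threshold {ι : Type} [Fintype ι] (S : ι → Set ℕ)
    (hdiv : ∀ i, ¬ Summable fun p : ℕ =>
      if p.Prime then ((p : ℝ) - res (S i) p) ^ 2 / (p : ℝ) ^ 3 else 0) :
    ∃ g : ℕ → ℝ, Tendsto g atTop atTop ∧ ForcesIn (⋃ i, S i) g := by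
  classical
  have h1 : (⋃ i, S i) = ⋃ i : {i // (S i).Nonempty}, S i := by
    ext x
    simp only [Set.mem_iUnion]
    constructor
    · rintro ⟨i, hi⟩
      exact ⟨⟨i, ⟨x, hi⟩⟩, hi⟩
    · rintro ⟨i, hi⟩
      exact ⟨i, hi⟩
  rw [h1]
  by_cases hne : Nonempty {i // (S i).Nonempty}
  · set m : ℕ → ℝ := fun N => Finset.univ.inf' Finset.univ_nonempty
      (fun i : {i // (S i).Nonempty} => lsum (S i) N) with hm
    have hmlim : Tendsto m atTop atTop := by
      rw [tendsto_atTop]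
      intro b
      have h2 : ∀ᶠ N : ℕ in atTop, ∀ i : {i // (S i).Nonempty}, b ≤ lsum (S i) N :=
        eventually_all.2 fun i => (lsum_tendsto (S i) (hdiv i) i.2).eventually_ge_atTop b
      filter_upwards [h2] with N hN
      exact Finset.le_inf' _ _ fun i _ => hN i
    have hm1 : ∀ᶠ N in atTop, 1 ≤ m N := hmlim.eventually_ge_atTop 1
    refine ⟨fun N => Real.sqrt (Real.sqrt (m N)), ?_, ?_⟩
    · exact (Real.tendsto_sqrt_atTop.comp (Real.tendsto_sqrt_atTop.comp hmlim))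
    · apply forces_of_lsum (fun i : {i // (S i).Nonempty} => S i)
      · filter_upwards [hm1] with N hN
        have : 0 < m N := by linarith
        positivity
      · intro i
        refine tendsto_atTop_mono' _ ?_ (Real.tendsto_sqrt_atTop.comp hmlim)
        filter_upwards [hm1] with N hN
        have h2 : 0 < m N := by linarith
        have h3 : 0 < Real.sqrt (m N) := Real.sqrt_pos.2 h2
        simp only [Function.comp]
        rw [Real.sq_sqrt h3.le, le_div_iff₀ h3, Real.mul_self_sqrt h2.le]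
        exact Finset.inf'_le _ (Finset.mem_univ i)
  · refine ⟨fun N => N, tendsto_natCast_atTop_atTop, ?_⟩
    intro A hA
    rintro ⟨c, hc, h2⟩
    exfalso
    have h3 : A = ∅ := by
      rw [Set.eq_empty_iff_forall_notMem]
      intro x hx
      obtain ⟨i, -⟩ := Set.mem_iUnion.1 (hA hx)
      exact hne ⟨i⟩
    obtain ⟨N, hN1, hN2⟩ := (h2.and_eventually (eventually_ge_atTop 1)).exists
    rw [h3, Set.empty_inter, Set.ncard_empty] at hN1
    have h4 : (0 : ℝ) < N := by exact_mod_cast hN2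
    have h5 : 0 < c * Real.sqrt N / N := by positivity
    norm_num at hN1
    linarith

end Pool.Agent.TH314.ET
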